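import Pool.Agent.Helper75K9.QI.Stm2

/-!
[AES] Almost sure weak convergence of random measures.
-/

set_option maxHeartbeats 400000

namespace QI75

open MeasureTheory Filter Topology

namespace AesL

variable {X : Type} [MetricSpace X]

open Classical in
/-- The Lipschitz approximations of the indicator function of an open set. -/
noncomputable def Ph (U : Set X) (k : ℕ) (x : X) : ℝ :=
  if (Uᶜ).Nonempty then min 1 (k * Metric.infDist x Uᶜ) else 1

theorem Ph_nonneg (U : Set X) (k : ℕ) (x : X) : 0 ≤ Ph U k x := by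
  unfold Ph
  split_ifs
  · exact le_min zero_le_one (mul_nonneg (Nat.cast_nonneg _) Metric.infDist_nonneg)
  · exact zero_le_one

theorem Ph_le_one (U : Set X) (k : ℕ) (x : X) : Ph U k x ≤ 1 := by
  unfold Ph
  split_ifs
  · exact min_le_left _ _
  · exact le_rfl

theorem Ph_lip (U : Set X) (k : ℕ) : LipschitzWith k (Ph U k) := by
  unfold Ph
  split_ifs
  · apply LipschitzWith.of_dist_le_mul
    intro x y
    have h1 : |min 1 ((k : ℝ) * Metric.infDist x Uᶜ) - min 1 ((k : ℝ) * Metric.infDist y Uᶜ)| ≤
        |(k : ℝ) * Metric.infDist x Uᶜ - (k : ℝ) * Metric.infDist y Uᶜ| := by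
      have := abs_min_sub_min_le_max 1 ((k : ℝ) * Metric.infDist x Uᶜ) 1
        ((k : ℝ) * Metric.infDist y Uᶜ)
      rwa [sub_self, abs_zero, max_eq_right (abs_nonneg _)] at this
    rw [Real.dist_eq]
    refine h1.trans ?_
    rw [← mul_sub, abs_mul, abs_of_nonneg (Nat.cast_nonneg k)]
    have h2 := (Metric.lipschitz_infDist_pt (s := Uᶜ)).dist_le_mul x y
    rw [Real.dist_eq] at h2
    simp only [NNReal.coe_one, one_mul] at h2
    have h3 : (((k : NNReal)) : ℝ) = k := by simp
    rw [h3]
    exact mul_le_mul_of_nonneg_left h2 (Nat.cast_nonneg k)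
  · exact LipschitzWith.const' _ |>.weaken zero_le

theorem Ph_le_ind {U : Set X} (hU : IsOpen U) (k : ℕ) (x : X) :
    Ph U k x ≤ U.indicator (fun _ => (1 : ℝ)) x := by
  by_cases hx : x ∈ U
  · rw [Set.indicator_of_mem hx]; exact Ph_le_one U k x
  · rw [Set.indicator_of_notMem hx]
    have hne : (Uᶜ).Nonempty := ⟨x, hx⟩
    unfold Ph
    rw [if_pos hne]
    have : Metric.infDist x Uᶜ = 0 := Metric.infDist_zero_of_mem hx
    rw [this, mul_zero]
    exact min_le_right _ _

theorem Ph_tendsto {U : Set X} (hU : IsOpen U) (x : X) :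
    Tendsto (fun k : ℕ => Ph U k x) atTop (𝓝 (U.indicator (fun _ => (1 : ℝ)) x)) := by
  by_cases hx : x ∈ U
  · rw [Set.indicator_of_mem hx]
    by_cases hne : (Uᶜ).Nonempty
    · have hd : 0 < Metric.infDist x Uᶜ :=
        (hU.isClosed_compl.notMem_iff_infDist_pos hne).mp (fun h => h hx)
      obtain ⟨N, hN⟩ := exists_nat_gt (1 / Metric.infDist x Uᶜ)
      apply tendsto_const_nhds.congr'
      filter_upwards [eventually_ge_atTop N] with k hk
      unfold Ph
      rw [if_pos hne, min_eq_left]
      have h1 : (N : ℝ) ≤ k := by exact_mod_cast hk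
      have h2 : 1 / Metric.infDist x Uᶜ < k := lt_of_lt_of_le hN h1
      rw [div_lt_iff₀ hd] at h2
      exact h2.le
    · apply tendsto_const_nhds.congr'
      filter_upwards with k
      unfold Ph
      rw [if_neg hne]
  · rw [Set.indicator_of_notMem hx]
    apply tendsto_const_nhds.congr'
    filter_upwards with k
    have := Ph_le_ind hU k x
    rw [Set.indicator_of_notMem hx] at this
    exact le_antisymm (Ph_nonneg U k x) this

variable [MeasurableSpace X] [BorelSpace X]

theorem Ph_int (μ : Measure X) [IsProbabilityMeasure μ] (U : Set X) (k : ℕ) :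
    Integrable (Ph U k) μ := by
  apply Integrable.of_bound (C := 1)
  · exact (Ph_lip U k).continuous.measurable.aestronglyMeasurable
  · filter_upwards with x
    rw [Real.norm_of_nonneg (Ph_nonneg U k x)]
    exact Ph_le_one U k x

theorem int_le (μ : Measure X) [IsProbabilityMeasure μ] {U : Set X} (hU : IsOpen U) (k : ℕ) :
    ENNReal.ofReal (∫ x, Ph U k x ∂μ) ≤ μ U := by
  have h1 : ∫ x, Ph U k x ∂μ ≤ ∫ x, U.indicator (fun _ => (1 : ℝ)) x ∂μ :=
    integral_mono (Ph_int μ U k) ((integrable_const 1).indicator hU.measurableSet)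
      (Ph_le_ind hU k)
  rw [integral_indicator_const _ hU.measurableSet, smul_eq_mul, mul_one] at h1
  refine (ENNReal.ofReal_le_ofReal h1).trans ?_
  rw [measureReal_def, ENNReal.ofReal_toReal (measure_ne_top _ _)]

theorem int_tendsto (μ : Measure X) [IsProbabilityMeasure μ] {U : Set X} (hU : IsOpen U) :
    Tendsto (fun k : ℕ => ENNReal.ofReal (∫ x, Ph U k x ∂μ)) atTop (𝓝 (μ U)) := by
  have h1 : Tendsto (fun k : ℕ => ∫ x, Ph U k x ∂μ) atTop
      (𝓝 (∫ x, U.indicator (fun _ => (1 : ℝ)) x ∂μ)) := by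
    apply tendsto_integral_of_dominated_convergence (fun _ => (1 : ℝ))
    · intro k
      exact (Ph_lip U k).continuous.measurable.aestronglyMeasurable
    · exact integrable_const 1
    · intro k
      filter_upwards with x
      rw [Real.norm_of_nonneg (Ph_nonneg U k x)]
      exact Ph_le_one U k x
    · filter_upwards with x
      exact Ph_tendsto hU x
  rw [integral_indicator_const _ hU.measurableSet, smul_eq_mul, mul_one] at h1
  have h2 := ENNReal.tendsto_ofReal h1
  rwa [measureReal_def, ENNReal.ofReal_toReal (measure_ne_top _ _)] at h2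

end AesL

open AesL in
theorem aes : S_AES := by
  intro X _ _ _ _ Ω _ P ρ μ h
  classical
  let B := TopologicalSpace.countableBasis X
  haveI : Countable B := (TopologicalSpace.countable_countableBasis X).to_subtype
  let U : Finset B → Set X := fun s => ⋃ b ∈ s, (b : Set X)
  have hUo : ∀ s, IsOpen (U s) := fun s =>
    isOpen_biUnion fun b _ => TopologicalSpace.isOpen_of_mem_countableBasis b.2
  have hall : ∀ᵐ ω ∂P, ∀ (s : Finset B) (k : ℕ), Tendsto (fun n => ∫ x, Ph (U s) k x
      ∂(ρ n ω : Measure X)) atTop (𝓝 (∫ x, Ph (U s) k x ∂(μ : Measure X))) := by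
    rw [ae_all_iff]
    intro s
    rw [ae_all_iff]
    intro k
    refine h (Ph (U s) k) ⟨1, fun x => ?_⟩ ⟨k, Ph_lip _ _⟩
    rw [abs_of_nonneg (Ph_nonneg _ _ _)]
    exact Ph_le_one _ _ _
  filter_upwards [hall] with ω hω
  apply tendsto_of_forall_isOpen_le_liminf'
  intro G hG
  apply le_of_forall_lt_imp_le_of_dense
  intro c hc
  obtain ⟨s, hsG, hcs⟩ : ∃ s : Finset B, U s ⊆ G ∧ c < (μ : Measure X) (U s) := by
    let J := {s : Finset B // ∀ b ∈ s, (b : Set X) ⊆ G}
    have hGU : G = ⋃ j : J, U j.1 := by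
      apply Set.Subset.antisymm
      · intro x hx
        obtain ⟨b, hb, hxb, hbG⟩ :=
          (TopologicalSpace.isBasis_countableBasis X).exists_subset_of_mem_open hx hG
        rw [Set.mem_iUnion]
        refine ⟨⟨{⟨b, hb⟩}, fun b' hb' => ?_⟩, ?_⟩
        · rw [Finset.mem_singleton] at hb'
          rw [hb']
          exact hbG
        · exact Set.mem_biUnion (Finset.mem_singleton_self _) hxb
      · apply Set.iUnion_subset
        rintro ⟨s, hs⟩
        exact Set.iUnion₂_subset hs
    have hdir : Directed (· ⊆ ·) (fun j : J => U j.1) := by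
      rintro ⟨s, hs⟩ ⟨t, ht⟩
      refine ⟨⟨s ∪ t, fun b hb => ?_⟩, ?_, ?_⟩
      · rcases Finset.mem_union.mp hb with hb | hb
        · exact hs b hb
        · exact ht b hb
      · exact Set.biUnion_subset_biUnion_left fun b hb => Finset.mem_union_left _ hb
      · exact Set.biUnion_subset_biUnion_left fun b hb => Finset.mem_union_right _ hb
    have hm := hdir.measure_iUnion (μ := (μ : Measure X))
    rw [← hGU] at hm
    rw [hm, lt_iSup_iff] at hc
    obtain ⟨⟨s, hs⟩, hcs⟩ := hc
    exact ⟨s, Set.iUnion₂_subset hs, hcs⟩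
  obtain ⟨k, hk⟩ := ((int_tendsto (μ : Measure X) (hUo s)).eventually_const_lt hcs).exists
  have h3 := (ENNReal.tendsto_ofReal (hω s k)).eventually_const_lt hk
  apply le_liminf_of_le (by isBoundedDefault)
  filter_upwards [h3] with n hn
  exact hn.le.trans ((int_le _ (hUo s) k).trans (measure_mono hsG))

end QI75
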