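import Pool.Agent.Helper75K9.QI.Stm

/-!
[AR4] The four arm events near the end points.
-/

set_option maxHeartbeats 400000

namespace QI75

open H974 H973 H934E NI38 Finset MeasureTheory TopologicalSpace Filter Topology

namespace Ar4L

/-- Complements. -/
theorem pr_sdiff (S : Finset Edg) (A : Finset Edg → Prop) :
    Pr hf S (fun F => A (S \ F)) = Pr hf S A := by
  have e0 : (hf : Edg → ℝ) = fun e => 1 - hf e := by
    funext e; unfold hf; norm_num
  have e1 := Pr_compl hf S A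
  rw [← e0] at e1
  exact e1.symm

theorem mp_eq (g : LSym) (S : Finset Edg) (A : Finset Edg → Prop) :
    Pr hf S (fun F => A (g.mp F)) = Pr hf (g.mp S) A := (g.pr (1 / 2) S A).symm

theorem dmp_eq (S : Finset Edg) (A : Finset Edg → Prop) :
    Pr hf S (fun F => A (dmp F)) = Pr hf (dmp S) A := (pr_dmp (1 / 2) S A).symm

end Ar4L

open Ar4L in
theorem ar4 : S_AR4 := by
  obtain ⟨C, hC, h⟩ := BAr_le
  refine ⟨4 * C, by positivity, ?_⟩
  intro R δ r r' hr hrr
  have key : ∀ (S : Finset Edg) (k : ℤ), Pr hf S (BAr k r r') ≤ C * (th r / th r') := by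
    intro S k
    have i1 : Pr hf S (BAr k r r') ≤ Pr hf (S ∪ RE (k - r') (k + r') 0 r') (BAr k r r') :=
      Pr_mono_set okhalf Finset.subset_union_left (BAr_incr _ _ _ _)
    exact i1.trans (h k r r' hr hrr _ Finset.subset_union_right)
  have h1 := key (R.edges δ) 0
  have h2 : Pr hf (R.edges δ) (fun F => BAr (R.tc δ) r r' ((rfy (R.y1 δ)).mp F)) ≤
      C * (th r / th r') := by
    rw [mp_eq]; exact key _ _
  have h3 : Pr hf (R.edges δ) (fun F => BAr 0 r r' ((trl 0 1).mp (dmp (R.edges δ \ F)))) ≤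
      C * (th r / th r') := by
    rw [pr_sdiff (R.edges δ) (fun G => BAr 0 r r' ((trl 0 1).mp (dmp G))),
      dmp_eq (R.edges δ) (fun G => BAr 0 r r' ((trl 0 1).mp G)), mp_eq]
    exact key _ _
  have h4 : Pr hf (R.edges δ) (fun F => BAr (R.tc δ) r r' ((rfy (R.y1 δ)).mp
      (dmp (R.edges δ \ F)))) ≤ C * (th r / th r') := by
    rw [pr_sdiff (R.edges δ) (fun G => BAr (R.tc δ) r r' ((rfy (R.y1 δ)).mp (dmp G))),
      dmp_eq (R.edges δ) (fun G => BAr (R.tc δ) r r' ((rfy (R.y1 δ)).mp G)), mp_eq]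
    exact key _ _
  have o1 := Pr_or_le (p := hf) okhalf (R.edges δ)
    (fun F => BAr 0 r r' F ∨ BAr (R.tc δ) r r' ((rfy (R.y1 δ)).mp F))
    (fun F => BAr 0 r r' ((trl 0 1).mp (dmp (R.edges δ \ F))) ∨
      BAr (R.tc δ) r r' ((rfy (R.y1 δ)).mp (dmp (R.edges δ \ F))))
  have o2 := Pr_or_le (p := hf) okhalf (R.edges δ)
    (fun F => BAr 0 r r' F) (fun F => BAr (R.tc δ) r r' ((rfy (R.y1 δ)).mp F))
  have o3 := Pr_or_le (p := hf) okhalf (R.edges δ)
    (fun F => BAr 0 r r' ((trl 0 1).mp (dmp (R.edges δ \ F))))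
    (fun F => BAr (R.tc δ) r r' ((rfy (R.y1 δ)).mp (dmp (R.edges δ \ F))))
  have e : Pr hf (R.edges δ) (Arm4 R δ r r') =
    Pr hf (R.edges δ) (fun F => (BAr 0 r r' F ∨ BAr (R.tc δ) r r' ((rfy (R.y1 δ)).mp F)) ∨
      (BAr 0 r r' ((trl 0 1).mp (dmp (R.edges δ \ F))) ∨
      BAr (R.tc δ) r r' ((rfy (R.y1 δ)).mp (dmp (R.edges δ \ F))))) := rfl
  rw [e]
  have h1' : Pr hf (R.edges δ) (fun F => BAr 0 r r' F) ≤ C * (th r / th r') := h1
  linarith

end QI75
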