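import Pool.Agent.Helper75K9.QI.Stm
import Pool.Agent.H974R2.Block

/-!
[ARM] Polynomial upper bound for the one-arm probability at `1/2`.
-/

set_option maxHeartbeats 400000

namespace QI75

open H974 H973 H934E NI38 Finset MeasureTheory TopologicalSpace Filter Topology

theorem arm_ : S_ARM := by
  set q : ℝ := 1 - (1/2 : ℝ)^188 with hq
  have hq0 : 0 < q := by
    rw [hq]
    have : (1/2 : ℝ)^188 ≤ (1/2 : ℝ)^1 := pow_le_pow_of_le_one (by norm_num) (by norm_num) (by norm_num)
    norm_num at this ⊢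
  have hq1 : q < 1 := by
    rw [hq]
    have : (0 : ℝ) < (1/2 : ℝ)^188 := by positivity
    linarith
  clear_value q
  have hlog3 : 0 < Real.log 3 := Real.log_pos (by norm_num)
  have hlogq : Real.log q < 0 := Real.log_neg hq0 hq1
  set c : ℝ := -(Real.log q / Real.log 3) with hc
  have hc0 : 0 < c := by
    rw [hc, neg_pos]
    exact div_neg_of_neg_of_pos hlogq hlog3
  have hqc : (3 : ℝ) ^ (-c) = q := by
    rw [Real.rpow_def_of_pos (by norm_num), hc, neg_neg, mul_div_cancel₀ _ hlog3.ne',
      Real.exp_log hq0]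
  clear_value c
  refine ⟨c, 27 ^ c, hc0, by positivity, ?_⟩
  intro n hn
  set K : ℕ := Nat.log 3 (n / 9) with hK
  have h1 : arm (1 / 2) n ≤ q ^ K := by
    rcases Nat.lt_or_ge n 9 with h | h
    · have : n / 9 = 0 := Nat.div_eq_of_lt h
      rw [hK, this, Nat.log_zero_right, pow_zero]
      exact arm_le_one (by norm_num) (by norm_num) n
    · have h2 : 3 ^ K ≤ n / 9 := Nat.pow_log_le_self 3 (by omega)
      have h3 : RR K ≤ n := by
        unfold RR
        omega
      have h4 := arm_anti (q := 1 / 2) (by norm_num) (by norm_num) h3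
      refine h4.trans ?_
      have := arm_decay K
      rw [hq]
      exact this
  refine h1.trans ?_
  have h5 : n / 9 < 3 ^ (K + 1) := Nat.lt_pow_succ_log_self (by norm_num) _
  have h6 : n < 27 * 3 ^ K := by
    rw [pow_succ] at h5
    omega
  have h7 : (n : ℝ) < 27 * 3 ^ K := by exact_mod_cast h6
  have hn0 : (0 : ℝ) < n := by exact_mod_cast hn
  have h8 : q ^ K = ((3 : ℝ) ^ K) ^ (-c) := by
    rw [← hqc, ← Real.rpow_natCast, ← Real.rpow_mul (by norm_num), ← Real.rpow_natCast,
      ← Real.rpow_mul (by norm_num)]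
    congr 1
    ring
  rw [h8]
  have h9 : (27 : ℝ) ^ c * (n : ℝ) ^ (-c) = ((n : ℝ) / 27) ^ (-c) := by
    rw [Real.div_rpow hn0.le (by norm_num), Real.rpow_neg (by norm_num : (0:ℝ) ≤ 27),
      div_inv_eq_mul, mul_comm]
  rw [h9]
  apply Real.rpow_le_rpow_of_nonpos (by positivity) _ (by linarith)
  linarith

end QI75
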