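import Pool.Agent.Helper75K9.QI.Stm
import Pool.Agent.Helper38K9.NI.Pot

/-!
[COR]: when the exploration has stopped the corners are known. Potential with values in `ZMod 2`
as in `NI/Pot.lean`, for the clusters of the revealed edges.
-/

set_option maxHeartbeats 1000000

namespace QI75

open H974 H973 H934E NI38 Finset

namespace CorL

open NI38.PotL (iv iv_of iv_not iv_congr mem_edges At at_iff src_at cv InF cv_at outer_in wired_sub
  clu_val)

/-- The form whose potential is used. -/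
noncomputable def DD (C D : Set Vtx) (e : Edg) : ZMod 2 :=
  (iv (src e ∈ C) + iv (tgt e ∈ C)) * iv (dsrc e ∈ D)

/-- The hypotheses on the two clusters. -/
structure Hyp (R : Rect) (δ : ℝ) (C D : Set Vtx) : Prop where
  dd : ∀ e ∈ R.edges δ, DD C D e = (iv (src e ∈ C) + iv (tgt e ∈ C)) * iv (dtgt e ∈ D)
  out : ∀ g ∈ R.outer δ, g ∈ D
  org : ((0, 0) : Vtx) ∈ C

variable {R : Rect} {δ : ℝ} {C D : Set Vtx}

/-- The potential. -/
noncomputable def ss (R : Rect) (δ : ℝ) (C D : Set Vtx) (x y : ℤ) : ZMod 2 :=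
  ∑ i ∈ Finset.Ico (R.x0 δ) x, DD C D (i, 0, true) +
    ∑ j ∈ Finset.Ico (0:ℤ) y, DD C D (x, j, false)

theorem ss_v {x y : ℤ} (hy : 0 ≤ y) :
    ss R δ C D x (y + 1) = ss R δ C D x y + DD C D (x, y, false) := by
  unfold ss
  rw [sum_Ico_int_succ hy]
  ring

theorem face0 (hH : Hyp R δ C D) {x y : ℤ} (h1 : R.x0 δ ≤ x) (h2 : x < R.x1 δ) (h3 : 0 ≤ y) (h4 : y < R.y1 δ) :
    DD C D (x, y, true) + DD C D (x + 1, y, false) =
      DD C D (x, y, false) + DD C D (x, y + 1, true) := by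
  have e1 : ((x, y, true) : Edg) ∈ R.edges δ := mem_edges.mpr ⟨by omega, by simp; omega⟩
  have e2 : ((x, y, false) : Edg) ∈ R.edges δ := mem_edges.mpr ⟨by omega, by simp; omega⟩
  rw [hH.dd _ e1, hH.dd _ e2]
  unfold DD
  simp only [src_mk, tgt_true, tgt_false, dtgt_mk, dsrc_true, dsrc_false, add_sub_cancel_right]
  have k1 := zmod2_add_self (iv ((x + 1, y) ∈ C) * iv ((x, y) ∈ D))
  have k2 := zmod2_add_self (iv ((x, y + 1) ∈ C) * iv ((x, y) ∈ D))
  linear_combination k1 - k2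

theorem ss_h (hH : Hyp R δ C D) {x y : ℤ} (h1 : R.x0 δ ≤ x) (h2 : x < R.x1 δ) (h3 : 0 ≤ y) (h4 : y ≤ R.y1 δ) :
    ss R δ C D (x + 1) y = ss R δ C D x y + DD C D (x, y, true) := by
  revert h4
  induction y, h3 using Int.leInduction with
  | base =>
    intro _
    unfold ss
    rw [sum_Ico_int_succ h1]
    simp
  | succ y hy ih =>
    intro h4
    rw [ss_v hy, ss_v hy, ih (by omega)]
    have := face0 hH h1 h2 hy (by omega : y < R.y1 δ)
    linear_combination this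

/-- The value at the face `f`, computed at `v`. -/
noncomputable def tt (R : Rect) (δ : ℝ) (C D : Set Vtx) (v f : Vtx) : ZMod 2 :=
  ss R δ C D v.1 v.2 + iv (v ∈ C) * iv (f ∈ D)

theorem tt_h (hH : Hyp R δ C D) {x y : ℤ} {f : Vtx} (h1 : At R δ (x, y) f) (h2 : At R δ (x + 1, y) f) :
    tt R δ C D (x, y) f = tt R δ C D (x + 1, y) f := by
  obtain ⟨⟨⟨a1, a2⟩, a3, a4⟩, a5, a6⟩ := h1
  obtain ⟨⟨⟨b1, b2⟩, b3, b4⟩, b5, b6⟩ := h2
  simp only at a1 a2 a3 a4 a5 a6 b1 b2 b3 b4 b5 b6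
  have hx : f.1 = x := by omega
  have e1 : ((x, y, true) : Edg) ∈ R.edges δ := mem_edges.mpr ⟨by omega, by simp; omega⟩
  unfold tt
  simp only
  rw [ss_h hH a1 (by omega) a3 a4]
  have key : DD C D (x, y, true) =
      (iv ((x, y) ∈ C) + iv ((x + 1, y) ∈ C)) * iv (f ∈ D) := by
    rcases a6 with h | h
    · rw [hH.dd _ e1]
      have : f = (x, y) := Prod.ext hx h
      rw [this]
      rfl
    · have : f = (x, y - 1) := Prod.ext hx h
      rw [this]
      rfl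
  rw [key]
  have k1 := zmod2_add_self (iv ((x + 1, y) ∈ C) * iv (f ∈ D))
  linear_combination -k1

theorem tt_v (hH : Hyp R δ C D) {x y : ℤ} {f : Vtx} (h1 : At R δ (x, y) f) (h2 : At R δ (x, y + 1) f) :
    tt R δ C D (x, y) f = tt R δ C D (x, y + 1) f := by
  obtain ⟨⟨⟨a1, a2⟩, a3, a4⟩, a5, a6⟩ := h1
  obtain ⟨⟨⟨b1, b2⟩, b3, b4⟩, b5, b6⟩ := h2
  simp only at a1 a2 a3 a4 a5 a6 b1 b2 b3 b4 b5 b6
  have hy : f.2 = y := by omega
  have e1 : ((x, y, false) : Edg) ∈ R.edges δ := mem_edges.mpr ⟨by omega, by simp; omega⟩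
  unfold tt
  simp only
  rw [ss_v a3]
  have key : DD C D (x, y, false) =
      (iv ((x, y) ∈ C) + iv ((x, y + 1) ∈ C)) * iv (f ∈ D) := by
    rcases a5 with h | h
    · rw [hH.dd _ e1]
      have : f = (x, y) := Prod.ext h hy
      rw [this]
      rfl
    · have : f = (x - 1, y) := Prod.ext h hy
      rw [this]
      rfl
  rw [key]
  have k1 := zmod2_add_self (iv ((x, y + 1) ∈ C) * iv (f ∈ D))
  linear_combination -k1

theorem tt_h' (hH : Hyp R δ C D) {x x' y : ℤ} {f : Vtx} (h1 : At R δ (x, y) f) (h2 : At R δ (x', y) f) :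
    tt R δ C D (x, y) f = tt R δ C D (x', y) f := by
  have a5 := h1.2.1
  have b5 := h2.2.1
  simp only at a5 b5
  have : x' = x ∨ x' = x + 1 ∨ x = x' + 1 := by omega
  rcases this with h | h | h
  · rw [h]
  · subst h; exact tt_h hH h1 h2
  · subst h; exact (tt_h hH h2 h1).symm

theorem tt_v' (hH : Hyp R δ C D) {x y y' : ℤ} {f : Vtx} (h1 : At R δ (x, y) f) (h2 : At R δ (x, y') f) :
    tt R δ C D (x, y) f = tt R δ C D (x, y') f := by
  have a5 := h1.2.2
  have b5 := h2.2.2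
  simp only at a5 b5
  have : y' = y ∨ y' = y + 1 ∨ y = y' + 1 := by omega
  rcases this with h | h | h
  · rw [h]
  · subst h; exact tt_v hH h1 h2
  · subst h; exact (tt_v hH h2 h1).symm

theorem tt_eq (hH : Hyp R δ C D) {v w f : Vtx} (h1 : At R δ v f) (h2 : At R δ w f) :
    tt R δ C D v f = tt R δ C D w f := by
  obtain ⟨x, y⟩ := v
  obtain ⟨x', y'⟩ := w
  have h3 : At R δ (x', y) f := ⟨⟨h2.1.1, h1.1.2⟩, h2.2.1, h1.2.2⟩
  rw [tt_h' hH h1 h3, tt_v' hH h3 h2]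

/-- Two faces of the dual cluster with a common vertex have the same value. -/
theorem tt_face {v f g : Vtx} (hf : f ∈ D) (hg : g ∈ D) :
    tt R δ C D v f = tt R δ C D v g := by
  unfold tt
  rw [iv_of hf, iv_of hg]

theorem outer_bot (hH : Hyp R δ C D) (hs : Sm R δ) {x : ℤ} (h0 : 0 ≤ x) : x ≤ R.x1 δ →
    tt R δ C D (cv R δ (x, -1)) (x, -1) = ss R δ C D 0 0 + 1 := by
  induction x, h0 using Int.leInduction with
  | base =>
    intro hx
    have ho : ((0:ℤ), (-1:ℤ)) ∈ R.outer δ := Or.inl ⟨rfl, le_rfl, hx⟩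
    have hc : ((0:ℤ), (0:ℤ)) ∈ C := hH.org
    have hA : At R δ (0, 0) (0, -1) := by
      obtain ⟨h1, h2, h3, h4, h5⟩ := hs
      rw [at_iff]
      omega
    rw [tt_eq hH (cv_at hs (outer_in hs ho)) hA]
    unfold tt
    rw [iv_of hc, iv_of (hH.out _ ho), mul_one]
  | succ x hx ih =>
    intro hx1
    have ih' := ih (by omega)
    have o1 : ((x:ℤ), (-1:ℤ)) ∈ R.outer δ := Or.inl ⟨rfl, hx, by simp only; omega⟩
    have o2 : ((x + 1:ℤ), (-1:ℤ)) ∈ R.outer δ := Or.inl ⟨rfl, by simp only; omega, hx1⟩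
    have a1 : At R δ (x + 1, 0) (x, -1) := by
      obtain ⟨h1, h2, h3, h4, h5⟩ := hs
      rw [at_iff]
      omega
    have a2 : At R δ (x + 1, 0) (x + 1, -1) := by
      obtain ⟨h1, h2, h3, h4, h5⟩ := hs
      rw [at_iff]
      omega
    rw [tt_eq hH (cv_at hs (outer_in hs o2)) a2, ← tt_face (hH.out _ o1) (hH.out _ o2),
      tt_eq hH a1 (cv_at hs (outer_in hs o1))]
    exact ih'

theorem outer_right (hH : Hyp R δ C D) (hs : Sm R δ) {y : ℤ} (h0 : -1 ≤ y) : y ≤ R.y1 δ →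
    tt R δ C D (cv R δ (R.x1 δ, y)) (R.x1 δ, y) = ss R δ C D 0 0 + 1 := by
  induction y, h0 using Int.leInduction with
  | base =>
    intro _
    exact outer_bot hH hs (by have := hs.x1; omega) le_rfl
  | succ y hy ih =>
    intro hy1
    have ih' := ih (by omega)
    have o1 : (R.x1 δ, y) ∈ R.outer δ := Or.inr (Or.inl ⟨rfl, hy, by simp only; omega⟩)
    have o2 : (R.x1 δ, y + 1) ∈ R.outer δ := Or.inr (Or.inl ⟨rfl, by simp only; omega, hy1⟩)
    have a1 : At R δ (R.x1 δ, y + 1) (R.x1 δ, y) := by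
      obtain ⟨h1, h2, h3, h4, h5⟩ := hs
      rw [at_iff]
      omega
    have a2 : At R δ (R.x1 δ, y + 1) (R.x1 δ, y + 1) := by
      obtain ⟨h1, h2, h3, h4, h5⟩ := hs
      rw [at_iff]
      omega
    rw [tt_eq hH (cv_at hs (outer_in hs o2)) a2, ← tt_face (hH.out _ o1) (hH.out _ o2),
      tt_eq hH a1 (cv_at hs (outer_in hs o1))]
    exact ih'

theorem outer_top (hH : Hyp R δ C D) (hs : Sm R δ) (n : ℕ) : R.tc δ ≤ R.x1 δ - n →
    tt R δ C D (cv R δ (R.x1 δ - n, R.y1 δ)) (R.x1 δ - n, R.y1 δ) = ss R δ C D 0 0 + 1 := by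
  induction n with
  | zero =>
    intro _
    have := outer_right hH hs (by have := hs.y1; omega : -1 ≤ R.y1 δ) le_rfl
    simpa using this
  | succ n ih =>
    intro hn
    push_cast at hn ⊢
    have ih' := ih (by omega)
    have o1 : (R.x1 δ - n, R.y1 δ) ∈ R.outer δ :=
      Or.inr (Or.inr ⟨rfl, by simp only; omega, by simp only; omega⟩)
    have o2 : (R.x1 δ - (n + 1), R.y1 δ) ∈ R.outer δ :=
      Or.inr (Or.inr ⟨rfl, hn, by simp only; omega⟩)
    have a1 : At R δ (R.x1 δ - n, R.y1 δ) (R.x1 δ - n, R.y1 δ) := by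
      obtain ⟨h1, h2, h3, h4, h5⟩ := hs
      rw [at_iff]
      omega
    have a2 : At R δ (R.x1 δ - n, R.y1 δ) (R.x1 δ - (n + 1), R.y1 δ) := by
      obtain ⟨h1, h2, h3, h4, h5⟩ := hs
      rw [at_iff]
      omega
    rw [tt_eq hH (cv_at hs (outer_in hs o2)) a2, ← tt_face (hH.out _ o1) (hH.out _ o2),
      tt_eq hH a1 (cv_at hs (outer_in hs o1))]
    exact ih'

theorem outer_val (hH : Hyp R δ C D) (hs : Sm R δ) {g : Vtx} (hg : g ∈ R.outer δ) :
    tt R δ C D (cv R δ g) g = ss R δ C D 0 0 + 1 := by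
  obtain ⟨x, y⟩ := g
  rcases hg with ⟨a1, a2, a3⟩ | ⟨a1, a2, a3⟩ | ⟨a1, a2, a3⟩
  · simp only at a1 a2 a3
    subst a1
    exact outer_bot hH hs a2 a3
  · simp only at a1 a2 a3
    subst a1
    exact outer_right hH hs a2 a3
  · simp only at a1 a2 a3
    subst a1
    have h := outer_top hH hs (R.x1 δ - x).toNat
    have e : ((R.x1 δ - x).toNat : ℤ) = R.x1 δ - x := Int.toNat_of_nonneg (by omega)
    rw [e] at h
    have e2 : R.x1 δ - (R.x1 δ - x) = x := by ring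
    rw [e2] at h
    exact h a2


/-- The potential is constant on the full cluster. -/
theorem clu_ss (hH : Hyp R δ C D) (hs : Sm R δ) {F : Finset Edg} (hF : F ⊆ R.edges δ)
    (h0 : ∀ e ∈ (↑F ∪ R.wired δ : Set Edg), DD C D e = 0) {v : Vtx} (hv : v ∈ R.clu δ F) :
    ss R δ C D v.1 v.2 = ss R δ C D 0 0 := by
  have hv' : Reach (↑F ∪ R.wired δ) (0, 0) v := hv
  clear hv
  induction hv' with
  | refl => rfl
  | @tail w z hw hs' ih =>
    obtain ⟨e, he, hc⟩ := hs'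
    have hE : e ∈ R.edges δ := by
      rcases he with h | h
      · exact hF (Finset.mem_coe.mp h)
      · exact wired_sub hs h
    have hD : DD C D e = 0 := h0 e he
    obtain ⟨x, y, b⟩ := e
    have hE' := mem_edges.mp hE
    have key : ss R δ C D (tgt (x, y, b)).1 (tgt (x, y, b)).2 =
        ss R δ C D (src (x, y, b)).1 (src (x, y, b)).2 := by
      cases b
      · simp only [Bool.false_eq_true, if_false] at hE'
        rw [tgt_false, src_mk, ss_v hE'.1.2.1, hD, add_zero]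
      · simp only [if_true] at hE'
        rw [tgt_true, src_mk, ss_h hH hE'.1.1.1 (by omega) hE'.1.2.1 hE'.1.2.2, hD, add_zero]
    rcases hc with ⟨h1, h2⟩ | ⟨h1, h2⟩
    · rw [h1, h2] at key
      exact key.trans ih
    · rw [h1, h2] at key
      exact key.symm.trans ih

/-- The value at the faces is constant on the full dual cluster. -/
theorem dclu_tt (hH : Hyp R δ C D) (hs : Sm R δ) {F : Finset Edg}
    (h0 : ∀ e ∈ (↑(R.edges δ) \ (↑F ∪ R.wired δ) : Set Edg),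
      iv (src e ∈ C) * iv (dsrc e ∈ D) = iv (src e ∈ C) * iv (dtgt e ∈ D))
    {f : Vtx} (hf : f ∈ R.dclu δ F) :
    InF R δ f ∧ tt R δ C D (cv R δ f) f = ss R δ C D 0 0 + 1 := by
  obtain ⟨g, hg, h⟩ := hf
  induction h with
  | refl => exact ⟨outer_in hs hg, outer_val hH hs hg⟩
  | @tail w z hw hs' ih =>
    obtain ⟨e, he, hc⟩ := hs'
    have hE : e ∈ R.edges δ := Finset.mem_coe.mp he.1
    obtain ⟨s1, s2⟩ := src_at hE
    have hwz : At R δ (src e) w ∧ At R δ (src e) z := by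
      rcases hc with ⟨h1, h2⟩ | ⟨h1, h2⟩
      · rw [h1] at s1; rw [h2] at s2; exact ⟨s1, s2⟩
      · rw [h1] at s1; rw [h2] at s2; exact ⟨s2, s1⟩
    have hInz : InF R δ z := by
      obtain ⟨⟨⟨b1, b2⟩, b3, b4⟩, b5, b6⟩ := hwz.2
      unfold InF
      omega
    refine ⟨hInz, ?_⟩
    have hst : tt R δ C D (src e) (dsrc e) = tt R δ C D (src e) (dtgt e) := by
      unfold tt
      rw [h0 e he]
    have hzw : tt R δ C D (src e) z = tt R δ C D (src e) w := by
      rcases hc with ⟨h1, h2⟩ | ⟨h1, h2⟩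
      · rw [h1, h2] at hst; exact hst.symm
      · rw [h1, h2] at hst; exact hst
    rw [tt_eq hH (cv_at hs hInz) hwz.2, hzw, tt_eq hH hwz.1 (cv_at hs ih.1)]
    exact ih.2

/-- A corner of the full clusters is a corner of `C` and `D`. -/
theorem corner_in (hH : Hyp R δ C D) (hs : Sm R δ) {F : Finset Edg} (hF : F ⊆ R.edges δ)
    (h0 : ∀ e ∈ (↑F ∪ R.wired δ : Set Edg), DD C D e = 0)
    (h1 : ∀ e ∈ (↑(R.edges δ) \ (↑F ∪ R.wired δ) : Set Edg),
      iv (src e ∈ C) * iv (dsrc e ∈ D) = iv (src e ∈ C) * iv (dtgt e ∈ D))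
    {v f : Vtx} (hv : v ∈ R.clu δ F) (hf : f ∈ R.dclu δ F)
    (ha : (f.1 = v.1 ∨ f.1 = v.1 - 1) ∧ (f.2 = v.2 ∨ f.2 = v.2 - 1)) : v ∈ C ∧ f ∈ D := by
  have k1 := clu_ss hH hs hF h0 hv
  obtain ⟨k2, k3⟩ := dclu_tt hH hs h1 hf
  have hA : At R δ v f := ⟨(clu_val hs hF hv).1, ha⟩
  rw [tt_eq hH (cv_at hs k2) hA] at k3
  unfold tt at k3
  rw [k1] at k3
  have k4 : iv (v ∈ C) * iv (f ∈ D) = 1 := add_left_cancel k3
  constructor
  · by_contra hc
    rw [iv_not hc, zero_mul] at k4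
    exact absurd k4 (by decide)
  · by_contra hc
    rw [iv_not hc, mul_zero] at k4
    exact absurd k4 (by decide)

end CorL

open CorL in
open NI38.PotL (iv iv_of iv_not iv_congr wired_sub) in
theorem cor : S_COR := by
  intro R δ hs O Cl F hOF hF hCl hdis hstop
  have hopen : ∀ e ∈ (↑O ∪ R.wired δ : Set Edg), (src e ∈ R.clu δ O ↔ tgt e ∈ R.clu δ O) :=
    fun e he => NI38.PotL.open_iff he
  have hclosed : ∀ e ∈ (↑Cl \ R.wired δ : Set Edg), (dsrc e ∈ dcl R δ Cl ↔ dtgt e ∈ dcl R δ Cl) := by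
    intro e he
    constructor
    · rintro ⟨g, hg, h⟩
      exact ⟨g, hg, h.trans (DAdj.reach ⟨e, he, Or.inl ⟨rfl, rfl⟩⟩)⟩
    · rintro ⟨g, hg, h⟩
      exact ⟨g, hg, h.trans (DAdj.reach ⟨e, he, Or.inr ⟨rfl, rfl⟩⟩)⟩
  -- the trichotomy
  have tri : ∀ e ∈ R.edges δ, (src e ∈ R.clu δ O ↔ tgt e ∈ R.clu δ O) ∨
      (e ∈ Cl ∧ e ∉ R.wired δ ∧ (dsrc e ∈ dcl R δ Cl ↔ dtgt e ∈ dcl R δ Cl)) ∨
      (dsrc e ∉ dcl R δ Cl ∧ dtgt e ∉ dcl R δ Cl) := by
    intro e he
    by_cases hw : e ∈ R.wired δ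
    · exact Or.inl (hopen e (Or.inr hw))
    by_cases hO : e ∈ O
    · exact Or.inl (hopen e (Or.inl (Finset.mem_coe.mpr hO)))
    by_cases hC : e ∈ Cl
    · exact Or.inr (Or.inl ⟨hC, hw, hclosed e ⟨Finset.mem_coe.mpr hC, hw⟩⟩)
    have h1 := hstop e he hO hC
    unfold TchOC at h1
    rw [not_and_or, not_or, not_or] at h1
    rcases h1 with h1 | h1
    · exact Or.inl ⟨fun h => absurd h h1.1, fun h => absurd h h1.2⟩
    · exact Or.inr (Or.inr h1)
  have hH : Hyp R δ (R.clu δ O) (dcl R δ Cl) := by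
    refine ⟨?_, fun g hg => ⟨g, hg, DReach.refl _ _⟩, Reach.refl _ _⟩
    intro e he
    unfold DD
    rcases tri e he with h | ⟨_, _, h⟩ | ⟨h, h'⟩
    · rw [iv_congr h, zmod2_add_self, zero_mul, zero_mul]
    · rw [iv_congr h]
    · rw [iv_not h, iv_not h']
  have hO0 : ∀ e ∈ (↑F ∪ R.wired δ : Set Edg), DD (R.clu δ O) (dcl R δ Cl) e = 0 := by
    intro e he
    have hE : e ∈ R.edges δ := by
      rcases he with h | h
      · exact hF (Finset.mem_coe.mp h)
      · exact wired_sub hs h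
    unfold DD
    rcases tri e hE with h | ⟨h1, h2, _⟩ | ⟨h, _⟩
    · rw [iv_congr h, zmod2_add_self, zero_mul]
    · exfalso
      rcases he with h | h
      · exact Finset.disjoint_left.mp hdis h1 (Finset.mem_coe.mp h)
      · exact h2 h
    · rw [iv_not h, mul_zero]
  have hC0 : ∀ e ∈ (↑(R.edges δ) \ (↑F ∪ R.wired δ) : Set Edg),
      iv (src e ∈ R.clu δ O) * iv (dsrc e ∈ dcl R δ Cl) =
        iv (src e ∈ R.clu δ O) * iv (dtgt e ∈ dcl R δ Cl) := by
    intro e he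
    have hE : e ∈ R.edges δ := Finset.mem_coe.mp he.1
    have hw : e ∉ R.wired δ := fun h => he.2 (Or.inr h)
    have hO : e ∉ O := fun h => he.2 (Or.inl (Finset.mem_coe.mpr (hOF h)))
    by_cases hC : e ∈ Cl
    · rw [iv_congr (hclosed e ⟨Finset.mem_coe.mpr hC, hw⟩)]
    have h1 := hstop e hE hO hC
    unfold TchOC at h1
    rw [not_and_or, not_or, not_or] at h1
    rcases h1 with h1 | h1
    · rw [iv_not h1.1, zero_mul, zero_mul]
    · rw [iv_not h1.1, iv_not h1.2]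
  ext k
  simp only [Rect.corners, Set.mem_ofPred_eq]
  constructor
  · rintro ⟨hv, hf⟩
    refine corner_in hH hs hF hO0 hC0 hv hf ?_
    unfold cface
    constructor
    · by_cases h : k.2.1 = true <;> simp [h]
    · by_cases h : k.2.2 = true <;> simp [h]
  · rintro ⟨hv, g, hg, hf⟩
    refine ⟨Reach.mono (Set.union_subset_union_left _ (by exact_mod_cast hOF)) hv, g, hg,
      DReach.mono ?_ hf⟩
    rintro e ⟨h1, h2⟩
    refine ⟨Finset.mem_coe.mpr (hCl (Finset.mem_coe.mp h1)), ?_⟩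
    rintro (h | h)
    · exact Finset.disjoint_left.mp hdis (Finset.mem_coe.mp h1) (Finset.mem_coe.mp h)
    · exact h2 h

end QI75
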