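import Pool.Agent.Helper75K9.QI.Stm
import Pool.Agent.Helper38K9.NI.War

/-! [DET]: without the arms the traces of two configurations which differ near `a` and `b` only
are close. -/

set_option maxHeartbeats 1000000

namespace QI75

open H974 H973 H934E NI38 Finset MeasureTheory TopologicalSpace Filter Topology

namespace DetL

/-- The corner at `b`. -/
theorem corner_b {R : Rect} {δ : ℝ} (hs : Sm R δ) (F : Finset Edg) :
    (((0, 0), (true, false)) : Vtx × (Bool × Bool)) ∈ R.corners δ F := by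
  refine ⟨Reach.refl _ _, ?_⟩
  have e : cface ((0, 0) : Vtx) (true, false) = (0, -1) := by unfold cface; simp
  simp only
  rw [e]
  exact ⟨(0, -1), Or.inl ⟨rfl, le_rfl, by have := hs.x1; simp only; omega⟩, DReach.refl _ _⟩

/-- The corner at `a`. -/
theorem corner_a {R : Rect} {δ : ℝ} (hs : Sm R δ) (F : Finset Edg) :
    (((R.tc δ, R.y1 δ), (true, true)) : Vtx × (Bool × Bool)) ∈ R.corners δ F := by
  have h1 := hs.x0
  have h2 := hs.x1
  have h3 := hs.t0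
  have h4 := hs.t1
  have h5 := hs.y1
  refine ⟨?_, ?_⟩
  · exact WarL.tp (by omega) (by omega) (by omega) le_rfl
  · have e : cface ((R.tc δ, R.y1 δ) : Vtx) (true, true) = (R.tc δ, R.y1 δ) := by
      unfold cface; simp
    simp only
    rw [e]
    exact ⟨(R.tc δ, R.y1 δ), Or.inr (Or.inr ⟨rfl, le_rfl, by simp only; omega⟩), DReach.refl _ _⟩

theorem close {δ : ℝ} (hδ : 0 < δ) {r' : ℤ} (hr' : 3 ≤ r') {z w : ℂ} {v u : Vtx}
    (z1 : |z.re - δ * v.1| ≤ δ) (z2 : |z.im - δ * (v.2 + 1)| ≤ δ)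
    (w1 : |w.re - δ * u.1| ≤ δ) (w2 : |w.im - δ * (u.2 + 1)| ≤ δ)
    (h1 : |v.1 - u.1| ≤ r' + 3) (h2 : |v.2 - u.2| ≤ r' + 3) : dist z w ≤ 20 * (δ * r') := by
  refine (HauL.dist_le_abs z w).trans ?_
  rw [abs_le] at h1 h2
  have k1 := FwL.abs_le_of hδ (a := v.1) (b := u.1) (c := r' + 3) (by linarith) (by linarith)
  have k2 := FwL.abs_le_of hδ (a := v.2) (b := u.2) (c := r' + 3) (by linarith) (by linarith)
  push_cast at k1 k2
  have e1 : z.re - w.re = (z.re - δ * v.1) + (δ * (v.1:ℝ) - δ * u.1) - (w.re - δ * u.1) := by ring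
  have e2 : z.im - w.im = (z.im - δ * (v.2 + 1)) + (δ * (v.2:ℝ) - δ * u.2) -
      (w.im - δ * (u.2 + 1)) := by ring
  rw [e1, e2]
  have t1 := abs_sub ((z.re - δ * v.1) + (δ * (v.1:ℝ) - δ * u.1)) (w.re - δ * u.1)
  have t2 := abs_add_le (z.re - δ * v.1) (δ * (v.1:ℝ) - δ * u.1)
  have t3 := abs_sub ((z.im - δ * (v.2 + 1)) + (δ * (v.2:ℝ) - δ * u.2)) (w.im - δ * (u.2 + 1))
  have t4 := abs_add_le (z.im - δ * (v.2 + 1)) (δ * (v.2:ℝ) - δ * u.2)
  have hr3 : (3:ℝ) ≤ r' := by exact_mod_cast hr'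
  have h5 : δ * 3 ≤ δ * r' := mul_le_mul_of_nonneg_left hr3 hδ.le
  nlinarith

theorem near {R : Rect} {δ : ℝ} (hδ : 0 < δ) (hs : Sm R δ) {r' : ℤ} (hr' : 3 ≤ r')
    {F G : Finset Edg} (hF : F ⊆ R.edges δ)
    (h : ∀ v : Vtx, Out R δ (r' + 2) v →
      (v ∈ R.clu δ F → v ∈ R.clu δ G) ∧ (v ∈ R.dclu δ F → v ∈ R.dclu δ G)) {z : ℂ}
    (hz : z ∈ R.path δ F) : ∃ w ∈ R.path δ G, dist z w ≤ 20 * (δ * r') := by
  have hz' := hz
  unfold Rect.path at hz'
  rw [Set.mem_iUnion₂] at hz'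
  obtain ⟨k, hk, hzk⟩ := hz'
  obtain ⟨z1, z2⟩ := HauL.cseg_near hδ hzk
  obtain ⟨v, s⟩ := k
  simp only at z1 z2 hzk
  obtain ⟨hv, hf⟩ := hk
  simp only at hv hf
  obtain ⟨⟨⟨a1, a2⟩, a3, a4⟩, -⟩ := PotL.clu_val hs hF hv
  obtain ⟨c1, c2⟩ := HauL.cface_cases v s
  by_cases hO : Out R δ (r' + 3) v
  · refine ⟨z, ?_, ?_⟩
    · unfold Rect.path
      rw [Set.mem_iUnion₂]
      refine ⟨(v, s), ⟨?_, ?_⟩, hzk⟩
      · refine (h v ?_).1 hv
        unfold Out at *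
        omega
      · refine (h (cface v s) ?_).2 hf
        unfold Out at *
        simp only [le_abs] at *
        omega
    · rw [dist_self]
      have hr3 : (3:ℝ) ≤ r' := by exact_mod_cast hr'
      nlinarith
  · have hcase : (|v.1| < r' + 3 ∧ v.2 < r' + 3) ∨
        (|v.1 - R.tc δ| < r' + 3 ∧ R.y1 δ - v.2 < r' + 3) := by
      unfold Out at hO
      rw [not_and_or, not_or, not_or] at hO
      simpa only [not_le] using hO
    rcases hcase with ⟨h1, h2⟩ | ⟨h1, h2⟩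
    · obtain ⟨w, hw, w1, w2⟩ := HauL.path_of_corner hδ (corner_b hs G)
      refine ⟨w, hw, close hδ hr' z1 z2 w1 w2 ?_ ?_⟩
      · simp only [sub_zero]; omega
      · simp only [sub_zero]
        rw [abs_of_nonneg a3]
        omega
    · obtain ⟨w, hw, w1, w2⟩ := HauL.path_of_corner hδ (corner_a hs G)
      refine ⟨w, hw, close hδ hr' z1 z2 w1 w2 ?_ ?_⟩
      · simp only; omega
      · simp only
        rw [abs_le]
        constructor <;> omega

end DetL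

theorem det : S_LOC → S_DET := by
  intro hloc R δ hδ hs r r' hr hr' F F' hF hF' hL hA
  have hloc' := hloc R δ hs r r' hr hr' F F' hF hF' hL hA
  have hr3 : (3:ℤ) ≤ r' := by omega
  have hr3' : (3:ℝ) ≤ r' := by exact_mod_cast hr3
  rw [Metric.NonemptyCompacts.dist_eq]
  apply Metric.hausdorffDist_le_of_mem_dist (by nlinarith)
  · intro z hz
    exact DetL.near hδ hs hr3 hF (fun v hv => ⟨(hloc' v hv).1.mp, (hloc' v hv).2.mp⟩) hz
  · intro z hz
    exact DetL.near hδ hs hr3 hF' (fun v hv => ⟨(hloc' v hv).1.mpr, (hloc' v hv).2.mpr⟩) hz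

end QI75
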