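import Pool.Agent.Helper75K9.QI.Stm

/-! # [ENV]: variance of the quenched expectation -/

set_option maxHeartbeats 400000

namespace QI75

open H974 H973 H934E NI38 Finset MeasureTheory TopologicalSpace Filter Topology

namespace EnvL

theorem chi_insert_notMem {e : Edg} {T : Finset Edg} (he : e ∉ T) (F : Finset Edg) :
    chi T (insert e F) = chi T F := by
  unfold chi
  rw [Finset.insert_inter_of_notMem he]

theorem chi_insert_mem {e : Edg} {T F : Finset Edg} (he : e ∈ T) (hF : e ∉ F) :
    chi T (insert e F) = - chi T F := by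
  unfold chi
  rw [Finset.insert_inter_of_mem he, Finset.card_insert_of_notMem
    (fun h => hF (Finset.mem_inter.1 h).1), pow_succ]
  ring

theorem chi_erase {e : Edg} {T F : Finset Edg} (hF : e ∉ F) : chi T F = chi (T.erase e) F := by
  unfold chi
  congr 2
  ext x
  simp only [Finset.mem_inter, Finset.mem_erase]
  constructor
  · rintro ⟨h1, h2⟩
    exact ⟨h1, fun h => hF (h ▸ h1), h2⟩
  · rintro ⟨h1, _, h2⟩
    exact ⟨h1, h2⟩

theorem wal_insert_notMem {e : Edg} {V T : Finset Edg} (hV : e ∉ V) (hT : e ∉ T)
    (f : Finset Edg → ℝ) :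
    wal (insert e V) f T = (wal V (fun F => f (insert e F)) T + wal V f T) / 2 := by
  unfold wal
  rw [Ex_insert _ hV]
  simp only [chi_insert_notMem hT, hf]
  ring

theorem wal_insert_mem {e : Edg} {V T : Finset Edg} (hV : e ∉ V) (hT : e ∈ T)
    (f : Finset Edg → ℝ) :
    wal (insert e V) f T =
      (wal V f (T.erase e) - wal V (fun F => f (insert e F)) (T.erase e)) / 2 := by
  unfold wal
  rw [Ex_insert _ hV]
  have h1 : Ex hf V (fun F => chi T (insert e F) * f (insert e F)) =
      - Ex hf V (fun F => chi (T.erase e) F * f (insert e F)) := by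
    rw [← neg_one_mul, ← Ex_mul_left]
    refine Ex_congr fun F hF => ?_
    have heF : e ∉ F := fun h => hV (hF h)
    rw [chi_insert_mem hT heF, chi_erase heF]
    ring
  have h2 : Ex hf V (fun F => chi T F * f F) = Ex hf V (fun F => chi (T.erase e) F * f F) := by
    refine Ex_congr fun F hF => ?_
    have heF : e ∉ F := fun h => hV (hF h)
    rw [chi_erase heF]
  rw [h1, h2]
  simp only [hf]
  ring

theorem wal_empty (S : Finset Edg) (f : Finset Edg → ℝ) : wal S f ∅ = Ex hf S f := by
  unfold wal chi
  simp

/-- expansion of the expectation for arbitrary parameters -/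
theorem expand (P : Edg → ℝ) (S : Finset Edg) (f : Finset Edg → ℝ) :
    Ex P S f = ∑ U ∈ S.powerset, wal S f U * ∏ e ∈ U, (1 - 2 * P e) := by
  induction S using Finset.induction_on generalizing f with
  | empty => simp [wal, Ex_empty, chi]
  | insert e V he ih =>
    rw [Finset.sum_powerset_insert he, ← Finset.sum_add_distrib, Ex_insert _ he,
      ih (fun F => f (insert e F)), ih f, Finset.mul_sum, Finset.mul_sum,
      ← Finset.sum_add_distrib]
    refine Finset.sum_congr rfl fun T hT => ?_
    have heT : e ∉ T := fun h => he (Finset.mem_powerset.1 hT h)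
    rw [wal_insert_notMem he heT, wal_insert_mem he (Finset.mem_insert_self e T),
      Finset.erase_insert heT, Finset.prod_insert heT]
    ring

variable {ν : Edg → Measure unitInterval} [∀ e, IsProbabilityMeasure (ν e)]

theorem int_prod (S : Finset Edg) (φ : Edg → unitInterval → ℝ) (hφ : ∀ e, Measurable (φ e)) :
    ∫ P, ∏ e ∈ S, φ e (P e) ∂(Measure.infinitePi ν) = ∏ e ∈ S, ∫ u, φ e u ∂ν e := by
  have h := integral_restrict_infinitePi (μ := ν) (s := S)
    (f := fun y : (i : S) → unitInterval => ∏ i : S, φ i (y i))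
    (by
      apply Measurable.aestronglyMeasurable
      exact Finset.measurable_fun_prod _ fun i _ => (hφ i).comp (measurable_pi_apply i))
  rw [integral_fintype_prod_eq_prod (f := fun (i : S) => φ i)] at h
  rw [← Finset.prod_coe_sort S (fun e => ∫ u, φ e u ∂ν e), ← h]
  congr 1
  ext P
  exact (Finset.prod_coe_sort S (fun e => φ e (P e))).symm

/-- the character of the environment -/
def X (U : Finset Edg) (P : Edg → unitInterval) : ℝ := ∏ e ∈ U, (1 - 2 * (P e : ℝ))

theorem X_meas (U : Finset Edg) : Measurable (X U) := by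
  unfold X
  refine Finset.measurable_fun_prod _ fun e _ => ?_
  have h1 : Measurable (fun P : Edg → unitInterval => (P e : ℝ)) :=
    measurable_subtype_coe.comp (measurable_pi_apply e)
  exact measurable_const.sub (measurable_const.mul h1)

theorem X_le (U : Finset Edg) (P : Edg → unitInterval) : |X U P| ≤ 1 := by
  unfold X
  rw [Finset.abs_prod]
  apply Finset.prod_le_one
  · intro e _; exact abs_nonneg _
  · intro e _
    rw [abs_le]
    have h1 := (P e).2.1
    have h2 := (P e).2.2
    constructor <;> linarith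

theorem X_int (U U' : Finset Edg) : Integrable (fun P => X U P * X U' P) (Measure.infinitePi ν) := by
  refine Integrable.of_bound ((X_meas U).mul (X_meas U')).aestronglyMeasurable 1
    (Filter.Eventually.of_forall fun P => ?_)
  rw [Real.norm_eq_abs, abs_mul]
  exact mul_le_one₀ (X_le U P) (abs_nonneg _) (X_le U' P)

theorem X_mul {S U U' : Finset Edg} (hU : U ⊆ S) (hU' : U' ⊆ S) (P : Edg → unitInterval) :
    X U P * X U' P = ∏ e ∈ S, ((if e ∈ U then (1 - 2 * (P e : ℝ)) else 1) *
      (if e ∈ U' then (1 - 2 * (P e : ℝ)) else 1)) := by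
  rw [Finset.prod_mul_distrib]
  unfold X
  rw [← Finset.prod_subset hU (f := fun e => if e ∈ U then (1 - 2 * (P e : ℝ)) else 1)
      (fun e _ he => by rw [if_neg he]),
    ← Finset.prod_subset hU' (f := fun e => if e ∈ U' then (1 - 2 * (P e : ℝ)) else 1)
      (fun e _ he => by rw [if_neg he])]
  congr 1
  · exact Finset.prod_congr rfl fun e he => by rw [if_pos he]
  · exact Finset.prod_congr rfl fun e he => by rw [if_pos he]

theorem u_int (e : Edg) : Integrable (fun u : unitInterval => (u : ℝ)) (ν e) := by
  refine Integrable.of_bound measurable_subtype_coe.aestronglyMeasurable 1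
    (Filter.Eventually.of_forall fun u => ?_)
  rw [Real.norm_eq_abs, abs_of_nonneg u.2.1]
  exact u.2.2

theorem EX_mul {S U U' : Finset Edg} (hU : U ⊆ S) (hU' : U' ⊆ S)
    (h1 : ∀ e, ∫ u, (u : ℝ) ∂ν e = 1 / 2) :
    ∫ P, X U P * X U' P ∂(Measure.infinitePi ν) =
      if U = U' then ∏ e ∈ U, ∫ u, (2 * (u : ℝ) - 1) ^ 2 ∂ν e else 0 := by
  have h2 : ∫ P, X U P * X U' P ∂(Measure.infinitePi ν) =
      ∏ e ∈ S, ∫ u, ((if e ∈ U then (1 - 2 * (u : ℝ)) else 1) *
        (if e ∈ U' then (1 - 2 * (u : ℝ)) else 1)) ∂ν e := by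
    rw [← int_prod S (fun e (u : unitInterval) => ((if e ∈ U then (1 - 2 * (u : ℝ)) else 1) *
        (if e ∈ U' then (1 - 2 * (u : ℝ)) else 1)))]
    · congr 1
      ext P
      exact X_mul hU hU' P
    · intro e
      have h3 : Measurable (fun u : unitInterval => (1 - 2 * (u : ℝ))) :=
        measurable_const.sub (measurable_const.mul measurable_subtype_coe)
      apply Measurable.mul
      · split_ifs
        · exact h3
        · exact measurable_const
      · split_ifs
        · exact h3
        · exact measurable_const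
  rw [h2]
  have hz : ∀ e, ∫ u, (1 - 2 * (u : ℝ)) ∂ν e = 0 := by
    intro e
    rw [integral_sub (integrable_const _) ((u_int e).const_mul 2), integral_const_mul, h1 e]
    simp
  split_ifs with h
  · subst h
    rw [← Finset.prod_subset hU]
    · refine Finset.prod_congr rfl fun e he => ?_
      congr 1
      ext u
      rw [if_pos he]
      ring
    · intro e _ he
      simp [he]
  · have : ∃ e ∈ S, (e ∈ U ∧ e ∉ U') ∨ (e ∉ U ∧ e ∈ U') := by
      by_contra hcon
      push Not at hcon
      apply h
      ext e
      constructor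
      · intro he
        exact (hcon e (hU he)).1 he
      · intro he
        by_contra hne
        exact (hcon e (hU' he)).2 hne he
    obtain ⟨e, heS, he⟩ := this
    apply Finset.prod_eq_zero heS
    rcases he with ⟨he1, he2⟩ | ⟨he1, he2⟩
    · simp only [if_pos he1, if_neg he2, mul_one]
      exact hz e
    · simp only [if_neg he1, if_pos he2, one_mul]
      exact hz e

end EnvL

open EnvL

theorem env : S_ENV := by
  intro S f τ h0 h1 ν _ hm hv
  have hsub : ∀ P : Edg → unitInterval, Ex (fun e => (P e : ℝ)) S f - Ex hf S f =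
      ∑ U ∈ S.powerset.filter (fun U => U ≠ ∅), wal S f U * X U P := by
    intro P
    rw [expand (fun e => (P e : ℝ)) S f, ← wal_empty,
      ← Finset.sum_filter_add_sum_filter_not S.powerset (fun U => U ≠ ∅)]
    have h3 : S.powerset.filter (fun U => ¬ U ≠ ∅) = {∅} := by
      ext U
      simp only [Finset.mem_filter, Finset.mem_powerset, not_not, Finset.mem_singleton]
      constructor
      · exact fun h => h.2
      · rintro rfl
        exact ⟨Finset.empty_subset _, rfl⟩
    rw [h3]
    simp [X]
  have hsq : ∀ P : Edg → unitInterval, (Ex (fun e => (P e : ℝ)) S f - Ex hf S f) ^ 2 =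
      ∑ U ∈ S.powerset.filter (fun U => U ≠ ∅), ∑ U' ∈ S.powerset.filter (fun U => U ≠ ∅),
        wal S f U * wal S f U' * (X U P * X U' P) := by
    intro P
    rw [hsub P, sq, Finset.sum_mul_sum]
    refine Finset.sum_congr rfl fun U _ => Finset.sum_congr rfl fun U' _ => ?_
    ring
  have hi2 : ∀ U U' : Finset Edg,
      Integrable (fun P => wal S f U * wal S f U' * (X U P * X U' P)) (Measure.infinitePi ν) :=
    fun U U' => (X_int U U').const_mul _
  have hi1 : ∀ U : Finset Edg, Integrable (fun P => ∑ U' ∈ S.powerset.filter (fun U => U ≠ ∅),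
      wal S f U * wal S f U' * (X U P * X U' P)) (Measure.infinitePi ν) :=
    fun U => integrable_finsetSum _ fun U' _ => hi2 U U'
  have hint : Integrable (fun P : Edg → unitInterval =>
      (Ex (fun e => (P e : ℝ)) S f - Ex hf S f) ^ 2) (Measure.infinitePi ν) := by
    have : (fun P : Edg → unitInterval => (Ex (fun e => (P e : ℝ)) S f - Ex hf S f) ^ 2) =
        fun P => ∑ U ∈ S.powerset.filter (fun U => U ≠ ∅),
          ∑ U' ∈ S.powerset.filter (fun U => U ≠ ∅),
          wal S f U * wal S f U' * (X U P * X U' P) := by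
      ext P
      exact hsq P
    rw [this]
    exact integrable_finsetSum _ fun U _ => hi1 U
  rw [← ofReal_integral_eq_lintegral_ofReal hint (Filter.Eventually.of_forall fun P => sq_nonneg _)]
  apply ENNReal.ofReal_le_ofReal
  have hE : ∫ P, (Ex (fun e => (P e : ℝ)) S f - Ex hf S f) ^ 2 ∂(Measure.infinitePi ν) =
      ∑ U ∈ S.powerset.filter (fun U => U ≠ ∅),
        wal S f U ^ 2 * ∏ e ∈ U, ∫ u, (2 * (u : ℝ) - 1) ^ 2 ∂ν e := by
    simp only [hsq]
    rw [integral_finsetSum _ fun U _ => hi1 U]
    refine Finset.sum_congr rfl fun U hU => ?_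
    rw [integral_finsetSum _ fun U' _ => hi2 U U']
    rw [Finset.sum_eq_single U]
    · rw [integral_const_mul, EX_mul (S := S) (Finset.mem_powerset.1 (Finset.mem_filter.1 hU).1)
        (Finset.mem_powerset.1 (Finset.mem_filter.1 hU).1) hm, if_pos rfl, sq]
    · intro U' hU' hne
      rw [integral_const_mul, EX_mul (S := S) (Finset.mem_powerset.1 (Finset.mem_filter.1 hU).1)
        (Finset.mem_powerset.1 (Finset.mem_filter.1 hU').1) hm, if_neg (Ne.symm hne), mul_zero]
    · intro h
      exact absurd hU h
  rw [hE]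
  unfold NS
  refine Finset.sum_le_sum fun U _ => ?_
  rw [mul_comm]
  apply mul_le_mul_of_nonneg_right _ (sq_nonneg _)
  rw [← Finset.prod_const]
  exact Finset.prod_le_prod (fun e _ => integral_nonneg fun u => sq_nonneg _) fun e _ => hv e

end QI75
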