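import Pool.Agent.Helper75K9.QI.Stm

/-!
[EXP] The exploration tree.
-/

set_option maxHeartbeats 400000

namespace QI75

open H974 H973 H934E NI38 Finset MeasureTheory TopologicalSpace Filter Topology

namespace ExpL

/-- Monotone families of events. -/
def Mon (P : Edg → Finset Edg → Finset Edg → Prop) : Prop :=
  ∀ e O O' Cl Cl', O ⊆ O' → Cl ⊆ Cl' → P e O Cl → P e O' Cl'

open Classical in
/-- The exploration as a decision tree. -/
noncomputable def explore (P : Edg → Finset Edg → Finset Edg → Prop) : ℕ → Finset Edg → Finset Edg → Finset Edg → DT Edg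
  | 0, _, _, _ => DT.leaf
  | n + 1, rem, O, Cl =>
    if h : ∃ e ∈ rem, P e O Cl then
      DT.node h.choose (explore P n (rem.erase h.choose) (insert h.choose O) Cl)
        (explore P n (rem.erase h.choose) O (insert h.choose Cl))
    else DT.leaf

theorem explore_valid (P : Edg → Finset Edg → Finset Edg → Prop) : ∀ (n : ℕ) (rem O Cl : Finset Edg),
    (explore P n rem O Cl).Valid rem
  | 0, _, _, _ => by simp [explore, DT.Valid]
  | n + 1, rem, O, Cl => by
    unfold explore
    split_ifs with h
    · exact ⟨h.choose_spec.1, explore_valid P n _ _ _, explore_valid P n _ _ _⟩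
    · trivial

theorem explore_stop (P : Edg → Finset Edg → Finset Edg → Prop) (F : Finset Edg) : ∀ (n : ℕ) (rem O Cl : Finset Edg),
    rem.card ≤ n → ∀ e ∈ rem, e ∉ (explore P n rem O Cl).rev F →
    ¬ P e (O ∪ (F ∩ (explore P n rem O Cl).rev F))
      (Cl ∪ ((explore P n rem O Cl).rev F \ F))
  | 0, rem, O, Cl => by
    intro hc e he
    have : rem = ∅ := Finset.card_eq_zero.mp (Nat.le_zero.mp hc)
    rw [this] at he
    simp at he
  | n + 1, rem, O, Cl => by
    intro hc e he
    unfold explore
    split_ifs with h
    · set e0 := h.choose with he0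
      have hspec := h.choose_spec
      have hc' : (rem.erase e0).card ≤ n := by
        rw [Finset.card_erase_of_mem hspec.1]
        omega
      intro hrev
      simp only [DT.rev, Finset.mem_insert, not_or] at hrev
      by_cases hF : e0 ∈ F
      · rw [if_pos hF] at hrev
        have ih := explore_stop P F n (rem.erase e0) (insert e0 O) Cl hc' e
          (Finset.mem_erase.mpr ⟨hrev.1, he⟩) hrev.2
        simp only [DT.rev, if_pos hF]
        set R1 := (explore P n (rem.erase e0) (insert e0 O) Cl).rev F
        have e1 : O ∪ F ∩ insert e0 R1 = insert e0 O ∪ F ∩ R1 := by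
          ext x; simp only [Finset.mem_union, Finset.mem_inter, Finset.mem_insert]
          constructor
          · rintro (h1 | ⟨h1, h2 | h2⟩) <;> tauto
          · rintro ((h1 | h1) | ⟨h1, h2⟩)
            · subst h1; tauto
            · tauto
            · tauto
        have e2 : Cl ∪ insert e0 R1 \ F = Cl ∪ R1 \ F := by
          ext x; simp only [Finset.mem_union, Finset.mem_sdiff, Finset.mem_insert]
          constructor
          · rintro (h1 | ⟨h2 | h2, h1⟩)
            · tauto
            · subst h2; exact absurd hF h1
            · tauto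
          · tauto
        rw [e1, e2]
        exact ih
      · rw [if_neg hF] at hrev
        have ih := explore_stop P F n (rem.erase e0) O (insert e0 Cl) hc' e
          (Finset.mem_erase.mpr ⟨hrev.1, he⟩) hrev.2
        simp only [DT.rev, if_neg hF]
        set R1 := (explore P n (rem.erase e0) O (insert e0 Cl)).rev F
        have e1 : O ∪ F ∩ insert e0 R1 = O ∪ F ∩ R1 := by
          ext x; simp only [Finset.mem_union, Finset.mem_inter, Finset.mem_insert]
          constructor
          · rintro (h1 | ⟨h1, h2 | h2⟩)
            · tauto
            · subst h2; exact absurd h1 hF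
            · tauto
          · tauto
        have e2 : Cl ∪ insert e0 R1 \ F = insert e0 Cl ∪ R1 \ F := by
          ext x; simp only [Finset.mem_union, Finset.mem_sdiff, Finset.mem_insert]
          constructor
          · rintro (h1 | ⟨h2 | h2, h1⟩) <;> tauto
          · rintro ((h1 | h1) | ⟨h1, h2⟩)
            · subst h1; tauto
            · tauto
            · tauto
        rw [e1, e2]
        exact ih
    · intro _ ht
      simp only [DT.rev, Finset.inter_empty, Finset.union_empty, Finset.empty_sdiff] at ht
      exact h ⟨e, he, ht⟩

theorem explore_rev (P : Edg → Finset Edg → Finset Edg → Prop) (hP : Mon P) (F : Finset Edg) : ∀ (n : ℕ) (rem O Cl : Finset Edg) (e : Edg),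
    e ∈ (explore P n rem O Cl).rev F →
    P e (O ∪ (F ∩ rem).erase e) (Cl ∪ (rem \ F).erase e)
  | 0, rem, O, Cl, e => by simp [explore, DT.rev]
  | n + 1, rem, O, Cl, e => by
    unfold explore
    split_ifs with h
    · set e0 := h.choose with he0
      have hspec := h.choose_spec
      intro hrev
      simp only [DT.rev, Finset.mem_insert] at hrev
      rcases hrev with hrev | hrev
      · rw [hrev]
        exact hP _ _ _ _ _ Finset.subset_union_left Finset.subset_union_left hspec.2
      · by_cases hF : e0 ∈ F
        · rw [if_pos hF] at hrev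
          have hee : e ≠ e0 := by
            intro h1
            have := DT.rev_subset _ _ (explore_valid P n (rem.erase e0) (insert e0 O) Cl) F hrev
            rw [h1] at this
            simp at this
          have ih := explore_rev P hP F n _ _ _ e hrev
          refine hP _ _ _ _ _ ?_ ?_ ih
          · intro x hx
            simp only [Finset.mem_union, Finset.mem_insert, Finset.mem_erase,
              Finset.mem_inter] at hx ⊢
            rcases hx with (h1 | h1) | h1
            · right; rw [h1]; exact ⟨fun h => hee h.symm, hF, hspec.1⟩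
            · left; exact h1
            · right; exact ⟨h1.1, h1.2.1, h1.2.2.2⟩
          · intro x hx
            simp only [Finset.mem_union, Finset.mem_erase, Finset.mem_sdiff] at hx ⊢
            tauto
        · rw [if_neg hF] at hrev
          have hee : e ≠ e0 := by
            intro h1
            have := DT.rev_subset _ _ (explore_valid P n (rem.erase e0) O (insert e0 Cl)) F hrev
            rw [h1] at this
            simp at this
          have ih := explore_rev P hP F n _ _ _ e hrev
          refine hP _ _ _ _ _ ?_ ?_ ih
          · intro x hx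
            simp only [Finset.mem_union, Finset.mem_erase, Finset.mem_inter] at hx ⊢
            tauto
          · intro x hx
            simp only [Finset.mem_union, Finset.mem_insert, Finset.mem_erase,
              Finset.mem_sdiff] at hx ⊢
            rcases hx with (h1 | h1) | h1
            · right; rw [h1]; exact ⟨fun h => hee h.symm, hspec.1, hF⟩
            · left; exact h1
            · right; exact ⟨h1.1, h1.2.1.2, h1.2.2⟩
    · intro hrev
      simp [DT.rev] at hrev


theorem mon_tch (R : Rect) (δ : ℝ) : Mon (TchOC R δ) := by
  rintro e O O' Cl Cl' h h' ⟨h1, h2⟩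
  have m1 : ∀ v, v ∈ R.clu δ O → v ∈ R.clu δ O' := by
    intro v hv
    exact W.mono h hv
  have m2 : ∀ v, v ∈ dcl R δ Cl → v ∈ dcl R δ Cl' := by
    rintro v ⟨g, hg, hr⟩
    refine ⟨g, hg, hr.mono ?_⟩
    exact Set.sdiff_subset_sdiff_left (by exact_mod_cast h')
  exact ⟨h1.imp (m1 _) (m1 _), h2.imp (m2 _) (m2 _)⟩

end ExpL

open ExpL in
theorem exp_ : S_EXP := by
  intro R δ
  refine ⟨explore (TchOC R δ) (R.edges δ).card (R.edges δ) ∅ ∅, explore_valid _ _ _ _ _, ?_⟩
  intro F hF
  constructor
  · intro e he hr
    have h := explore_stop (TchOC R δ) F (R.edges δ).card (R.edges δ) ∅ ∅ le_rfl e he hr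
    simpa only [Finset.empty_union] using h
  · intro e he
    obtain ⟨h1, h2⟩ := explore_rev (TchOC R δ) (mon_tch R δ) F (R.edges δ).card (R.edges δ) ∅ ∅ e he
    have m1 : ∀ v, v ∈ R.clu δ (∅ ∪ (F ∩ R.edges δ).erase e) → v ∈ R.clu δ F := by
      intro v hv
      refine W.mono ?_ hv
      intro x hx
      simp only [Finset.mem_union, Finset.mem_erase, Finset.mem_inter] at hx
      rcases hx with hx | hx
      · simp at hx
      · exact hx.2.1
    have m2 : ∀ v, v ∈ dcl R δ (∅ ∪ (R.edges δ \ F).erase e) → v ∈ R.dclu δ F := by
      rintro v ⟨g, hg, hr⟩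
      refine ⟨g, hg, hr.mono ?_⟩
      rintro x ⟨hx, hx2⟩
      rw [Finset.mem_coe, Finset.mem_union, Finset.mem_erase, Finset.mem_sdiff] at hx
      rcases hx with hx | hx
      · simp at hx
      · refine ⟨Finset.mem_coe.mpr hx.2.1, ?_⟩
        rintro (h3 | h3)
        · exact hx.2.2 (Finset.mem_coe.mp h3)
        · exact hx2 h3
    exact ⟨h1.imp (m1 _) (m1 _), h2.imp (m2 _) (m2 _)⟩

end QI75
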