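import Mathlib

/-! Almost sure weak convergence of random measures from almost sure convergence of the integrals
of bounded Lipschitz functions. -/

namespace QI75

open MeasureTheory Filter Topology

/-- [AES] Countable base, finite unions `U` of its elements, the Lipschitz functions
`min 1 (k infDist x Uᶜ)` (`U = univ` apart); for all open `G`: `μ G ≤ liminf (ρ n ω G)`; portmanteau
(`tendsto_of_forall_isOpen_le_liminf`). -/
def S_AES : Prop := ∀ (X : Type) [MetricSpace X] [SecondCountableTopology X] [MeasurableSpace X]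
  [BorelSpace X] (Ω : Type) [MeasurableSpace Ω] (P : Measure Ω)
  (ρ : ℕ → Ω → ProbabilityMeasure X) (μ : ProbabilityMeasure X),
  (∀ Φ : X → ℝ, (∃ M : ℝ, ∀ x, |Φ x| ≤ M) → (∃ K, LipschitzWith K Φ) →
    ∀ᵐ ω ∂P, Tendsto (fun n => ∫ x, Φ x ∂(ρ n ω : Measure X)) atTop
      (𝓝 (∫ x, Φ x ∂(μ : Measure X)))) →
  ∀ᵐ ω ∂P, Tendsto (fun n => ρ n ω) atTop (𝓝 μ)

end QI75
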