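import Pool.Agent.Helper75K9.QI.Stm
import Pool.Agent.Helper75K9.QI.Stm2
import Pool.Agent.Helper38K9.NI.Law

/-! Final form: laws of the traces in a random environment. -/

set_option maxHeartbeats 1000000

namespace QI75

open H974 H973 H934E NI38 Finset MeasureTheory TopologicalSpace Filter Topology

namespace FinL

theorem int_lawp (R : Rect) {δ : ℝ} (hδ : 0 < δ) (P : Edg → unitInterval)
    (Φ : NonemptyCompacts ℂ → ℝ) :
    ∫ x, Φ x ∂(lawp R hδ P : Measure (NonemptyCompacts ℂ)) =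
      Ex (fun e => (P e : ℝ)) (R.edges δ) (fun F => Φ (R.trace hδ F)) := by
  have e1 : (lawp R hδ P : Measure (NonemptyCompacts ℂ)) = lawpM R hδ P := rfl
  rw [e1]
  unfold lawpM
  have hw : ∀ F : Finset Edg, 0 ≤ (∏ e ∈ F, (P e : ℝ)) * ∏ e ∈ R.edges δ \ F, (1 - (P e : ℝ)) := by
    intro F
    apply mul_nonneg
    · exact Finset.prod_nonneg (fun e _ => (P e).2.1)
    · exact Finset.prod_nonneg (fun e _ => by linarith [(P e).2.2])
  rw [integral_finsetSum_measure]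
  · unfold Ex
    apply Finset.sum_congr rfl
    intro F _
    rw [integral_smul_measure, integral_dirac, ENNReal.toReal_ofReal (hw F), smul_eq_mul]
  · intro F _
    apply Integrable.smul_measure _ ENNReal.ofReal_ne_top
    exact integrable_dirac (by finiteness)

/-- The fair environment. -/
noncomputable def half : unitInterval := ⟨1/2, by norm_num, by norm_num⟩

theorem law_eq (R : Rect) {δ : ℝ} (hδ : 0 < δ) :
    (R.law hδ : Measure (NonemptyCompacts ℂ)) = lawp R hδ (fun _ => half) :=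
  law_eq_lawp R hδ (fun _ => half) (fun _ => rfl)

theorem int_law (R : Rect) {δ : ℝ} (hδ : 0 < δ) (Φ : NonemptyCompacts ℂ → ℝ) :
    ∫ x, Φ x ∂(R.law hδ : Measure (NonemptyCompacts ℂ)) =
      Ex hf (R.edges δ) (fun F => Φ (R.trace hδ F)) := by
  rw [law_eq, int_lawp]
  rfl

theorem meas_Ex (S : Finset Edg) (f : Finset Edg → ℝ) :
    Measurable (fun P : Edg → unitInterval => Ex (fun e => (P e : ℝ)) S f) := by
  unfold Ex
  refine Finset.measurable_sum _ (fun F _ => ?_)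
  refine Measurable.mul (Measurable.mul ?_ ?_) measurable_const
  · exact Finset.measurable_prod _ (fun e _ => measurable_subtype_coe.comp (measurable_pi_apply e))
  · exact Finset.measurable_prod _ (fun e _ =>
      measurable_const.sub (measurable_subtype_coe.comp (measurable_pi_apply e)))

theorem meas_int (R : Rect) {δ : ℝ} (hδ : 0 < δ) (Φ : NonemptyCompacts ℂ → ℝ) :
    Measurable (fun P : Edg → unitInterval =>
      ∫ x, Φ x ∂(lawp R hδ P : Measure (NonemptyCompacts ℂ))) := by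
  simp only [int_lawp]
  exact meas_Ex _ _

/-- Chebyshev. -/
theorem cheb {Ω : Type*} [MeasurableSpace Ω] (ν : Measure Ω) {X : Ω → ℝ} (hX : Measurable X)
    {ε b : ℝ} (hε : 0 < ε) (h : ∫⁻ ω, ENNReal.ofReal ((X ω) ^ 2) ∂ν ≤ ENNReal.ofReal b) :
    ν {ω | ε ≤ |X ω|} ≤ ENNReal.ofReal (b / ε ^ 2) := by
  have hε2 : 0 < ε ^ 2 := by positivity
  have h1 : {ω | ε ≤ |X ω|} ⊆ {ω | ENNReal.ofReal (ε ^ 2) ≤ ENNReal.ofReal ((X ω) ^ 2)} := by
    intro ω hω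
    have hω' : ε ≤ |X ω| := hω
    show ENNReal.ofReal (ε ^ 2) ≤ ENNReal.ofReal ((X ω) ^ 2)
    apply ENNReal.ofReal_le_ofReal
    rw [← sq_abs (X ω)]
    exact pow_le_pow_left₀ hε.le hω' 2
  refine (measure_mono h1).trans ?_
  have h2 := meas_ge_le_lintegral_div (μ := ν) (f := fun ω => ENNReal.ofReal ((X ω) ^ 2))
    (hX.pow_const 2).ennreal_ofReal.aemeasurable (ε := ENNReal.ofReal (ε ^ 2))
    (by rw [ENNReal.ofReal_ne_zero_iff]; exact hε2) ENNReal.ofReal_ne_top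
  refine h2.trans ?_
  rw [ENNReal.ofReal_div_of_pos hε2]
  exact ENNReal.div_le_div_right h _

end FinL

open FinL

/-- The law of the environment: independent parameters with mean `1/2`. -/
structure EnvL2 (τ : ℝ) (ν : Edg → Measure unitInterval) : Prop where
  prob : ∀ e, IsProbabilityMeasure (ν e)
  mean : ∀ e, ∫ u, (u : ℝ) ∂ν e = 1 / 2
  var : ∀ e, ∫ u, (2 * (u : ℝ) - 1) ^ 2 ∂ν e ≤ 1 - τ

/-- The quantitative statement with the exponent `c`. -/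
def Quant (c : ℝ) : Prop := ∀ (R : Rect) (M K : ℝ), 0 ≤ M → 0 ≤ K →
  ∃ C δ0 : ℝ, 0 < C ∧ 0 < δ0 ∧ ∀ δ : ℝ, ∀ hδ : 0 < δ, δ < δ0 →
    ∀ Φ : NonemptyCompacts ℂ → ℝ, (∀ x, |Φ x| ≤ M) → (∀ x y, |Φ x - Φ y| ≤ K * dist x y) →
    ∀ τ : ℝ, 0 < τ → τ ≤ 1 →
      (∀ (ν : Edg → Measure unitInterval) [∀ e, IsProbabilityMeasure (ν e)],
        (∀ e, ∫ u, (u : ℝ) ∂ν e = 1 / 2) → (∀ e, ∫ u, (2 * (u : ℝ) - 1) ^ 2 ∂ν e ≤ 1 - τ) →
        ∫⁻ P, ENNReal.ofReal ((∫ x, Φ x ∂(lawp R hδ P : Measure (NonemptyCompacts ℂ)) -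
          ∫ x, Φ x ∂(R.law hδ : Measure (NonemptyCompacts ℂ))) ^ 2) ∂(Measure.infinitePi ν) ≤
          ENNReal.ofReal (C * δ ^ c / τ ^ 2)) ∧
      ∀ q : Finset Edg → Edg → unitInterval,
        (∀ T e, (q T e : ℝ) = (1 - τ) * ind (e ∈ T) + τ / 2) →
        (1 / 2) ^ (R.edges δ).card * ∑ T ∈ (R.edges δ).powerset,
          (∫ x, Φ x ∂(lawp R hδ (q T) : Measure (NonemptyCompacts ℂ)) -
            ∫ x, Φ x ∂(R.law hδ : Measure (NonemptyCompacts ℂ))) ^ 2 ≤ C * δ ^ c / τ ^ 2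

theorem quant (hmain : S_MAIN) (henv : S_ENV) (hnse : S_NSE) : ∃ c : ℝ, 0 < c ∧ Quant c := by
  obtain ⟨c, hc, h⟩ := hmain
  refine ⟨c, hc, ?_⟩
  intro R M K hM hK
  obtain ⟨C, δ0, hC, hδ0, _, h⟩ := h R M K hM hK
  refine ⟨C, δ0, hC, hδ0, ?_⟩
  intro δ hδ hlt Φ hΦ hΦK τ hτ hτ1
  have h1 := h δ hδ hlt Φ hΦ hΦK τ hτ hτ1
  constructor
  · intro ν _ hmean hvar
    simp only [int_lawp, int_law]
    exact (henv (R.edges δ) _ τ hτ.le hτ1 ν hmean hvar).trans (ENNReal.ofReal_le_ofReal h1)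
  · intro q hq
    simp only [int_lawp, int_law]
    have h2 := hnse (R.edges δ) (fun F => Φ (R.trace hδ F)) τ hτ.le hτ1
    have e1 : Ex hf (R.edges δ) (fun F => (Ex (fun e => (1 - τ) * ind (e ∈ F) + τ / 2) (R.edges δ)
        (fun F => Φ (R.trace hδ F)) - Ex hf (R.edges δ) (fun F => Φ (R.trace hδ F))) ^ 2) =
        (1 / 2) ^ (R.edges δ).card * ∑ T ∈ (R.edges δ).powerset,
          (Ex (fun e => (1 - τ) * ind (e ∈ T) + τ / 2) (R.edges δ)
            (fun F => Φ (R.trace hδ F)) - Ex hf (R.edges δ) (fun F => Φ (R.trace hδ F))) ^ 2 := by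
      exact Ex_half _
    rw [e1] at h2
    refine le_trans (le_of_eq ?_) (h2.trans h1)
    congr 1
    apply Finset.sum_congr rfl
    intro T _
    have e2 : (fun e => (q T e : ℝ)) = (fun e => (1 - τ) * ind (e ∈ T) + τ / 2) :=
      funext (hq T)
    rw [e2]

/-- Bounded Lipschitz functions. -/
def BL (Φ : NonemptyCompacts ℂ → ℝ) : Prop := (∃ M : ℝ, ∀ x, |Φ x| ≤ M) ∧ ∃ K, LipschitzWith K Φ

theorem bl_data {Φ : NonemptyCompacts ℂ → ℝ} (h : BL Φ) : ∃ M K : ℝ, 0 ≤ M ∧ 0 ≤ K ∧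
    (∀ x, |Φ x| ≤ M) ∧ ∀ x y, |Φ x - Φ y| ≤ K * dist x y := by
  obtain ⟨⟨M, hM⟩, K, hK⟩ := h
  refine ⟨max M 0, K, le_max_right _ _, NNReal.coe_nonneg K, fun x => (hM x).trans (le_max_left _ _),
    fun x y => ?_⟩
  have := hK.dist_le_mul x y
  rwa [Real.dist_eq] at this

/-- Convergence of laws, tested with bounded Lipschitz functions. -/
theorem tend_iff {ρ : ℕ → ProbabilityMeasure (NonemptyCompacts ℂ)}
    {μ : ProbabilityMeasure (NonemptyCompacts ℂ)} :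
    Tendsto ρ atTop (𝓝 μ) ↔ ∀ Φ, BL Φ → Tendsto (fun n => ∫ x, Φ x ∂(ρ n : Measure _)) atTop
      (𝓝 (∫ x, Φ x ∂(μ : Measure (NonemptyCompacts ℂ)))) := by
  rw [tendsto_iff_forall_lipschitz_integral_tendsto]
  constructor
  · rintro h Φ ⟨⟨M, hM⟩, hK⟩
    refine h Φ ⟨2 * M, fun x y => ?_⟩ hK
    rw [Real.dist_eq]
    have h1 := abs_sub (Φ x) (Φ y)
    have h2 := hM x
    have h3 := hM y
    linarith
  · rintro h Φ ⟨C, hC⟩ hK
    refine h Φ ⟨⟨|Φ (Classical.arbitrary _)| + C, fun x => ?_⟩, hK⟩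
    have h1 := hC x (Classical.arbitrary _)
    rw [Real.dist_eq] at h1
    have h2 := abs_sub_abs_le_abs_sub (Φ x) (Φ (Classical.arbitrary _))
    linarith

/-- Convergence in probability. -/
theorem inprob {c : ℝ} (hq : Quant c) (R : Rect) (δ : ℕ → ℝ) (hδ : ∀ n, 0 < δ n)
    (hδ0 : Tendsto δ atTop (𝓝 0)) (τ : ℕ → ℝ) (hτ : ∀ n, 0 < τ n ∧ τ n ≤ 1)
    (hτ0 : Tendsto (fun n => δ n ^ c / τ n ^ 2) atTop (𝓝 0)) (ν : ℕ → Edg → Measure unitInterval)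
    [∀ n e, IsProbabilityMeasure (ν n e)] (hmean : ∀ n e, ∫ u, (u : ℝ) ∂ν n e = 1 / 2)
    (hvar : ∀ n e, ∫ u, (2 * (u : ℝ) - 1) ^ 2 ∂ν n e ≤ 1 - τ n) {Φ : NonemptyCompacts ℂ → ℝ}
    (hΦ : BL Φ) {ε : ℝ} (hε : 0 < ε) :
    Tendsto (fun n => Measure.infinitePi (ν n)
      {P | ε ≤ |∫ x, Φ x ∂(lawp R (hδ n) P : Measure (NonemptyCompacts ℂ)) -
          ∫ x, Φ x ∂(R.law (hδ n) : Measure (NonemptyCompacts ℂ))|}) atTop (𝓝 0) := by
  obtain ⟨M, K, hM, hK, h1, h2⟩ := bl_data hΦ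
  obtain ⟨C, δ0, hC, hδ0', h⟩ := hq R M K hM hK
  have hlim : Tendsto (fun n => ENNReal.ofReal (C * δ n ^ c / τ n ^ 2 / ε ^ 2)) atTop (𝓝 0) := by
    have h3 : Tendsto (fun n => C * δ n ^ c / τ n ^ 2 / ε ^ 2) atTop (𝓝 0) := by
      have h4 := (hτ0.const_mul (C / ε ^ 2))
      rw [mul_zero] at h4
      refine h4.congr (fun n => ?_)
      ring
    have h5 := ENNReal.tendsto_ofReal h3
    rwa [ENNReal.ofReal_zero] at h5
  refine tendsto_of_tendsto_of_tendsto_of_le_of_le' tendsto_const_nhds hlim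
    (Eventually.of_forall fun _ => zero_le) ?_
  filter_upwards [hδ0.eventually_lt_const hδ0'] with n hn
  have h6 := (h (δ n) (hδ n) hn Φ h1 h2 (τ n) (hτ n).1 (hτ n).2).1 (ν n) (hmean n) (hvar n)
  exact cheb _ ((meas_int R (hδ n) Φ).sub measurable_const) hε h6

theorem conv_iff {c : ℝ} (hq : Quant c) (R : Rect) (δ : ℕ → ℝ) (hδ : ∀ n, 0 < δ n)
    (hδ0 : Tendsto δ atTop (𝓝 0)) (τ : ℕ → ℝ) (hτ : ∀ n, 0 < τ n ∧ τ n ≤ 1)
    (hτ0 : Tendsto (fun n => δ n ^ c / τ n ^ 2) atTop (𝓝 0)) (ν : ℕ → Edg → Measure unitInterval)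
    [∀ n e, IsProbabilityMeasure (ν n e)] (hmean : ∀ n e, ∫ u, (u : ℝ) ∂ν n e = 1 / 2)
    (hvar : ∀ n e, ∫ u, (2 * (u : ℝ) - 1) ^ 2 ∂ν n e ≤ 1 - τ n)
    (μ : ProbabilityMeasure (NonemptyCompacts ℂ)) :
    Tendsto (fun n => R.law (hδ n)) atTop (𝓝 μ) ↔ ∀ Φ, BL Φ → ∀ ε : ℝ, 0 < ε →
      Tendsto (fun n => Measure.infinitePi (ν n)
        {P | ε ≤ |∫ x, Φ x ∂(lawp R (hδ n) P : Measure (NonemptyCompacts ℂ)) -
          ∫ x, Φ x ∂(μ : Measure (NonemptyCompacts ℂ))|}) atTop (𝓝 0) := by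
  constructor
  · intro h Φ hΦ ε hε
    have h1 := tend_iff.mp h Φ hΦ
    have h2 := inprob hq R δ hδ hδ0 τ hτ hτ0 ν hmean hvar hΦ (half_pos hε)
    refine tendsto_of_tendsto_of_tendsto_of_le_of_le' tendsto_const_nhds h2
      (Eventually.of_forall fun _ => zero_le) ?_
    rw [Metric.tendsto_nhds] at h1
    filter_upwards [h1 (ε / 2) (half_pos hε)] with n hn
    apply measure_mono
    intro P hP
    have hP' : ε ≤ |∫ x, Φ x ∂(lawp R (hδ n) P : Measure (NonemptyCompacts ℂ)) -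
          ∫ x, Φ x ∂(μ : Measure (NonemptyCompacts ℂ))| := hP
    show ε / 2 ≤ |_|
    rw [Real.dist_eq] at hn
    have h3 := abs_sub_le (∫ x, Φ x ∂(lawp R (hδ n) P : Measure (NonemptyCompacts ℂ)))
      (∫ x, Φ x ∂(R.law (hδ n) : Measure (NonemptyCompacts ℂ)))
      (∫ x, Φ x ∂(μ : Measure (NonemptyCompacts ℂ)))
    linarith
  · intro h
    rw [tend_iff]
    intro Φ hΦ
    rw [Metric.tendsto_nhds]
    intro ε hε
    have h1 := h Φ hΦ (ε / 2) (half_pos hε)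
    have h2 := inprob hq R δ hδ hδ0 τ hτ hτ0 ν hmean hvar hΦ (half_pos hε)
    have h12 := h1.add h2
    rw [add_zero] at h12
    filter_upwards [h12.eventually_lt_const (show (0 : ENNReal) < 1 from zero_lt_one)] with n hn
    rw [Real.dist_eq]
    by_contra hcon
    push Not at hcon
    have huniv : (Set.univ : Set (Edg → unitInterval)) ⊆
        {P | ε / 2 ≤ |∫ x, Φ x ∂(lawp R (hδ n) P : Measure (NonemptyCompacts ℂ)) -
          ∫ x, Φ x ∂(μ : Measure (NonemptyCompacts ℂ))|} ∪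
        {P | ε / 2 ≤ |∫ x, Φ x ∂(lawp R (hδ n) P : Measure (NonemptyCompacts ℂ)) -
          ∫ x, Φ x ∂(R.law (hδ n) : Measure (NonemptyCompacts ℂ))|} := by
      intro P _
      by_contra hP
      rw [Set.mem_union, not_or] at hP
      have a1 : |∫ x, Φ x ∂(lawp R (hδ n) P : Measure (NonemptyCompacts ℂ)) -
          ∫ x, Φ x ∂(μ : Measure (NonemptyCompacts ℂ))| < ε / 2 := not_le.mp hP.1
      have a2 : |∫ x, Φ x ∂(lawp R (hδ n) P : Measure (NonemptyCompacts ℂ)) -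
          ∫ x, Φ x ∂(R.law (hδ n) : Measure (NonemptyCompacts ℂ))| < ε / 2 := not_le.mp hP.2
      have h3 := abs_sub_le (∫ x, Φ x ∂(R.law (hδ n) : Measure (NonemptyCompacts ℂ)))
        (∫ x, Φ x ∂(lawp R (hδ n) P : Measure (NonemptyCompacts ℂ)))
        (∫ x, Φ x ∂(μ : Measure (NonemptyCompacts ℂ)))
      rw [abs_sub_comm (∫ x, Φ x ∂(R.law (hδ n) : Measure (NonemptyCompacts ℂ)))
        (∫ x, Φ x ∂(lawp R (hδ n) P : Measure (NonemptyCompacts ℂ)))] at h3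
      linarith
    have h4 := (measure_mono (μ := Measure.infinitePi (ν n)) huniv).trans (measure_union_le _ _)
    rw [measure_univ] at h4
    exact absurd hn (not_lt.mpr h4)

/-- Almost every environment. -/
theorem ae_diff {c : ℝ} (hq : Quant c) (R : Rect) (δ : ℕ → ℝ) (hδ : ∀ n, 0 < δ n)
    (hδ0 : Tendsto δ atTop (𝓝 0)) (hsum : Summable (fun n => δ n ^ c)) (τ : ℝ) (hτ : 0 < τ)
    (hτ1 : τ ≤ 1) (ν : Edg → Measure unitInterval)
    [∀ e, IsProbabilityMeasure (ν e)] (hmean : ∀ e, ∫ u, (u : ℝ) ∂ν e = 1 / 2)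
    (hvar : ∀ e, ∫ u, (2 * (u : ℝ) - 1) ^ 2 ∂ν e ≤ 1 - τ) {Φ : NonemptyCompacts ℂ → ℝ}
    (hΦ : BL Φ) :
    ∀ᵐ P ∂(Measure.infinitePi ν), Tendsto (fun n =>
      ∫ x, Φ x ∂(lawp R (hδ n) P : Measure (NonemptyCompacts ℂ)) -
          ∫ x, Φ x ∂(R.law (hδ n) : Measure (NonemptyCompacts ℂ))) atTop (𝓝 0) := by
  obtain ⟨M, K, hM, hK, h1, h2⟩ := bl_data hΦ
  obtain ⟨C, δ0, hC, hδ0', h⟩ := hq R M K hM hK
  obtain ⟨N, hN⟩ := eventually_atTop.mp (hδ0.eventually_lt_const hδ0')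
  let X : ℕ → (Edg → unitInterval) → ℝ := fun n P =>
    ∫ x, Φ x ∂(lawp R (hδ n) P : Measure (NonemptyCompacts ℂ)) -
          ∫ x, Φ x ∂(R.law (hδ n) : Measure (NonemptyCompacts ℂ))
  have hXm : ∀ n, Measurable (X n) := fun n => (meas_int R (hδ n) Φ).sub measurable_const
  have hb : ∀ n, ∫⁻ P, ENNReal.ofReal ((X (n + N) P) ^ 2) ∂(Measure.infinitePi ν) ≤
      ENNReal.ofReal (C / τ ^ 2 * δ (n + N) ^ c) := by
    intro n
    have h6 := (h (δ (n + N)) (hδ (n + N)) (hN _ (Nat.le_add_left _ _)) Φ h1 h2 τ hτ hτ1).1 ν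
      hmean hvar
    refine h6.trans (le_of_eq ?_)
    congr 1
    ring
  have hs : Summable (fun n => C / τ ^ 2 * δ (n + N) ^ c) :=
    ((summable_nat_add_iff N).mpr hsum).mul_left _
  have hfin : ∫⁻ P, ∑' n, ENNReal.ofReal ((X (n + N) P) ^ 2) ∂(Measure.infinitePi ν) ≠ ⊤ := by
    rw [lintegral_tsum (fun n => ((hXm (n + N)).pow_const 2).ennreal_ofReal.aemeasurable)]
    refine ne_top_of_le_ne_top ?_ (ENNReal.tsum_le_tsum hb)
    exact hs.tsum_ofReal_ne_top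
  have hae := ae_lt_top (Measurable.ennreal_tsum
    (fun n => ((hXm (n + N)).pow_const 2).ennreal_ofReal)) hfin
  filter_upwards [hae] with P hP
  have h3 := ENNReal.tendsto_atTop_zero_of_tsum_ne_top hP.ne
  have h4 : Tendsto (fun n => (X (n + N) P) ^ 2) atTop (𝓝 0) := by
    have h5 := (ENNReal.tendsto_toReal (a := 0) (by simp)).comp h3
    simp only [ENNReal.toReal_zero] at h5
    refine h5.congr (fun n => ?_)
    exact ENNReal.toReal_ofReal (sq_nonneg _)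
  have h5 : Tendsto (fun n => X (n + N) P) atTop (𝓝 0) := by
    have h6 := (Real.continuous_sqrt.tendsto 0).comp h4
    rw [Real.sqrt_zero] at h6
    rw [tendsto_zero_iff_abs_tendsto_zero]
    refine h6.congr (fun n => ?_)
    exact Real.sqrt_sq_eq_abs _
  exact (tendsto_add_atTop_iff_nat N).mp h5

theorem ae_iff_conv (haes : S_AES) {c : ℝ} (hq : Quant c) (R : Rect) (δ : ℕ → ℝ)
    (hδ : ∀ n, 0 < δ n) (hδ0 : Tendsto δ atTop (𝓝 0)) (hsum : Summable (fun n => δ n ^ c))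
    (τ : ℝ) (hτ : 0 < τ) (hτ1 : τ ≤ 1) (ν : Edg → Measure unitInterval)
    [∀ e, IsProbabilityMeasure (ν e)] (hmean : ∀ e, ∫ u, (u : ℝ) ∂ν e = 1 / 2)
    (hvar : ∀ e, ∫ u, (2 * (u : ℝ) - 1) ^ 2 ∂ν e ≤ 1 - τ)
    (μ : ProbabilityMeasure (NonemptyCompacts ℂ)) :
    Tendsto (fun n => R.law (hδ n)) atTop (𝓝 μ) ↔
      ∀ᵐ P ∂(Measure.infinitePi ν), Tendsto (fun n => lawp R (hδ n) P) atTop (𝓝 μ) := by
  constructor
  · intro h
    apply haes (NonemptyCompacts ℂ) (Edg → unitInterval) (Measure.infinitePi ν)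
      (fun n P => lawp R (hδ n) P) μ
    intro Φ hM hK
    have h1 := tend_iff.mp h Φ ⟨hM, hK⟩
    filter_upwards [ae_diff hq R δ hδ hδ0 hsum τ hτ hτ1 ν hmean hvar (Φ := Φ) ⟨hM, hK⟩] with P hP
    have h2 := hP.add h1
    simpa using h2
  · intro h
    rw [tend_iff]
    intro Φ hΦ
    have h1 := ae_diff hq R δ hδ hδ0 hsum τ hτ hτ1 ν hmean hvar hΦ
    obtain ⟨P, h2, h3⟩ := (h.and h1).exists
    have h4 := (tend_iff.mp h2 Φ hΦ).sub h3
    simpa using h4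

end QI75
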