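import Pool.Agent.Helper75K9.QI.Stm
import Pool.Agent.Helper38K9.NI.Pot
import Pool.Agent.Helper38K9.NI.Sml

/-!
[GEO]: an edge away from `a` and `b` is far from one of the two arcs.
-/

set_option maxHeartbeats 1000000

namespace QI75

open H974 H973 H934E NI38 Finset

namespace GeoL

/-- The vertices of the wired arc. -/
theorem wv_cases {R : Rect} {δ : ℝ} (hs : Sm R δ) {w : Vtx} (hw : w ∈ wv R δ) :
    (w.2 = 0 ∧ w.1 ≤ 0) ∨ (w.1 = R.x0 δ) ∨ (w.2 = R.y1 δ ∧ w.1 ≤ R.tc δ) := by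
  obtain ⟨h1, h2, h3, h4, h5⟩ := hs
  rcases hw with rfl | ⟨⟨x, y, b⟩, he, hve⟩
  · exact Or.inl ⟨rfl, le_rfl⟩
  · rcases he with ⟨a1, a2, a3, a4⟩ | ⟨a1, a2, a3, a4⟩ | ⟨a1, a2, a3, a4⟩
    · simp only at a1 a2 a3 a4
      subst a1
      right; right
      rcases hve with rfl | rfl
      · rw [src_mk]; exact ⟨a2, by simp only; omega⟩
      · rw [tgt_true]; exact ⟨a2, by simp only; omega⟩
    · simp only at a1 a2 a3 a4
      subst a1
      right; left
      rcases hve with rfl | rfl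
      · rw [src_mk]; exact a2
      · rw [tgt_false]; exact a2
    · simp only at a1 a2 a3 a4
      subst a1
      left
      rcases hve with rfl | rfl
      · rw [src_mk]; exact ⟨a2, by simp only; omega⟩
      · rw [tgt_true]; exact ⟨a2, by simp only; omega⟩

theorem outer_cases {R : Rect} {δ : ℝ} {g : Vtx} (hg : g ∈ R.outer δ) :
    (g.2 = -1 ∧ 0 ≤ g.1) ∨ (g.1 = R.x1 δ) ∨ (g.2 = R.y1 δ ∧ R.tc δ ≤ g.1) := by
  rcases hg with ⟨a1, a2, a3⟩ | ⟨a1, a2, a3⟩ | ⟨a1, a2, a3⟩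
  · exact Or.inl ⟨a1, a2⟩
  · exact Or.inr (Or.inl a1)
  · exact Or.inr (Or.inr ⟨a1, a2⟩)

end GeoL

open GeoL

theorem geo : S_GEO := by
  intro R
  obtain ⟨δ1, hδ1, hδ11, hsm⟩ := sml R
  have hA := R.hA
  have hB := R.hB
  have hH := R.hH
  have ht1 := R.ht1
  have ht2 := R.ht2
  obtain ⟨m, hm⟩ : ∃ m, m = min (R.A / 2) (min (R.B / 2) (min ((R.t + R.A) / 2)
    (min ((R.B - R.t) / 2) (R.H / 2)))) := ⟨_, rfl⟩
  have m2 : m ≤ R.A / 2 := by rw [hm]; exact min_le_left _ _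
  have m3 : m ≤ R.B / 2 := by rw [hm]; exact (min_le_right _ _).trans (min_le_left _ _)
  have m4 : m ≤ (R.t + R.A) / 2 := by
    rw [hm]; exact (min_le_right _ _).trans ((min_le_right _ _).trans (min_le_left _ _))
  have m5 : m ≤ (R.B - R.t) / 2 := by
    rw [hm]; exact (min_le_right _ _).trans ((min_le_right _ _).trans ((min_le_right _ _).trans
      (min_le_left _ _)))
  have m6 : m ≤ R.H / 2 := by
    rw [hm]; exact (min_le_right _ _).trans ((min_le_right _ _).trans ((min_le_right _ _).trans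
      (min_le_right _ _)))
  have m0 : 0 < m := by
    rw [hm]
    refine lt_min (by linarith) (lt_min (by linarith) (lt_min (by linarith)
      (lt_min (by linarith) (by linarith))))
  refine ⟨m, min δ1 (m / 8), m0, lt_min hδ1 (by positivity), (min_le_left _ _).trans hδ11, ?_⟩
  intro δ hδ hlt
  have l1 : δ < δ1 := lt_of_lt_of_le hlt (min_le_left _ _)
  have l2 : δ < m / 8 := lt_of_lt_of_le hlt (min_le_right _ _)
  obtain ⟨hs, p1, p2, p3, p4⟩ := hsm δ hδ l1
  refine ⟨hs, ?_⟩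
  intro r ρ hρ hr hδr e he hnL
  have conv : ∀ u v : ℤ, δ * (u:ℝ) < δ * v → u < v := by
    intro u v h
    have := lt_of_mul_lt_mul_left h hδ.le
    exact_mod_cast this
  have hρr : δ * (2 * (ρ:ℝ)) ≤ m / 4 := by
    have h1 : (8:ℝ) * ρ + 8 ≤ r := by exact_mod_cast hr
    have h2 : δ * ((8:ℝ) * ρ) ≤ δ * r := mul_le_mul_of_nonneg_left (by linarith) hδ.le
    linarith
  have k1 : 2 * ρ < -R.x0 δ := by
    apply conv; push_cast; linarith [p1.2]
  have k2 : 2 * ρ < R.x1 δ := by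
    apply conv; push_cast; linarith [p2.1]
  have k3 : 2 * ρ < R.y1 δ := by
    apply conv; push_cast; linarith [p3.1]
  have k4 : 2 * ρ < R.tc δ - R.x0 δ := by
    apply conv; push_cast; linarith [p1.2, p4.1]
  have k5 : 2 * ρ < R.x1 δ - R.tc δ := by
    apply conv; push_cast; linarith [p2.1, p4.2]
  by_contra hcon
  rw [not_or] at hcon
  obtain ⟨c1, c2⟩ := hcon
  push Not at c1 c2
  obtain ⟨w, hw, hwf⟩ := c1
  obtain ⟨g, hg, hgf⟩ := c2
  unfold FarE at hwf hgf
  rw [not_or, not_le, not_le, abs_lt, abs_lt] at hwf hgf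
  obtain ⟨⟨w1, w2⟩, w3, w4⟩ := hwf
  obtain ⟨⟨g1, g2⟩, g3, g4⟩ := hgf
  apply hnL
  unfold LL
  rw [Finset.mem_filter]
  refine ⟨he, ?_⟩
  obtain ⟨x, y, b⟩ := e
  have hm' := PotL.mem_edges.mp he
  simp only at w1 w2 w3 w4 g1 g2 g3 g4
  obtain ⟨s1, s2, s3, s4, s5⟩ := hs
  rcases wv_cases ⟨s1, s2, s3, s4, s5⟩ hw with h | h | h <;> rcases outer_cases hg with h' | h' | h'
  · left
    cases b
    · simp only [Bool.false_eq_true, if_false] at hm'
      rw [mem_RE_false]; omega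
    · simp only [if_true] at hm'
      rw [mem_RE_true]; omega
  · omega
  · omega
  · omega
  · omega
  · omega
  · omega
  · omega
  · right
    cases b
    · simp only [Bool.false_eq_true, if_false] at hm'
      rw [mem_RE_false]; omega
    · simp only [if_true] at hm'
      rw [mem_RE_true]; omega

end QI75
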