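import Pool.Agent.Helper75K9.QI.Stm
import Pool.Agent.Helper38K9.NI.Pot

/-!
[LOC]: without arms the clusters away from `a` and `b` do not depend on the edges near `a` and `b`.
-/

set_option maxHeartbeats 1000000

namespace QI75

open H974 H973 H934E NI38 Finset

namespace LocL

variable {R : Rect} {δ : ℝ}

/-- The wired arc is connected (copy of `StaL.wired_reach`). -/
theorem wired_reach (hs : Sm R δ) {e : Edg} (he : e ∈ R.wired δ) :
    Reach (R.wired δ) (0, 0) (src e) := by
  obtain ⟨h1, h2, h3, h4, h5⟩ := hs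
  have bot : ∀ n : ℕ, (n:ℤ) ≤ -R.x0 δ → Reach (R.wired δ) (0, 0) (-(n:ℤ), 0) := by
    intro n
    induction n with
    | zero => intro _; simpa using Reach.refl _ _
    | succ n ih =>
      intro hn
      push_cast at hn
      refine (ih (by omega)).trans (Adj.reach ⟨(-(n:ℤ) - 1, 0, true), ?_, Or.inr ⟨?_, ?_⟩⟩)
      · right; right
        refine ⟨rfl, rfl, ?_, ?_⟩ <;> simp only <;> omega
      · rw [src_mk]; push_cast; congr 1; ring
      · rw [tgt_true]; congr 1; ring
  have left : ∀ n : ℕ, (n:ℤ) ≤ R.y1 δ → Reach (R.wired δ) (0, 0) (R.x0 δ, (n:ℤ)) := by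
    intro n
    induction n with
    | zero =>
      intro _
      have := bot (-R.x0 δ).toNat (by omega)
      have e : ((-R.x0 δ).toNat : ℤ) = -R.x0 δ := Int.toNat_of_nonneg (by omega)
      rw [e] at this
      simpa using this
    | succ n ih =>
      intro hn
      push_cast at hn
      refine (ih (by omega)).trans (Adj.reach ⟨(R.x0 δ, (n:ℤ), false), ?_, Or.inl ⟨rfl, ?_⟩⟩)
      · right; left
        refine ⟨rfl, rfl, ?_, ?_⟩ <;> simp only <;> omega
      · rw [tgt_false]; push_cast; rfl
  have top : ∀ n : ℕ, R.x0 δ + (n:ℤ) ≤ R.tc δ →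
      Reach (R.wired δ) (0, 0) (R.x0 δ + (n:ℤ), R.y1 δ) := by
    intro n
    induction n with
    | zero =>
      intro _
      have := left (R.y1 δ).toNat (by omega)
      have e : ((R.y1 δ).toNat : ℤ) = R.y1 δ := Int.toNat_of_nonneg (by omega)
      rw [e] at this
      simpa using this
    | succ n ih =>
      intro hn
      push_cast at hn
      refine (ih (by omega)).trans (Adj.reach ⟨(R.x0 δ + (n:ℤ), R.y1 δ, true), ?_,
        Or.inl ⟨rfl, ?_⟩⟩)
      · left
        refine ⟨rfl, rfl, ?_, ?_⟩ <;> simp only <;> omega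
      · rw [tgt_true]; push_cast; congr 1; ring
  obtain ⟨x, y, b⟩ := e
  rcases he with ⟨a1, a2, a3, a4⟩ | ⟨a1, a2, a3, a4⟩ | ⟨a1, a2, a3, a4⟩
  · simp only at a1 a2 a3 a4
    have := top (x - R.x0 δ).toNat (by omega)
    have e : ((x - R.x0 δ).toNat : ℤ) = x - R.x0 δ := Int.toNat_of_nonneg (by omega)
    rw [e] at this
    rw [src_mk, a2]
    simpa using this
  · simp only at a1 a2 a3 a4
    have := left y.toNat (by omega)
    have e : (y.toNat : ℤ) = y := Int.toNat_of_nonneg (by omega)
    rw [e] at this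
    rw [src_mk, a2]
    exact this
  · simp only at a1 a2 a3 a4
    have := bot (-x).toNat (by omega)
    have e : ((-x).toNat : ℤ) = -x := Int.toNat_of_nonneg (by omega)
    rw [e] at this
    rw [src_mk, a2]
    simpa using this

theorem wired_clu (hs : Sm R δ) {e : Edg} (he : e ∈ R.wired δ) (Y : Finset Edg) :
    src e ∈ R.clu δ Y ∧ tgt e ∈ R.clu δ Y := by
  have h1 : Reach (↑Y ∪ R.wired δ) (0, 0) (src e) :=
    (wired_reach hs he).mono Set.subset_union_right
  exact ⟨h1, h1.trans (Adj.reach ⟨e, Or.inr he, Or.inl ⟨rfl, rfl⟩⟩)⟩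

/-- Ends of the edges of a rectangle. -/
theorem RE_ends {a b c d : ℤ} {e : Edg} (he : e ∈ RE a b c d) :
    inR a b c d (src e) ∧ inR a b c d (tgt e) := by
  obtain ⟨x, y, s⟩ := e
  unfold inR
  cases s
  · rw [mem_RE_false] at he; rw [src_mk, tgt_false]; simp only; omega
  · rw [mem_RE_true] at he; rw [src_mk, tgt_true]; simp only; omega

/-- Dual ends of the edges of a rectangle. -/
theorem RE_dends {a b c d : ℤ} {e : Edg} (he : e ∈ RE a b c d) :
    inR (a - 1) b (c - 1) d (dsrc e) ∧ inR (a - 1) b (c - 1) d (dtgt e) := by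
  obtain ⟨x, y, s⟩ := e
  unfold inR
  cases s
  · rw [mem_RE_false] at he; rw [dsrc_false, dtgt_mk]; simp only; omega
  · rw [mem_RE_true] at he; rw [dsrc_true, dtgt_mk]; simp only; omega

theorem mem_LL {r : ℤ} {e : Edg} : e ∈ LL R δ r ↔ e ∈ R.edges δ ∧ (e ∈ RE (-r) r 0 r ∨
    e ∈ RE (R.tc δ - r) (R.tc δ + r) (R.y1 δ - r) (R.y1 δ)) := by
  unfold LL
  rw [Finset.mem_filter]

/-- Edges of the domain. -/
theorem edge_y {e : Edg} (he : e ∈ R.edges δ) :
    0 ≤ e.2.1 ∧ e.2.1 ≤ R.y1 δ ∧ (e.2.2 = false → e.2.1 + 1 ≤ R.y1 δ) := by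
  obtain ⟨x, y, b⟩ := e
  have := PotL.mem_edges.mp he
  cases b
  · simp only [Bool.false_eq_true, if_false] at this
    exact ⟨this.1.2.1, this.1.2.2, fun _ => this.2⟩
  · simp only [if_true] at this
    exact ⟨this.1.2.1, this.1.2.2, fun h => by simp at h⟩

/-- An open path from the box around `b` or `a` to the outside gives an arm. -/
theorem arm_of {r r' : ℤ} (hr : 1 ≤ r) (hrr : r + 2 ≤ r') {F : Finset Edg}
    (hF : F ⊆ R.edges δ) {w v : Vtx} (hw : inR (-r) r 0 r w ∨
      inR (R.tc δ - r) (R.tc δ + r) (R.y1 δ - r) (R.y1 δ) w) (h : Reach ↑F w v)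
    (hv : Out R δ (r' + 2) v) : BAr 0 (r + 2) r' F ∨
      BAr (R.tc δ) (r + 2) r' ((rfy (R.y1 δ)).mp F) := by
  obtain ⟨o1, o2⟩ := hv
  rcases hw with hw | hw
  · left
    unfold inR at hw
    obtain ⟨w', h1, _, h3⟩ := exitG (G := ↑F) (k := 0) (R := r') (by omega)
      (fun e he _ => (edge_y (hF (Finset.mem_coe.mp he))).1) (u := w) (v := v)
      (by unfold inR; omega) h (by
        rcases o1 with o1 | o1
        · rcases le_abs.mp o1 with o | o <;> omega
        · omega)
    exact ⟨w, w', by unfold inR; omega, h1, h3⟩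
  · right
    unfold inR at hw
    have hre := (rfy (R.y1 δ)).reach h
    rw [← LSym.coe_mp] at hre
    obtain ⟨w1, w2⟩ := w
    obtain ⟨v1, v2⟩ := v
    rw [rfy_ψ, rfy_ψ] at hre
    simp only at hw o2
    obtain ⟨w', h1, _, h3⟩ := exitG (G := ↑((rfy (R.y1 δ)).mp F)) (k := R.tc δ) (R := r')
      (by omega) (by
        rintro ⟨x, y, b⟩ he _
        have he' := (rfy (R.y1 δ)).mem_mp.mp (Finset.mem_coe.mp he)
        cases b
        · rw [rfy_φsf] at he'
          have := (edge_y (hF he')).2.2 rfl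
          simp only at this ⊢
          omega
        · rw [rfy_φst] at he'
          have := (edge_y (hF he')).2.1
          simp only at this ⊢
          omega)
      (by unfold inR; simp only; omega) hre (by
        simp only
        rcases o2 with o2 | o2
        · rcases le_abs.mp o2 with o | o <;> omega
        · omega)
    exact ⟨_, w', by unfold inR; simp only; omega, h1, h3⟩

/-- A dual closed path from the box around `b` or `a` to the outside gives a dual arm. -/
theorem darm_of {r r' : ℤ} (hr : 1 ≤ r) (hrr : r + 2 ≤ r') {F : Finset Edg}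
    {w v : Vtx} (hw : inR (-r - 1) r (-1) r w ∨
      inR (R.tc δ - r - 1) (R.tc δ + r) (R.y1 δ - r - 1) (R.y1 δ) w)
    (h : DReach ↑(R.edges δ \ F) w v)
    (hv : Out R δ (r' + 2) v) : BAr 0 (r + 2) r' ((trl 0 1).mp (dmp (R.edges δ \ F))) ∨
      BAr (R.tc δ) (r + 2) r' ((rfy (R.y1 δ)).mp (dmp (R.edges δ \ F))) := by
  obtain ⟨o1, o2⟩ := hv
  rw [← reach_dl, ← coe_dmp] at h
  have hE : ∀ e, e ∈ dmp (R.edges δ \ F) → dl.symm e ∈ R.edges δ := by
    intro e he
    exact (Finset.mem_sdiff.mp (mem_dmp.mp he)).1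
  obtain ⟨w1, w2⟩ := w
  obtain ⟨v1, v2⟩ := v
  rcases hw with hw | hw
  · left
    unfold inR at hw
    simp only at hw o1
    have hre := (trl 0 1).reach h
    rw [← LSym.coe_mp, trl_ψ, trl_ψ] at hre
    obtain ⟨w', h1, _, h3⟩ := exitG (G := ↑((trl 0 1).mp (dmp (R.edges δ \ F)))) (k := 0)
      (R := r') (by omega) (by
        rintro ⟨x, y, b⟩ he _
        have he' := (trl 0 1).mem_mp.mp (Finset.mem_coe.mp he)
        rw [trl_φs] at he'
        have h4 := hE _ he'
        cases b
        · rw [dls_f] at h4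
          have := (edge_y h4).1
          simp only at this ⊢
          omega
        · rw [dls_t] at h4
          have := (edge_y h4).1
          simp only at this ⊢
          omega)
      (by unfold inR; simp only; omega) hre (by
        simp only
        rcases o1 with o1 | o1
        · rcases le_abs.mp o1 with o | o <;> omega
        · omega)
    exact ⟨_, w', by unfold inR; simp only; omega, h1, h3⟩
  · right
    unfold inR at hw
    simp only at hw o2
    have hre := (rfy (R.y1 δ)).reach h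
    rw [← LSym.coe_mp, rfy_ψ, rfy_ψ] at hre
    obtain ⟨w', h1, _, h3⟩ := exitG (G := ↑((rfy (R.y1 δ)).mp (dmp (R.edges δ \ F))))
      (k := R.tc δ) (R := r') (by omega) (by
        rintro ⟨x, y, b⟩ he _
        have he' := (rfy (R.y1 δ)).mem_mp.mp (Finset.mem_coe.mp he)
        cases b
        · rw [rfy_φsf] at he'
          have h4 := hE _ he'
          rw [dls_f] at h4
          have := (edge_y h4).2.1
          simp only at this ⊢
          omega
        · rw [rfy_φst] at he'
          have h4 := hE _ he'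
          rw [dls_t] at h4
          have := (edge_y h4).2.2 rfl
          simp only at this ⊢
          omega)
      (by unfold inR; simp only; omega) hre (by
        simp only
        rcases o2 with o2 | o2
        · rcases le_abs.mp o2 with o | o <;> omega
        · omega)
    exact ⟨_, w', by unfold inR; simp only; omega, h1, h3⟩

/-- One inclusion, vertices. -/
theorem clu_sub (hs : Sm R δ) {r r' : ℤ} (hr : 1 ≤ r) (hrr : r + 2 ≤ r') {F X Y : Finset Edg}
    (hF : F ⊆ R.edges δ) (hXY : X \ LL R δ r = Y \ LL R δ r) (hXF : X \ LL R δ r ⊆ F)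
    (hno : ¬ Arm4 R δ (r + 2) r' F) (hX : X ⊆ R.edges δ) {v : Vtx} (hv : Out R δ (r' + 2) v)
    (h : v ∈ R.clu δ X) : v ∈ R.clu δ Y := by
  have key : ∀ z, Reach (↑X ∪ R.wired δ) (0, 0) z → (z ∈ R.clu δ Y) ∨
      ∃ w, (inR (-r) r 0 r w ∨ inR (R.tc δ - r) (R.tc δ + r) (R.y1 δ - r) (R.y1 δ) w) ∧
        Reach ↑(X \ LL R δ r) w z := by
    intro z hz
    induction hz with
    | refl => exact Or.inl (Reach.refl _ _)
    | @tail z z' _ hs' ih =>
      obtain ⟨e, he, hc⟩ := hs'
      by_cases hw : e ∈ R.wired δ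
      · left
        obtain ⟨c1, c2⟩ := wired_clu hs hw Y
        rcases hc with ⟨_, h2⟩ | ⟨h1, _⟩
        · rw [← h2]; exact c2
        · rw [← h1]; exact c1
      · have heX : e ∈ X := by
          rcases he with he | he
          · exact Finset.mem_coe.mp he
          · exact absurd he hw
        by_cases hL : e ∈ LL R δ r
        · right
          refine ⟨z', ?_, Reach.refl _ _⟩
          rcases (mem_LL.mp hL).2 with hh | hh
          · left
            rcases hc with ⟨_, h2⟩ | ⟨h1, _⟩
            · rw [← h2]; exact (RE_ends hh).2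
            · rw [← h1]; exact (RE_ends hh).1
          · right
            rcases hc with ⟨_, h2⟩ | ⟨h1, _⟩
            · rw [← h2]; exact (RE_ends hh).2
            · rw [← h1]; exact (RE_ends hh).1
        · have heZ : e ∈ X \ LL R δ r := Finset.mem_sdiff.mpr ⟨heX, hL⟩
          rcases ih with ih | ⟨w, hw1, hw2⟩
          · left
            have heY : e ∈ Y := by
              rw [hXY] at heZ
              exact (Finset.mem_sdiff.mp heZ).1
            exact Reach.trans ih (Adj.reach ⟨e, Or.inl (Finset.mem_coe.mpr heY), hc⟩)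
          · right
            exact ⟨w, hw1, hw2.trans (Adj.reach ⟨e, Finset.mem_coe.mpr heZ, hc⟩)⟩
  rcases key v h with h | ⟨w, hw, hr2⟩
  · exact h
  · exfalso
    apply hno
    exact Or.inl (arm_of hr hrr hF hw (hr2.mono (by exact_mod_cast hXF)) hv)

/-- One inclusion, faces. -/
theorem dclu_sub {r r' : ℤ} (hr : 1 ≤ r) (hrr : r + 2 ≤ r') {F X Y : Finset Edg}
    (hXY : X \ LL R δ r = Y \ LL R δ r) (hXF : X \ LL R δ r = F \ LL R δ r)
    (hno : ¬ Arm4 R δ (r + 2) r' F) {v : Vtx} (hv : Out R δ (r' + 2) v)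
    (h : v ∈ R.dclu δ X) : v ∈ R.dclu δ Y := by
  obtain ⟨g, hg, hgv⟩ := h
  have key : ∀ z, DReach (↑(R.edges δ) \ (↑X ∪ R.wired δ)) g z → (z ∈ R.dclu δ Y) ∨
      ∃ w, (inR (-r - 1) r (-1) r w ∨
        inR (R.tc δ - r - 1) (R.tc δ + r) (R.y1 δ - r - 1) (R.y1 δ) w) ∧
        DReach ↑(R.edges δ \ F) w z := by
    intro z hz
    induction hz with
    | refl => exact Or.inl ⟨g, hg, DReach.refl _ _⟩
    | @tail z z' _ hs' ih =>
      obtain ⟨e, ⟨heE, heX⟩, hc⟩ := hs'
      have heE' : e ∈ R.edges δ := Finset.mem_coe.mp heE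
      by_cases hL : e ∈ LL R δ r
      · right
        refine ⟨z', ?_, DReach.refl _ _⟩
        rcases (mem_LL.mp hL).2 with hh | hh
        · left
          have := RE_dends hh
          rcases hc with ⟨_, h2⟩ | ⟨h1, _⟩
          · rw [← h2]; exact this.2
          · rw [← h1]; exact this.1
        · right
          have := RE_dends hh
          rcases hc with ⟨_, h2⟩ | ⟨h1, _⟩
          · rw [← h2]; exact this.2
          · rw [← h1]; exact this.1
      · have hnX : e ∉ X := fun hh => heX (Or.inl (Finset.mem_coe.mpr hh))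
        have hnw : e ∉ R.wired δ := fun hh => heX (Or.inr hh)
        have hnY : e ∉ Y := by
          intro hh
          have : e ∈ Y \ LL R δ r := Finset.mem_sdiff.mpr ⟨hh, hL⟩
          rw [← hXY] at this
          exact hnX (Finset.mem_sdiff.mp this).1
        have hnF : e ∉ F := by
          intro hh
          have : e ∈ F \ LL R δ r := Finset.mem_sdiff.mpr ⟨hh, hL⟩
          rw [← hXF] at this
          exact hnX (Finset.mem_sdiff.mp this).1
        rcases ih with ⟨g', hg', ih⟩ | ⟨w, hw1, hw2⟩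
        · left
          refine ⟨g', hg', ih.trans (DAdj.reach ⟨e, ⟨heE, ?_⟩, hc⟩)⟩
          rintro (hh | hh)
          · exact hnY (Finset.mem_coe.mp hh)
          · exact hnw hh
        · right
          exact ⟨w, hw1, hw2.trans (DAdj.reach ⟨e,
            Finset.mem_coe.mpr (Finset.mem_sdiff.mpr ⟨heE', hnF⟩), hc⟩)⟩
  rcases key v hgv with h | ⟨w, hw, hr2⟩
  · exact h
  · exfalso
    apply hno
    exact Or.inr (darm_of hr hrr hw hr2 hv)

end LocL

open LocL

theorem loc : S_LOC := by
  intro R δ hs r r' hr hrr F F' hF hF' hFF hno v hv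
  refine ⟨⟨fun h => ?_, fun h => ?_⟩, ⟨fun h => ?_, fun h => ?_⟩⟩
  · exact clu_sub hs hr hrr hF hFF Finset.sdiff_subset hno hF hv h
  · refine clu_sub hs hr hrr hF hFF.symm ?_ hno hF' hv h
    rw [← hFF]; exact Finset.sdiff_subset
  · exact dclu_sub hr hrr hFF rfl hno hv h
  · exact dclu_sub hr hrr hFF.symm hFF.symm hno hv h

end QI75
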