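import Pool.Agent.Helper75K9.QI.Stm
import Pool.Agent.Helper38K9.NI.Sml

/-! [MAIN]: the noise functional of Lipschitz functionals of the trace. -/

set_option maxHeartbeats 1000000

namespace QI75

open H974 H973 H934E NI38 Finset MeasureTheory TopologicalSpace Filter Topology

namespace MainL

theorem okhf : Ok hf := fun _ => by unfold hf; exact ⟨by norm_num, by norm_num⟩

theorem trace_congr {R : Rect} {δ : ℝ} (hδ : 0 < δ) {F G : Finset Edg}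
    (h : R.corners δ F = R.corners δ G) : R.trace hδ F = R.trace hδ G := by
  have hp : R.path δ F = R.path δ G := by
    unfold Rect.path
    rw [h]
  apply SetLike.coe_injective
  exact hp

/-- Data of the scales, in terms of `s = δ^(-1/4)`. -/
theorem scales {s : ℝ} (hs : 10 ≤ s) :
    (100 : ℤ) ≤ ⌈s ^ 2⌉ ∧ ⌈s ^ 2⌉ + 2 + 2 ≤ ⌈s ^ 3⌉ ∧ ((⌈s ^ 2⌉ : ℤ) : ℝ) ≤ 2 * s ^ 2 ∧
      ((⌈s ^ 3⌉ : ℤ) : ℝ) ≤ 2 * s ^ 3 ∧ s ^ 2 ≤ ((⌈s ^ 2⌉ : ℤ) : ℝ) ∧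
      s ^ 3 ≤ ((⌈s ^ 3⌉ : ℤ) : ℝ) := by
  have h1 := Int.le_ceil (s ^ 2)
  have h2 := Int.le_ceil (s ^ 3)
  have h3 := Int.ceil_lt_add_one (s ^ 2)
  have h4 := Int.ceil_lt_add_one (s ^ 3)
  have h5 : (100 : ℝ) ≤ s ^ 2 := by nlinarith
  have h6 : 10 * s ^ 2 ≤ s ^ 3 := by nlinarith [sq_nonneg s]
  refine ⟨?_, ?_, by linarith, by linarith, h1, h2⟩
  · have : ((100 : ℤ) : ℝ) ≤ (⌈s ^ 2⌉ : ℤ) := by push_cast; linarith
    exact_mod_cast this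
  · have : ((⌈s ^ 2⌉ + 2 + 2 : ℤ) : ℝ) ≤ (⌈s ^ 3⌉ : ℤ) := by push_cast; linarith
    exact_mod_cast this

theorem th_ratio {s : ℝ} (hs : 10 ≤ s) :
    th (⌈s ^ 2⌉ + 2) / th ⌈s ^ 3⌉ ≤ 4 * s ^ (-(1/3) : ℝ) := by
  obtain ⟨h1, h2, h3, h4, h5, h6⟩ := scales hs
  have hs0 : 0 < s := by linarith
  unfold th
  have e1 : ((⌈s ^ 2⌉ + 2 : ℤ) : ℝ) ≤ 4 * s ^ 2 := by
    push_cast
    nlinarith
  have hpos : (0:ℝ) ≤ ((⌈s ^ 2⌉ + 2 : ℤ) : ℝ) := by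
    have : (0:ℤ) ≤ ⌈s ^ 2⌉ + 2 := by omega
    exact_mod_cast this
  have e2 : ((⌈s ^ 2⌉ + 2 : ℤ) : ℝ) ^ ((1:ℝ)/3) ≤ (4 * s ^ 2) ^ ((1:ℝ)/3) :=
    Real.rpow_le_rpow hpos e1 (by norm_num)
  have e3 : (s ^ 3) ^ ((1:ℝ)/3) ≤ ((⌈s ^ 3⌉ : ℤ) : ℝ) ^ ((1:ℝ)/3) :=
    Real.rpow_le_rpow (by positivity) h6 (by norm_num)
  have e4 : (s ^ 3) ^ ((1:ℝ)/3) = s := by
    rw [← Real.rpow_natCast s 3, ← Real.rpow_mul hs0.le]
    norm_num
  have e5 : (4 * s ^ 2) ^ ((1:ℝ)/3) ≤ 4 * s ^ ((2:ℝ)/3) := by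
    rw [Real.mul_rpow (by norm_num) (by positivity), ← Real.rpow_natCast s 2,
      ← Real.rpow_mul hs0.le]
    have e6 : ((2:ℕ):ℝ) * (1/3) = 2/3 := by norm_num
    rw [e6]
    apply mul_le_mul_of_nonneg_right _ (Real.rpow_nonneg hs0.le _)
    calc (4:ℝ) ^ ((1:ℝ)/3) ≤ 4 ^ (1:ℝ) :=
          Real.rpow_le_rpow_of_exponent_le (by norm_num) (by norm_num)
      _ = 4 := Real.rpow_one 4
  rw [e4] at e3
  calc ((⌈s ^ 2⌉ + 2 : ℤ) : ℝ) ^ ((1:ℝ)/3) / ((⌈s ^ 3⌉ : ℤ) : ℝ) ^ ((1:ℝ)/3)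
      ≤ (4 * s ^ ((2:ℝ)/3)) / s := by
        apply div_le_div₀ (by positivity) (e2.trans e5) hs0 e3
    _ = 4 * s ^ (-(1/3) : ℝ) := by
        have : s ^ (-(1/3) : ℝ) = s ^ ((2:ℝ)/3) / s := by
          have e7 : (-(1/3) : ℝ) = 2/3 - 1 := by norm_num
          rw [e7, Real.rpow_sub hs0, Real.rpow_one]
        rw [this]
        ring

end MainL

open MainL

theorem main : S_SUM → S_MLE → S_TREE → S_REV → S_AR4 → S_DET → S_MAIN := by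
  intro hsum hmle htree hrev har4 hdet
  obtain ⟨c1, hc1, hrev⟩ := hrev
  obtain ⟨C2, hC2, har4⟩ := har4
  obtain ⟨c0, hc0⟩ : ∃ c0 : ℝ, c0 = min c1 (1/6) := ⟨_, rfl⟩
  have hc0p : 0 < c0 := by rw [hc0]; exact lt_min hc1 (by norm_num)
  have hc01 : c0 ≤ c1 := by rw [hc0]; exact min_le_left _ _
  have hc02 : c0 ≤ 1/6 := by rw [hc0]; exact min_le_right _ _
  refine ⟨c0 / 4, by positivity, ?_⟩
  intro R M K hM hK
  obtain ⟨C1, η0, δ1, hC1, hη0, hδ1, hδ11, hrev⟩ := hrev R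
  obtain ⟨δ2, hδ2, _, hsml⟩ := sml R
  obtain ⟨A, hA⟩ : ∃ A : ℝ, A = Real.sqrt (1600 * K ^ 2 + 16 * M ^ 2 * C2) := ⟨_, rfl⟩
  have hA0 : 0 ≤ A := by rw [hA]; exact Real.sqrt_nonneg _
  refine ⟨M * (M * Real.sqrt C1 + A) + 1,
    min δ1 (min (min δ2 (10 ^ (-4 : ℝ))) ((η0 / 2) ^ 2)), ?_, ?_,
    (min_le_left _ _).trans hδ11, ?_⟩
  · have := Real.sqrt_nonneg C1
    positivity
  · exact lt_min hδ1 (lt_min (lt_min hδ2 (by positivity)) (by positivity))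
  intro δ hδ hlt Φ hΦM hΦK τ hτ hτ1
  have l1 : δ < δ1 := lt_of_lt_of_le hlt (min_le_left _ _)
  have l2 : δ < 10 ^ (-4 : ℝ) :=
    lt_of_lt_of_le hlt ((min_le_right _ _).trans ((min_le_left _ _).trans (min_le_right _ _)))
  have l4 : δ < δ2 :=
    lt_of_lt_of_le hlt ((min_le_right _ _).trans ((min_le_left _ _).trans (min_le_left _ _)))
  have l3 : δ < (η0 / 2) ^ 2 :=
    lt_of_lt_of_le hlt ((min_le_right _ _).trans (min_le_right _ _))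
  -- the scale
  obtain ⟨s, hsdef⟩ : ∃ s : ℝ, s = δ ^ (-(1/4) : ℝ) := ⟨_, rfl⟩
  have hs0 : 0 < s := by rw [hsdef]; exact Real.rpow_pos_of_pos hδ _
  have hsδ : δ = s ^ (-4 : ℝ) := by
    rw [hsdef, ← Real.rpow_mul hδ.le]
    norm_num
  have hs10 : 10 ≤ s := by
    by_contra hcon
    push Not at hcon
    have h1 : (10:ℝ) ^ (-4 : ℝ) < s ^ (-4 : ℝ) :=
      Real.rpow_lt_rpow_of_neg hs0 hcon (by norm_num)
    rw [← hsδ] at h1
    linarith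
  obtain ⟨g1, g2, g3, g4, g5, g6⟩ := scales hs10
  have hsδ4 : δ * s ^ 4 = 1 := by
    rw [hsδ, ← Real.rpow_natCast s 4, ← Real.rpow_add hs0]
    norm_num
  obtain ⟨r, hr⟩ : ∃ r : ℤ, r = ⌈s ^ 2⌉ := ⟨_, rfl⟩
  obtain ⟨r', hr'⟩ : ∃ r' : ℤ, r' = ⌈s ^ 3⌉ := ⟨_, rfl⟩
  rw [← hr, ← hr'] at g2
  rw [← hr] at g1 g3 g5
  rw [← hr'] at g4 g6
  have hδr : δ * r ≤ η0 := by
    have h1 : δ * r ≤ δ * (2 * s ^ 2) := mul_le_mul_of_nonneg_left g3 hδ.le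
    have h2 : (δ * s ^ 2) ^ 2 = δ := by
      calc (δ * s ^ 2) ^ 2 = δ * (δ * s ^ 4) := by ring
        _ = δ := by rw [hsδ4, mul_one]
    have h3 : δ * s ^ 2 ≤ η0 / 2 := by
      have h4 : (δ * s ^ 2) ^ 2 ≤ (η0 / 2) ^ 2 := by rw [h2]; exact l3.le
      exact le_of_sq_le_sq h4 (by positivity)
    linarith
  have hδr' : δ * r' ≤ 2 * s⁻¹ := by
    have h1 : δ * r' ≤ δ * (2 * s ^ 3) := mul_le_mul_of_nonneg_left g4 hδ.le
    have h2 : δ * s ^ 3 = s⁻¹ := by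
      have h3 : δ * s ^ 3 * s = 1 := by rw [← hsδ4]; ring
      exact eq_inv_of_mul_eq_one_left h3
    linarith
  have hsm : Sm R δ := (hsml δ hδ l4).1
  obtain ⟨T, hTv, hTt, hTc⟩ := htree R δ hsm
  obtain ⟨L, hL⟩ : ∃ L : Finset Edg, L = LL R δ r := ⟨_, rfl⟩
  have hLS : L ⊆ R.edges δ := by rw [hL]; exact Finset.filter_subset _ _
  obtain ⟨f, hff⟩ : ∃ f : Finset Edg → ℝ, f = fun F => Φ (R.trace hδ F) := ⟨_, rfl⟩
  have hfM : ∀ F, F ⊆ R.edges δ → |f F| ≤ M := fun F _ => by rw [hff]; exact hΦM _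
  have hfT : ∀ F F', F ⊆ R.edges δ → F' ⊆ R.edges δ → f (hyb T F F') = f F := by
    intro F F' h1 h2
    rw [hff]
    simp only
    rw [trace_congr hδ (hTc F F' h1 h2)]
  have hr1 : (0:ℝ) < (r : ℝ) := lt_of_lt_of_le (by positivity) g5
  -- revealment
  have hrv : ∀ e ∈ R.edges δ \ L, Pr hf (R.edges δ) (fun F => e ∈ T.rev F) ≤
      C1 * s ^ (-(2 * c1)) := by
    intro e he
    obtain ⟨he1, he2⟩ := Finset.mem_sdiff.mp he
    rw [hL] at he2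
    refine (Pr_mono okhf (fun F hF h => hTt F hF e h)).trans ?_
    refine (hrev δ hδ l1 r g1 hδr e he1 he2).trans ?_
    apply mul_le_mul_of_nonneg_left _ hC1.le
    have h1 : (r : ℝ) ^ (-c1) ≤ (s ^ 2) ^ (-c1) :=
      Real.rpow_le_rpow_of_nonpos (by positivity) g5 (by linarith)
    refine h1.trans (le_of_eq ?_)
    rw [← Real.rpow_natCast s 2, ← Real.rpow_mul hs0.le]
    congr 1
    push_cast
    ring
  -- the exceptional edges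
  have hml : mL (R.edges δ) L f ≤ (K * (20 * (δ * r'))) ^ 2 + 4 * M ^ 2 * (C2 * (th (r + 2) / th r')) := by
    have hr'0 : (0:ℝ) ≤ r' := le_trans (by positivity) g6
    apply hmle (R.edges δ) L hLS f _ _ M (by positivity) hfM
    refine le_trans (Pr_mono okhf ?_) (har4 R δ (r + 2) r' (by omega) (by omega))
    rintro F hF ⟨F', hF', hFL, hlt'⟩
    by_contra hcon
    rw [hL] at hFL
    have h1 := hdet R δ hδ hsm r r' (by omega) (by omega) F F' hF hF' hFL.symm hcon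
    have h2 : |f F - f F'| ≤ K * dist (R.trace hδ F) (R.trace hδ F') := by
      rw [hff]; exact hΦK _ _
    have h3 := mul_le_mul_of_nonneg_left h1 hK
    linarith
  have hinv1 : s⁻¹ ≤ 1 := inv_le_one_of_one_le₀ (by linarith)
  have hs13 : s⁻¹ ^ 2 ≤ s ^ (-(1/3) : ℝ) := by
    rw [inv_pow, ← Real.rpow_natCast s 2, ← Real.rpow_neg hs0.le]
    apply Real.rpow_le_rpow_of_exponent_le (by linarith)
    norm_num
  have hml2 : mL (R.edges δ) L f ≤ (1600 * K ^ 2 + 16 * M ^ 2 * C2) * s ^ (-(1/3) : ℝ) := by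
    refine hml.trans ?_
    have h1 : (K * (20 * (δ * r'))) ^ 2 ≤ 1600 * K ^ 2 * s ^ (-(1/3) : ℝ) := by
      have hr'0 : (0:ℝ) ≤ r' := le_trans (by positivity) g6
      have h2 : K * (20 * (δ * r')) ≤ 40 * K * s⁻¹ := by nlinarith
      have h3 : 0 ≤ K * (20 * (δ * r')) := by positivity
      calc (K * (20 * (δ * r'))) ^ 2 ≤ (40 * K * s⁻¹) ^ 2 := pow_le_pow_left₀ h3 h2 2
        _ = 1600 * K ^ 2 * s⁻¹ ^ 2 := by ring
        _ ≤ 1600 * K ^ 2 * s ^ (-(1/3) : ℝ) := mul_le_mul_of_nonneg_left hs13 (by positivity)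
    have h4 := th_ratio hs10
    rw [← hr, ← hr'] at h4
    have h5 : 4 * M ^ 2 * (C2 * (th (r + 2) / th r')) ≤ 16 * M ^ 2 * C2 * s ^ (-(1/3) : ℝ) := by
      calc 4 * M ^ 2 * (C2 * (th (r + 2) / th r')) ≤ 4 * M ^ 2 * (C2 * (4 * s ^ (-(1/3) : ℝ))) := by
            apply mul_le_mul_of_nonneg_left _ (by positivity)
            exact mul_le_mul_of_nonneg_left h4 hC2.le
        _ = 16 * M ^ 2 * C2 * s ^ (-(1/3) : ℝ) := by ring
    linarith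
  have hmain := hsum (R.edges δ) T hTv f hfT L hLS (C1 * s ^ (-(2 * c1)))
    (mul_nonneg hC1.le (Real.rpow_nonneg hs0.le _)) hrv M hM hfM τ hτ hτ1
  have hδc : δ ^ (c0 / 4) = s ^ (-c0) := by
    rw [hsδ, ← Real.rpow_mul hs0.le]
    congr 1
    ring
  have q1 : Real.sqrt (C1 * s ^ (-(2 * c1))) ≤ Real.sqrt C1 * s ^ (-c0) := by
    rw [Real.sqrt_mul hC1.le]
    apply mul_le_mul_of_nonneg_left _ (Real.sqrt_nonneg _)
    rw [Real.sqrt_eq_rpow, ← Real.rpow_mul hs0.le]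
    apply Real.rpow_le_rpow_of_exponent_le (by linarith)
    linarith
  have q2 : Real.sqrt (mL (R.edges δ) L f) ≤ A * s ^ (-c0) := by
    refine (Real.sqrt_le_sqrt hml2).trans ?_
    rw [Real.sqrt_mul (by positivity), ← hA]
    apply mul_le_mul_of_nonneg_left _ hA0
    rw [Real.sqrt_eq_rpow, ← Real.rpow_mul hs0.le]
    apply Real.rpow_le_rpow_of_exponent_le (by linarith)
    linarith
  have hsc : 0 ≤ s ^ (-c0) := Real.rpow_nonneg hs0.le _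
  have hfinal : M / τ ^ 2 * (M * Real.sqrt (C1 * s ^ (-(2 * c1))) + Real.sqrt (mL (R.edges δ) L f)) ≤
      (M * (M * Real.sqrt C1 + A) + 1) * δ ^ (c0 / 4) / τ ^ 2 := by
    rw [hδc]
    have h1 : M * Real.sqrt (C1 * s ^ (-(2 * c1))) + Real.sqrt (mL (R.edges δ) L f) ≤
        (M * Real.sqrt C1 + A) * s ^ (-c0) := by
      have := mul_le_mul_of_nonneg_left q1 hM
      linarith
    have hτ2 : 0 < τ ^ 2 := by positivity
    calc M / τ ^ 2 * (M * Real.sqrt (C1 * s ^ (-(2 * c1))) + Real.sqrt (mL (R.edges δ) L f))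
        ≤ M / τ ^ 2 * ((M * Real.sqrt C1 + A) * s ^ (-c0)) :=
          mul_le_mul_of_nonneg_left h1 (by positivity)
      _ = M * (M * Real.sqrt C1 + A) * s ^ (-c0) / τ ^ 2 := by ring
      _ ≤ (M * (M * Real.sqrt C1 + A) + 1) * s ^ (-c0) / τ ^ 2 := by
          apply div_le_div_of_nonneg_right _ hτ2.le
          nlinarith
  rw [← hff]
  exact hmain.trans hfinal

end QI75
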