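import Pool.Agent.Helper75K9.QI.Par

/-!
The spectral weight of the sets which meet `L`, and the summation over the levels.
-/

set_option autoImplicit false

namespace QI75

open H974 H973 Finset

namespace MleL

open ParL

theorem Ex_split {S W : Finset Edg} (hW : W ⊆ S) (f : Finset Edg → ℝ) :
    Ex hf S f = Ex hf (S \ W) (fun G => Ex hf W (fun Y => f (G ∪ Y))) := by
  conv_lhs => rw [← Finset.sdiff_union_of_subset hW]
  exact Ex_union Finset.sdiff_disjoint f

/-- the average over the edges of `L` -/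
noncomputable def av (L : Finset Edg) (f : Finset Edg → ℝ) (F : Finset Edg) : ℝ :=
  Ex hf L (fun Z => f ((F \ L) ∪ Z))

theorem wal_av {S L U : Finset Edg} (hL : L ⊆ S) (hU : U ⊆ S) (hUL : ¬ Disjoint U L)
    (f : Finset Edg → ℝ) : wal S (av L f) U = 0 := by
  unfold wal
  rw [Ex_split hL]
  have h1 : ∀ Y : Finset Edg, Y ⊆ S \ L →
      Ex hf L (fun Z => chi U (Y ∪ Z) * av L f (Y ∪ Z)) = 0 := by
    intro Y hY
    have hYL : Disjoint Y L := Finset.disjoint_of_subset_left hY Finset.sdiff_disjoint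
    have h2 : Ex hf L (fun Z => chi U (Y ∪ Z) * av L f (Y ∪ Z)) =
        Ex hf L (fun Z => (chi U Y * av L f Y) * chi (U ∩ L) Z) := by
      refine Ex_congr fun Z hZ => ?_
      have h3 : av L f (Y ∪ Z) = av L f Y := by
        unfold av
        have : (Y ∪ Z) \ L = Y \ L := by
          rw [Finset.union_sdiff_distrib, Finset.sdiff_eq_empty_iff_subset.2 hZ, Finset.union_empty]
        rw [this]
      have h4 : chi U (Y ∪ Z) = chi U Y * chi (U ∩ L) Z := by
        rw [chi_union (Finset.disjoint_of_subset_right hZ hYL)]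
        congr 1
        unfold chi
        congr 2
        ext x
        simp only [Finset.mem_inter]
        constructor
        · rintro ⟨hx, hx2⟩
          exact ⟨hx, hx2, hZ hx⟩
        · rintro ⟨hx, hx2, _⟩
          exact ⟨hx, hx2⟩
      rw [h3, h4]
      ring
    rw [h2, Ex_mul_left]
    have h5 : Ex hf L (fun Z => chi (U ∩ L) Z) = 0 :=
      ex_chi_hf L (U ∩ L) Finset.inter_subset_right (fun h => hUL (Finset.disjoint_iff_inter_eq_empty.2 h))
    rw [h5, mul_zero]
  rw [Ex_congr (g := fun _ => 0) h1, Ex_const]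

theorem wal_sub (S : Finset Edg) (f g : Finset Edg → ℝ) (U : Finset Edg) :
    wal S (fun F => f F - g F) U = wal S f U - wal S g U := by
  unfold wal
  rw [← Ex_sub]
  refine Ex_congr fun F _ => ?_
  ring

theorem lev_nonneg (S : Finset Edg) (f : Finset Edg → ℝ) (k : ℕ) : 0 ≤ lev S f k :=
  Finset.sum_nonneg fun _ _ => sq_nonneg _

theorem mL_nonneg (S L : Finset Edg) (f : Finset Edg → ℝ) : 0 ≤ mL S L f :=
  Finset.sum_nonneg fun _ _ => sq_nonneg _

end MleL

open ParL MleL

theorem mle : S_PAR → S_MLE := by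
  intro hpar S L hL f a b M ha hM hb
  have h1 : mL S L f ≤ Ex hf S (fun F => (f F - av L f F) ^ 2) := by
    rw [← hpar S (fun F => f F - av L f F)]
    unfold mL
    have h2 : ∑ U ∈ S.powerset.filter (fun U => ¬ Disjoint U L), (wal S f U) ^ 2 =
        ∑ U ∈ S.powerset.filter (fun U => ¬ Disjoint U L),
          (wal S (fun F => f F - av L f F) U) ^ 2 := by
      refine Finset.sum_congr rfl fun U hU => ?_
      obtain ⟨hUS, hUL⟩ := Finset.mem_filter.1 hU
      rw [wal_sub, wal_av hL (Finset.mem_powerset.1 hUS) hUL, sub_zero]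
    rw [h2]
    exact Finset.sum_le_sum_of_subset_of_nonneg (Finset.filter_subset _ _)
      fun _ _ _ => sq_nonneg _
  refine h1.trans ?_
  -- pointwise
  have h2 : ∀ F, F ⊆ S → (f F - av L f F) ^ 2 ≤ a ^ 2 + 4 * M ^ 2 *
      ind (∃ F', F' ⊆ S ∧ F' \ L = F \ L ∧ a < |f F - f F'|) := by
    intro F hF
    have h3 : f F - av L f F = Ex hf L (fun Z => f F - f ((F \ L) ∪ Z)) := by
      unfold av
      rw [Ex_sub, Ex_const]
    have hsub : ∀ Z, Z ⊆ L → (F \ L) ∪ Z ⊆ S := fun Z hZ =>
      Finset.union_subset (Finset.sdiff_subset.trans hF) (hZ.trans hL)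
    have hM0 : |f F| ≤ M := hM F hF
    by_cases hbad : ∃ F', F' ⊆ S ∧ F' \ L = F \ L ∧ a < |f F - f F'|
    · rw [ind_of hbad]
      have h4 : |f F - av L f F| ≤ 2 * M := by
        rw [h3, abs_le]
        constructor
        · have := Ex_mono ok_hf (S := L) (f := fun _ => -(2 * M))
            (g := fun Z => f F - f ((F \ L) ∪ Z)) fun Z hZ => by
              have h5 := abs_le.1 (hM _ (hsub Z hZ))
              have h6 := abs_le.1 hM0
              linarith [h5.2, h6.1]
          rwa [Ex_const] at this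
        · exact Ex_le_of_le ok_hf fun Z hZ => by
            have h5 := abs_le.1 (hM _ (hsub Z hZ))
            have h6 := abs_le.1 hM0
            linarith [h5.1, h6.2]
      have h5 : (f F - av L f F) ^ 2 ≤ (2 * M) ^ 2 := sq_le_sq' (by linarith [(abs_le.1 h4).1])
        (abs_le.1 h4).2
      nlinarith [sq_nonneg a]
    · rw [ind_not_of hbad]
      push Not at hbad
      have h4 : |f F - av L f F| ≤ a := by
        have h6 : ∀ Z, Z ⊆ L → |f F - f ((F \ L) ∪ Z)| ≤ a := by
          intro Z hZ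
          refine hbad _ (hsub Z hZ) ?_
          rw [Finset.union_sdiff_distrib, Finset.sdiff_eq_empty_iff_subset.2 hZ,
            Finset.union_empty, Finset.sdiff_idem]
        rw [h3, abs_le]
        constructor
        · have := Ex_mono ok_hf (S := L) (f := fun _ => -a)
            (g := fun Z => f F - f ((F \ L) ∪ Z)) fun Z hZ => (abs_le.1 (h6 Z hZ)).1
          rwa [Ex_const] at this
        · exact Ex_le_of_le ok_hf fun Z hZ => (abs_le.1 (h6 Z hZ)).2
      have h5 : (f F - av L f F) ^ 2 ≤ a ^ 2 := sq_le_sq' (by linarith [(abs_le.1 h4).1])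
        (abs_le.1 h4).2
      linarith
  refine (Ex_mono ok_hf h2).trans ?_
  rw [Ex_add, Ex_const, Ex_mul_left]
  have h3 : Ex hf S (fun F => ind (∃ F', F' ⊆ S ∧ F' \ L = F \ L ∧ a < |f F - f F'|)) ≤ b := hb
  have h4 : 0 ≤ 4 * M ^ 2 := by positivity
  have := mul_le_mul_of_nonneg_left h3 h4
  linarith

theorem sum_ : S_PAR → S_SS → S_SUM := by
  intro hpar hss S T hT f hhyb L hL r0 hr0 hrev M hM hfM τ hτ hτ1
  have hEx : Ex hf S (fun F => (f F) ^ 2) ≤ M ^ 2 := by
    refine Ex_le_of_le ok_hf fun F hF => ?_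
    have h := abs_le.1 (hfM F hF)
    exact sq_le_sq' (by linarith [h.1]) h.2
  have hEx0 : 0 ≤ Ex hf S (fun F => (f F) ^ 2) := Ex_nonneg ok_hf fun F _ => sq_nonneg _
  have hm0 := mL_nonneg S L f
  have hlevM : ∀ k, lev S f k ≤ M ^ 2 := by
    intro k
    refine le_trans ?_ hEx
    rw [← hpar]
    exact Finset.sum_le_sum_of_subset_of_nonneg (Finset.filter_subset _ _)
      fun _ _ _ => sq_nonneg _
  set m := mL S L f with hm
  set A := M * (M * Real.sqrt r0 + Real.sqrt m) with hA
  have hA0 : 0 ≤ A := by positivity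
  have hlev : ∀ k : ℕ, 1 ≤ k → lev S f k ≤ k * A := by
    intro k hk
    have hk1 : (1 : ℝ) ≤ k := by exact_mod_cast hk
    have h1 := hss S T hT f hhyb L hL r0 hr0 hrev k hk
    have h0 := lev_nonneg S f k
    have h2 : (lev S f k) ^ 2 ≤ (k * A) ^ 2 := by
      have h3 : (lev S f k) ^ 2 ≤ M ^ 2 * (k * r0 * M ^ 2 + m) := by
        refine h1.trans ?_
        have h4 : k * r0 * lev S f k ≤ k * r0 * M ^ 2 :=
          mul_le_mul_of_nonneg_left (hlevM k) (by positivity)
        have h5 : 0 ≤ k * r0 * lev S f k + mL S L f := by positivity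
        calc Ex hf S (fun F => (f F) ^ 2) * (k * r0 * lev S f k + mL S L f)
            ≤ M ^ 2 * (k * r0 * lev S f k + mL S L f) := mul_le_mul_of_nonneg_right hEx h5
          _ ≤ _ := by
              apply mul_le_mul_of_nonneg_left _ (sq_nonneg M)
              rw [← hm]
              linarith
      refine h3.trans ?_
      have hr : Real.sqrt r0 ^ 2 = r0 := Real.sq_sqrt hr0
      have hmm : Real.sqrt m ^ 2 = m := Real.sq_sqrt hm0
      have h6 : (k * A) ^ 2 = M ^ 2 * (k ^ 2 * (M * Real.sqrt r0 + Real.sqrt m) ^ 2) := by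
        rw [hA]
        ring
      rw [h6]
      apply mul_le_mul_of_nonneg_left _ (sq_nonneg M)
      have h7 : (k : ℝ) ≤ k ^ 2 := by nlinarith
      have h8 : (1 : ℝ) ≤ k ^ 2 := by nlinarith
      have h9 : (M * Real.sqrt r0 + Real.sqrt m) ^ 2 =
          r0 * M ^ 2 + m + 2 * (M * Real.sqrt r0 * Real.sqrt m) := by
        rw [add_sq, mul_pow, hr, hmm]
        ring
      rw [h9]
      have h10 : 0 ≤ 2 * (M * Real.sqrt r0 * Real.sqrt m) := by positivity
      have h11 : k * r0 * M ^ 2 ≤ k ^ 2 * (r0 * M ^ 2) := by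
        have : 0 ≤ r0 * M ^ 2 := by positivity
        nlinarith
      have h12 : m ≤ k ^ 2 * m := by nlinarith
      have h13 : 0 ≤ (k : ℝ) ^ 2 * (2 * (M * Real.sqrt r0 * Real.sqrt m)) := by positivity
      linarith
    exact (sq_le_sq₀ h0 (by positivity)).1 h2
  -- the sum over the levels
  have hNS : NS τ S f = ∑ k ∈ Finset.range (S.card + 1),
      if k = 0 then 0 else (1 - τ) ^ k * lev S f k := by
    unfold NS
    rw [← Finset.sum_fiberwise_of_maps_to (s := S.powerset.filter (fun U => U ≠ ∅))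
      (t := Finset.range (S.card + 1)) (g := Finset.card) (fun U hU => by
        have h1 := Finset.card_le_card (Finset.mem_powerset.1 (Finset.mem_filter.1 hU).1)
        rw [Finset.mem_range]
        omega)]
    refine Finset.sum_congr rfl fun k _ => ?_
    by_cases hk : k = 0
    · rw [if_pos hk]
      apply Finset.sum_eq_zero
      intro U hU
      rw [Finset.mem_filter, Finset.mem_filter, hk] at hU
      exact absurd (Finset.card_eq_zero.1 hU.2) hU.1.2
    · rw [if_neg hk]
      unfold lev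
      rw [Finset.mul_sum]
      have h1 : (S.powerset.filter (fun U => U ≠ ∅)).filter (fun U => U.card = k) =
          S.powerset.filter (fun U => U.card = k) := by
        ext U
        simp only [Finset.mem_filter, ne_eq]
        constructor
        · rintro ⟨⟨h2, _⟩, h3⟩
          exact ⟨h2, h3⟩
        · rintro ⟨h2, h3⟩
          refine ⟨⟨h2, ?_⟩, h3⟩
          rintro rfl
          exact hk h3.symm
      rw [h1]
      refine Finset.sum_congr rfl fun U hU => ?_
      rw [(Finset.mem_filter.1 hU).2]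
  rw [hNS]
  have hx0 : 0 ≤ 1 - τ := by linarith
  have hx1 : ‖(1 - τ : ℝ)‖ < 1 := by
    rw [Real.norm_eq_abs, abs_of_nonneg hx0]
    linarith
  have h1 : ∑ k ∈ Finset.range (S.card + 1), (if k = 0 then 0 else (1 - τ) ^ k * lev S f k) ≤
      ∑ k ∈ Finset.range (S.card + 1), A * (k * (1 - τ) ^ k) := by
    refine Finset.sum_le_sum fun k _ => ?_
    by_cases hk : k = 0
    · rw [if_pos hk, hk]
      simp
    · rw [if_neg hk]
      have h2 := mul_le_mul_of_nonneg_left (hlev k (Nat.one_le_iff_ne_zero.2 hk))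
        (pow_nonneg hx0 k)
      linarith
  refine h1.trans ?_
  rw [← Finset.mul_sum]
  have hs := hasSum_coe_mul_geometric_of_norm_lt_one hx1
  have h2 : ∑ k ∈ Finset.range (S.card + 1), ((k : ℝ) * (1 - τ) ^ k) ≤
      (1 - τ) / (1 - (1 - τ)) ^ 2 :=
    sum_le_hasSum _ (fun k _ => by positivity) hs
  have h3 : (1 - τ) / (1 - (1 - τ)) ^ 2 ≤ 1 / τ ^ 2 := by
    rw [sub_sub_cancel]
    gcongr
    linarith
  calc A * ∑ k ∈ Finset.range (S.card + 1), ((k : ℝ) * (1 - τ) ^ k) ≤ A * (1 / τ ^ 2) :=
        mul_le_mul_of_nonneg_left (h2.trans h3) hA0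
    _ = M / τ ^ 2 * (M * Real.sqrt r0 + Real.sqrt m) := by
        rw [hA]
        ring

end QI75
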