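import Pool.Agent.Helper75K9.QI.Stm

/-!
Walsh functions: Parseval, inversion, expectations for other parameters; the noise functional as
the variance after resampling.
-/

set_option autoImplicit false

namespace QI75

open H974 H973 Finset

namespace ParL

theorem ok_hf : Ok (hf : Edg → ℝ) := fun _ => by
  unfold hf
  norm_num

theorem chi_insert_notMem {e : Edg} {T : Finset Edg} (he : e ∉ T) (F : Finset Edg) :
    chi T (insert e F) = chi T F := by
  unfold chi
  rw [Finset.insert_inter_of_notMem he]

theorem chi_insert_mem {e : Edg} {T F : Finset Edg} (he : e ∈ T) (hF : e ∉ F) :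
    chi T (insert e F) = - chi T F := by
  unfold chi
  rw [Finset.insert_inter_of_mem he, Finset.card_insert_of_notMem
    (fun h => hF (Finset.mem_inter.1 h).1), pow_succ]
  ring

theorem chi_erase {e : Edg} {T F : Finset Edg} (hF : e ∉ F) : chi T F = chi (T.erase e) F := by
  unfold chi
  congr 2
  ext x
  simp only [Finset.mem_inter, Finset.mem_erase]
  constructor
  · rintro ⟨h1, h2⟩
    exact ⟨h1, fun h => hF (h ▸ h1), h2⟩
  · rintro ⟨h1, _, h2⟩
    exact ⟨h1, h2⟩

theorem chi_union {T Y Z : Finset Edg} (h : Disjoint Y Z) : chi T (Y ∪ Z) = chi T Y * chi T Z := by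
  unfold chi
  rw [Finset.union_inter_distrib_right, Finset.card_union_of_disjoint, pow_add]
  exact Finset.disjoint_of_subset_left Finset.inter_subset_left
    (Finset.disjoint_of_subset_right Finset.inter_subset_left h)

theorem chi_empty (F : Finset Edg) : chi ∅ F = 1 := by
  unfold chi
  rw [Finset.inter_empty, Finset.card_empty, pow_zero]

theorem chi_of_empty (U : Finset Edg) : chi U ∅ = 1 := by
  unfold chi
  rw [Finset.empty_inter, Finset.card_empty, pow_zero]

theorem chi_eq_prod (U F : Finset Edg) : chi U F = ∏ e ∈ U, (1 - 2 * ind (e ∈ F)) := by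
  unfold chi
  rw [Finset.inter_comm, ← Finset.filter_mem_eq_inter, Finset.card_filter,
    ← Finset.prod_pow_eq_pow_sum]
  refine Finset.prod_congr rfl fun e _ => ?_
  by_cases h : e ∈ F
  · rw [if_pos h, ind_of h]
    norm_num
  · rw [if_neg h, ind_not_of h]
    norm_num

theorem wal_insert_notMem {e : Edg} {V T : Finset Edg} (hV : e ∉ V) (hT : e ∉ T)
    (f : Finset Edg → ℝ) :
    wal (insert e V) f T = (wal V (fun F => f (insert e F)) T + wal V f T) / 2 := by
  unfold wal
  rw [Ex_insert _ hV]
  simp only [chi_insert_notMem hT, hf]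
  ring

theorem wal_insert_mem {e : Edg} {V T : Finset Edg} (hV : e ∉ V) (hT : e ∈ T)
    (f : Finset Edg → ℝ) :
    wal (insert e V) f T =
      (wal V f (T.erase e) - wal V (fun F => f (insert e F)) (T.erase e)) / 2 := by
  unfold wal
  rw [Ex_insert _ hV]
  have h1 : Ex hf V (fun F => chi T (insert e F) * f (insert e F)) =
      - Ex hf V (fun F => chi (T.erase e) F * f (insert e F)) := by
    rw [← neg_one_mul, ← Ex_mul_left]
    refine Ex_congr fun F hF => ?_
    have heF : e ∉ F := fun h => hV (hF h)
    rw [chi_insert_mem hT heF, chi_erase heF]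
    ring
  have h2 : Ex hf V (fun F => chi T F * f F) = Ex hf V (fun F => chi (T.erase e) F * f F) := by
    refine Ex_congr fun F hF => ?_
    have heF : e ∉ F := fun h => hV (hF h)
    rw [chi_erase heF]
  rw [h1, h2]
  simp only [hf]
  ring

/-- inversion -/
theorem inv (S : Finset Edg) (f : Finset Edg → ℝ) (F : Finset Edg) (hF : F ⊆ S) :
    ∑ U ∈ S.powerset, wal S f U * chi U F = f F := by
  induction S using Finset.induction_on generalizing f F with
  | empty =>
    rw [Finset.subset_empty.1 hF]
    simp [wal, Ex_empty, chi]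
  | insert e V he ih =>
    rw [Finset.sum_powerset_insert he, ← Finset.sum_add_distrib]
    by_cases heF : e ∈ F
    · obtain ⟨G, hG, rfl⟩ : ∃ G : Finset Edg, e ∉ G ∧ F = insert e G :=
        ⟨F.erase e, Finset.notMem_erase e F, (Finset.insert_erase heF).symm⟩
      have hGV : G ⊆ V := fun x hx => by
        rcases Finset.mem_insert.1 (hF (Finset.mem_insert_of_mem hx)) with rfl | h
        · exact absurd hx hG
        · exact h
      rw [← ih (fun F => f (insert e F)) G hGV]
      refine Finset.sum_congr rfl fun T hT => ?_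
      have heT : e ∉ T := fun h => he (Finset.mem_powerset.1 hT h)
      rw [wal_insert_notMem he heT, wal_insert_mem he (Finset.mem_insert_self e T),
        Finset.erase_insert heT, chi_insert_notMem heT,
        chi_insert_mem (Finset.mem_insert_self e T) hG, chi_erase (T := insert e T) hG,
        Finset.erase_insert heT]
      ring
    · have hFV : F ⊆ V := fun x hx => by
        rcases Finset.mem_insert.1 (hF hx) with rfl | h
        · exact absurd hx heF
        · exact h
      rw [← ih f F hFV]
      refine Finset.sum_congr rfl fun T hT => ?_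
      have heT : e ∉ T := fun h => he (Finset.mem_powerset.1 hT h)
      rw [wal_insert_notMem he heT, wal_insert_mem he (Finset.mem_insert_self e T),
        Finset.erase_insert heT, chi_erase (T := insert e T) heF, Finset.erase_insert heT]
      ring

theorem ex_chi (p : Edg → ℝ) (S : Finset Edg) (U : Finset Edg) (hU : U ⊆ S) :
    Ex p S (chi U) = ∏ e ∈ U, (1 - 2 * p e) := by
  induction S using Finset.induction_on generalizing U with
  | empty =>
    rw [Finset.subset_empty.1 hU, Ex_empty, chi_empty, Finset.prod_empty]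
  | insert e V he ih =>
    rw [Ex_insert _ he]
    by_cases heU : e ∈ U
    · obtain ⟨T, hT, rfl⟩ : ∃ T : Finset Edg, e ∉ T ∧ U = insert e T :=
        ⟨U.erase e, Finset.notMem_erase e U, (Finset.insert_erase heU).symm⟩
      have hTV : T ⊆ V := fun x hx => by
        rcases Finset.mem_insert.1 (hU (Finset.mem_insert_of_mem hx)) with rfl | h
        · exact absurd hx hT
        · exact h
      have h1 : Ex p V (fun F => chi (insert e T) (insert e F)) = - Ex p V (chi T) := by
        rw [← neg_one_mul, ← Ex_mul_left]
        refine Ex_congr fun F hF => ?_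
        have heF : e ∉ F := fun h => he (hF h)
        rw [chi_insert_mem (Finset.mem_insert_self e T) heF, chi_erase heF,
          Finset.erase_insert hT]
        ring
      have h2 : Ex p V (chi (insert e T)) = Ex p V (chi T) := by
        refine Ex_congr fun F hF => ?_
        have heF : e ∉ F := fun h => he (hF h)
        rw [chi_erase heF, Finset.erase_insert hT]
      rw [h1, h2, ih T hTV, Finset.prod_insert hT]
      ring
    · have hUV : U ⊆ V := fun x hx => by
        rcases Finset.mem_insert.1 (hU hx) with rfl | h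
        · exact absurd hx heU
        · exact h
      have h1 : Ex p V (fun F => chi U (insert e F)) = Ex p V (chi U) :=
        Ex_congr fun F _ => chi_insert_notMem heU F
      rw [h1, ih U hUV]
      ring

/-- expectation for arbitrary parameters -/
theorem ex_eq (p : Edg → ℝ) (S : Finset Edg) (f : Finset Edg → ℝ) :
    Ex p S f = ∑ U ∈ S.powerset, wal S f U * ∏ e ∈ U, (1 - 2 * p e) := by
  have h1 : Ex p S f = Ex p S (fun F => ∑ U ∈ S.powerset, wal S f U * chi U F) :=
    Ex_congr fun F hF => (inv S f F hF).symm
  rw [h1, Ex_sum]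
  refine Finset.sum_congr rfl fun U hU => ?_
  rw [← ex_chi p S U (Finset.mem_powerset.1 hU), ← Ex_mul_left]

theorem ex_chi_hf (S : Finset Edg) (U : Finset Edg) (hU : U ⊆ S) (h0 : U ≠ ∅) :
    Ex hf S (chi U) = 0 := by
  rw [ex_chi hf S U hU]
  obtain ⟨e, he⟩ := Finset.nonempty_iff_ne_empty.2 h0
  refine Finset.prod_eq_zero he ?_
  unfold hf
  norm_num

theorem wal_empty (S : Finset Edg) (f : Finset Edg → ℝ) : wal S f ∅ = Ex hf S f := by
  unfold wal
  refine Ex_congr fun F _ => ?_
  rw [chi_empty, one_mul]

theorem chi_mul (U V F : Finset Edg) : chi U F * chi V F = chi (symmDiff U V) F := by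
  have h : ∀ A : Finset Edg, chi A F = ∏ e ∈ F, (if e ∈ A then (-1 : ℝ) else 1) := by
    intro A
    unfold chi
    rw [← Finset.filter_mem_eq_inter, Finset.prod_ite, Finset.prod_const_one, mul_one,
      Finset.prod_const]
  rw [h, h, h, ← Finset.prod_mul_distrib]
  refine Finset.prod_congr rfl fun e _ => ?_
  by_cases h1 : e ∈ U <;> by_cases h2 : e ∈ V <;> simp [h1, h2, Finset.mem_symmDiff]

/-- Walsh coefficients of a Walsh sum -/
theorem wal_sum (S : Finset Edg) (a : Finset Edg → ℝ) (U : Finset Edg) (hU : U ⊆ S) :
    wal S (fun F => ∑ V ∈ S.powerset, a V * chi V F) U = a U := by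
  unfold wal
  have h1 : Ex hf S (fun F => chi U F * ∑ V ∈ S.powerset, a V * chi V F) =
      Ex hf S (fun F => ∑ V ∈ S.powerset, a V * chi (symmDiff U V) F) := by
    refine Ex_congr fun F _ => ?_
    rw [Finset.mul_sum]
    refine Finset.sum_congr rfl fun V _ => ?_
    rw [← chi_mul]
    ring
  rw [h1, Ex_sum, Finset.sum_eq_single U]
  · rw [Ex_mul_left, symmDiff_self]
    have h2 : Ex hf S (chi (⊥ : Finset Edg)) = 1 := by
      rw [Finset.bot_eq_empty, ex_chi hf S ∅ (Finset.empty_subset _), Finset.prod_empty]
    have h3 : Ex hf S (fun F => chi (⊥ : Finset Edg) F) = 1 := h2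
    rw [h3, mul_one]
  · intro V hV hne
    have h2 : Ex hf S (fun F => chi (symmDiff U V) F) = 0 := by
      refine ex_chi_hf S _ ?_ ?_
      · intro x hx
        rw [Finset.mem_symmDiff] at hx
        rcases hx with hx | hx
        · exact hU hx.1
        · exact Finset.mem_powerset.1 hV hx.1
      · intro h
        exact hne (symmDiff_eq_bot.1 h).symm
    rw [Ex_mul_left, h2, mul_zero]
  · intro h
    exact absurd (Finset.mem_powerset.2 hU) h

end ParL

open ParL

theorem par : S_PAR := by
  intro V f
  induction V using Finset.induction_on generalizing f with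
  | empty => simp [wal, Ex_empty, chi]
  | insert e V he ih =>
    rw [Finset.sum_powerset_insert he, ← Finset.sum_add_distrib, Ex_insert _ he,
      ← ih (fun F => f (insert e F)), ← ih f, Finset.mul_sum, Finset.mul_sum,
      ← Finset.sum_add_distrib]
    refine Finset.sum_congr rfl fun T hT => ?_
    have heT : e ∉ T := fun h => he (Finset.mem_powerset.1 hT h)
    rw [wal_insert_notMem he heT, wal_insert_mem he (Finset.mem_insert_self e T),
      Finset.erase_insert heT]
    simp only [hf]
    ring

theorem nse : S_NSE := by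
  intro S f τ h0 h1
  -- the Walsh sum of the difference
  let a : Finset Edg → ℝ := fun U => if U = ∅ then 0 else (1 - τ) ^ U.card * wal S f U
  have key : ∀ F : Finset Edg, Ex (fun e => (1 - τ) * ind (e ∈ F) + τ / 2) S f - Ex hf S f =
      ∑ U ∈ S.powerset, a U * chi U F := by
    intro F
    rw [ex_eq, ← wal_empty]
    have h2 : ∀ U ∈ S.powerset, wal S f U * ∏ e ∈ U, (1 - 2 * ((1 - τ) * ind (e ∈ F) + τ / 2)) =
        wal S f U * ((1 - τ) ^ U.card * chi U F) := by
      intro U _
      rw [chi_eq_prod, ← Finset.prod_const, ← Finset.prod_mul_distrib]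
      congr 1
      refine Finset.prod_congr rfl fun e _ => ?_
      ring
    rw [Finset.sum_congr rfl h2]
    have h3 : wal S f ∅ = ∑ U ∈ S.powerset, if U = ∅ then wal S f U * ((1 - τ) ^ U.card * chi U F)
        else 0 := by
      rw [Finset.sum_ite_eq' S.powerset ∅ (fun U => wal S f U * ((1 - τ) ^ U.card * chi U F)),
        if_pos (Finset.empty_mem_powerset S), Finset.card_empty, pow_zero, chi_empty, one_mul,
        mul_one]
    rw [h3, ← Finset.sum_sub_distrib]
    refine Finset.sum_congr rfl fun U _ => ?_
    by_cases hU : U = ∅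
    · simp only [a, if_pos hU]
      ring
    · simp only [a, if_neg hU]
      ring
  have h2 : Ex hf S (fun F => (Ex (fun e => (1 - τ) * ind (e ∈ F) + τ / 2) S f - Ex hf S f) ^ 2) =
      Ex hf S (fun F => (∑ U ∈ S.powerset, a U * chi U F) ^ 2) :=
    Ex_congr fun F _ => by rw [key F]
  rw [h2, ← par S (fun F => ∑ U ∈ S.powerset, a U * chi U F)]
  unfold NS
  rw [Finset.sum_filter]
  refine Finset.sum_le_sum fun U hU => ?_
  rw [wal_sum S a U (Finset.mem_powerset.1 hU)]
  by_cases hU0 : U = ∅
  · rw [if_neg (not_not.2 hU0)]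
    simp only [a, if_pos hU0]
    norm_num
  · rw [if_pos hU0]
    simp only [a, if_neg hU0]
    rw [mul_pow]
    refine mul_le_mul_of_nonneg_right ?_ (sq_nonneg _)
    have h3 : 0 ≤ (1 - τ) ^ U.card := pow_nonneg (by linarith) _
    have h4 : (1 - τ) ^ U.card ≤ 1 := pow_le_one₀ (by linarith) (by linarith)
    nlinarith

end QI75
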