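import Pool.Agent.Helper75K9.QI.Stm

/-!
[REV] Probability that an edge is touched.
-/

set_option maxHeartbeats 400000

namespace QI75

open H974 H973 H934E NI38 Finset MeasureTheory TopologicalSpace Filter Topology

namespace RevL

/-- A vertex of the open cluster is connected to a wired vertex by edges of `F`. -/
theorem clu_reach {R : Rect} {δ : ℝ} {F : Finset Edg} {v : Vtx} (hv : v ∈ R.clu δ F) :
    ∃ w ∈ wv R δ, Reach (↑F) v w := by
  have h : Reach (↑F ∪ R.wired δ : Set Edg) (0, 0) v := hv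
  induction h with
  | refl => exact ⟨(0, 0), Or.inl rfl, Reach.refl _ _⟩
  | tail h1 h2 ih =>
    rename_i b c
    obtain ⟨e, he, hc⟩ := h2
    rcases he with he | he
    · obtain ⟨w, hw, hr⟩ := ih h1
      refine ⟨w, hw, ?_⟩
      have : Adj (↑F : Set Edg) b c := ⟨e, he, hc⟩
      exact (this.reach.symm).trans hr
    · refine ⟨c, Or.inr ⟨e, he, ?_⟩, Reach.refl _ _⟩
      rcases hc with ⟨_, h3⟩ | ⟨h3, _⟩
      · exact Or.inr h3.symm
      · exact Or.inl h3.symm

theorem pr_far (S : Finset Edg) (v : Vtx) (n : ℕ) :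
    Pr hf S (fun F => ∃ u : Vtx, (u.1 ≤ v.1 - n ∨ v.1 + n ≤ u.1 ∨ u.2 ≤ v.2 - n ∨
      v.2 + n ≤ u.2) ∧ Reach (↑F) v u) ≤ arm (1 / 2) n :=
  arm_bound (q := 1 / 2) (by norm_num) (by norm_num) S v n

theorem pr_dfar (S : Finset Edg) (v : Vtx) (n : ℕ) :
    Pr hf S (fun F => ∃ u : Vtx, (u.1 ≤ v.1 - n ∨ v.1 + n ≤ u.1 ∨ u.2 ≤ v.2 - n ∨
      v.2 + n ≤ u.2) ∧ DReach (↑(S \ F)) v u) ≤ arm (1 / 2) n := by
  refine le_trans (le_of_eq ?_) (pr_far (dmp S) v n)
  have e0 : (hf : Edg → ℝ) = fun e => 1 - hf e := by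
    funext e; unfold hf; norm_num
  have e1 := Pr_compl hf S (fun F => ∃ u : Vtx, (u.1 ≤ v.1 - n ∨ v.1 + n ≤ u.1 ∨
    u.2 ≤ v.2 - n ∨ v.2 + n ≤ u.2) ∧ DReach (↑F) v u)
  rw [← e0] at e1
  rw [← e1]
  have e2 := pr_dmp (1 / 2) S (fun F => ∃ u : Vtx, (u.1 ≤ v.1 - n ∨ v.1 + n ≤ u.1 ∨
    u.2 ≤ v.2 - n ∨ v.2 + n ≤ u.2) ∧ Reach (↑F) v u)
  refine Eq.trans ?_ e2.symm
  apply Pr_congr
  intro F _
  simp only [coe_dmp, reach_dl]

end RevL

open RevL in
theorem rev : S_ARM → S_GEO → S_REV := by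
  rintro ⟨c, C, hc, hC, hA⟩ hG
  refine ⟨c, hc, ?_⟩
  intro R
  obtain ⟨η0, δ0, hη0, hδ0, hδ1, h⟩ := hG R
  refine ⟨2 * (C * 16 ^ c), η0, δ0, by positivity, hη0, hδ0, hδ1, ?_⟩
  intro δ hδ hδ' r hr hrη e he heL
  obtain ⟨n, hn⟩ := Int.eq_ofNat_of_zero_le (show 0 ≤ (r - 8) / 8 - 1 by omega)
  have hn1 : 1 ≤ n := by omega
  have hnr : r ≤ 16 * n := by omega
  have hcase := (h δ hδ hδ').2 r ((r - 8) / 8) (by omega) (by omega) hrη e he heL
  have hb : arm (1 / 2) n ≤ C * 16 ^ c * (r : ℝ) ^ (-c) := by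
    refine (hA n hn1).trans ?_
    rw [mul_assoc]
    apply mul_le_mul_of_nonneg_left _ hC.le
    have hr0 : (0 : ℝ) < r := by exact_mod_cast (show (0 : ℤ) < r by omega)
    have h1 : (16 : ℝ) ^ c * (r : ℝ) ^ (-c) = ((r : ℝ) / 16) ^ (-c) := by
      rw [Real.div_rpow hr0.le (by norm_num), Real.rpow_neg (by norm_num : (0:ℝ) ≤ 16),
        div_inv_eq_mul, mul_comm]
    rw [h1]
    apply Real.rpow_le_rpow_of_nonpos (by positivity) _ (by linarith)
    have : (r : ℝ) ≤ 16 * n := by exact_mod_cast hnr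
    linarith
  have key : ∃ x y : Vtx, Pr hf (R.edges δ) (Tch R δ e) ≤ arm (1 / 2) n + arm (1 / 2) n := by
    rcases hcase with hcase | hcase
    · refine ⟨src e, tgt e, ?_⟩
      refine le_trans (Pr_mono okhalf ?_) ((Pr_or_le okhalf (R.edges δ) _ _).trans
        (add_le_add (pr_far (R.edges δ) (src e) n) (pr_far (R.edges δ) (tgt e) n)))
      rintro F _ ⟨h1, _⟩
      rcases h1 with h1 | h1
      · left
        obtain ⟨w, hw, hr'⟩ := clu_reach h1
        have := hcase w hw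
        refine ⟨w, ?_, hr'⟩
        obtain ⟨x, y, b⟩ := e
        rw [FarE, le_abs, le_abs] at this
        simp only [src_mk] at this ⊢
        omega
      · right
        obtain ⟨w, hw, hr'⟩ := clu_reach h1
        have := hcase w hw
        refine ⟨w, ?_, hr'⟩
        obtain ⟨x, y, b⟩ := e
        rw [FarE, le_abs, le_abs] at this
        cases b
        · simp only [tgt_false] at this ⊢
          omega
        · simp only [tgt_true] at this ⊢
          omega
    · refine ⟨dsrc e, dtgt e, ?_⟩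
      refine le_trans (Pr_mono okhalf ?_) ((Pr_or_le okhalf (R.edges δ) _ _).trans
        (add_le_add (pr_dfar (R.edges δ) (dsrc e) n) (pr_dfar (R.edges δ) (dtgt e) n)))
      rintro F _ ⟨_, h1⟩
      have hsub : (↑(R.edges δ) \ (↑F ∪ R.wired δ) : Set Edg) ⊆ ↑(R.edges δ \ F) := by
        rintro x ⟨hx, hx2⟩
        rw [Finset.coe_sdiff]
        exact ⟨hx, fun h => hx2 (Or.inl h)⟩
      rcases h1 with h1 | h1
      · left
        obtain ⟨g, hg, hr'⟩ := h1
        have := hcase g hg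
        refine ⟨g, ?_, (hr'.mono hsub).symm⟩
        obtain ⟨x, y, b⟩ := e
        rw [FarE, le_abs, le_abs] at this
        cases b
        · simp only [dsrc_false] at this ⊢
          omega
        · simp only [dsrc_true] at this ⊢
          omega
      · right
        obtain ⟨g, hg, hr'⟩ := h1
        have := hcase g hg
        refine ⟨g, ?_, (hr'.mono hsub).symm⟩
        obtain ⟨x, y, b⟩ := e
        rw [FarE, le_abs, le_abs] at this
        simp only [dtgt_mk] at this ⊢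
        omega
  obtain ⟨_, _, key⟩ := key
  refine key.trans ?_
  linarith

end QI75
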