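import Pool.Agent.Helper75K9.QI.Stm

/-! # [SS]: the inequality of Schramm and Steif -/

set_option maxHeartbeats 400000

namespace QI75

open H974 H973 H934E NI38 Finset MeasureTheory TopologicalSpace Filter Topology

namespace SsL

theorem ok : Ok hf := fun e => ⟨by unfold hf; norm_num, by unfold hf; norm_num⟩

/-- sign of an edge -/
def sg (F : Finset Edg) (e : Edg) : ℝ := if e ∈ F then -1 else 1

theorem chi_prod (U F : Finset Edg) : chi U F = ∏ e ∈ U, sg F e := by
  unfold chi sg
  rw [Finset.prod_ite, Finset.prod_const_one, mul_one, Finset.prod_const]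
  congr 2
  ext e
  simp only [Finset.mem_inter, Finset.mem_filter]
  tauto

theorem sg_sq (F : Finset Edg) (e : Edg) : sg F e * sg F e = 1 := by
  unfold sg
  split_ifs <;> norm_num

theorem chi_mul (U V F : Finset Edg) : chi U F * chi V F = chi (symmDiff U V) F := by
  have hU : U = (U \ V) ∪ (U ∩ V) := by ext e; simp; tauto
  have hV : V = (V \ U) ∪ (U ∩ V) := by ext e; simp; tauto
  have hUV : symmDiff U V = (U \ V) ∪ (V \ U) := rfl
  have d1 : Disjoint (U \ V) (U ∩ V) := by
    rw [Finset.disjoint_left]; intro e h1 h2; simp at h1 h2; tauto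
  have d2 : Disjoint (V \ U) (U ∩ V) := by
    rw [Finset.disjoint_left]; intro e h1 h2; simp at h1 h2; tauto
  have d3 : Disjoint (U \ V) (V \ U) := by
    rw [Finset.disjoint_left]; intro e h1 h2; simp at h1 h2; tauto
  have e1 : chi U F = (∏ e ∈ U \ V, sg F e) * ∏ e ∈ U ∩ V, sg F e := by
    conv_lhs => rw [chi_prod, hU, Finset.prod_union d1]
  have e2 : chi V F = (∏ e ∈ V \ U, sg F e) * ∏ e ∈ U ∩ V, sg F e := by
    conv_lhs => rw [chi_prod, hV, Finset.prod_union d2]
  have e3 : chi (symmDiff U V) F = (∏ e ∈ U \ V, sg F e) * ∏ e ∈ V \ U, sg F e := by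
    rw [chi_prod, hUV, Finset.prod_union d3]
  have e4 : (∏ e ∈ U ∩ V, sg F e) * ∏ e ∈ U ∩ V, sg F e = 1 := by
    rw [← Finset.prod_mul_distrib]
    exact Finset.prod_eq_one fun e _ => sg_sq F e
  rw [e1, e2, e3]
  calc _ = (∏ e ∈ U \ V, sg F e) * (∏ e ∈ V \ U, sg F e) *
        ((∏ e ∈ U ∩ V, sg F e) * ∏ e ∈ U ∩ V, sg F e) := by ring
    _ = _ := by rw [e4, mul_one]

theorem Ex_chi {S W : Finset Edg} (hW : W ⊆ S) : Ex hf S (chi W) = if W = ∅ then 1 else 0 := by
  split_ifs with h
  · subst h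
    have : ∀ F, chi ∅ F = 1 := fun F => by simp [chi]
    have h2 : Ex hf S (chi ∅) = Ex hf S (fun _ => 1) := Ex_congr fun F _ => this F
    rw [h2, Ex_const]
  · obtain ⟨e, he⟩ := Finset.nonempty_iff_ne_empty.2 h
    have hS : S = insert e (S.erase e) := (Finset.insert_erase (hW he)).symm
    have heS : e ∉ S.erase e := by simp
    rw [hS, Ex_insert hf heS]
    have h1 : Ex hf (S.erase e) (fun F => chi W (insert e F)) = - Ex hf (S.erase e) (chi W) := by
      rw [← neg_one_mul, ← Ex_mul_left]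
      refine Ex_congr fun F hF => ?_
      have heF : e ∉ F := fun h => heS (hF h)
      unfold chi
      rw [Finset.insert_inter_of_mem he, Finset.card_insert_of_notMem
        (fun h => heF (Finset.mem_inter.1 h).1), pow_succ]
      ring
    rw [h1]
    simp only [hf]
    ring

theorem orth {S U V : Finset Edg} (hU : U ⊆ S) (hV : V ⊆ S) :
    Ex hf S (fun F => chi U F * chi V F) = if U = V then 1 else 0 := by
  have h1 : Ex hf S (fun F => chi U F * chi V F) = Ex hf S (chi (symmDiff U V)) :=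
    Ex_congr fun F _ => chi_mul U V F
  have h2 : symmDiff U V ⊆ S := by
    intro e he
    rcases Finset.mem_symmDiff.1 he with h | h
    · exact hU h.1
    · exact hV h.1
  rw [h1, Ex_chi h2]
  have h3 : symmDiff U V = ∅ ↔ U = V := by
    rw [← Finset.bot_eq_empty, symmDiff_eq_bot]
  simp only [h3]

/-- the part of `f` of level `k` -/
noncomputable def gk (S : Finset Edg) (f : Finset Edg → ℝ) (k : ℕ) (F : Finset Edg) : ℝ :=
  ∑ U ∈ S.powerset.filter (fun U => U.card = k), wal S f U * chi U F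

theorem chi_hyb (T : DT Edg) (U F F' : Finset Edg) :
    chi U (hyb T F F') = chi (U ∩ T.rev F) F * chi (U \ T.rev F) F' := by
  have hU : U = (U ∩ T.rev F) ∪ (U \ T.rev F) := by ext e; simp; tauto
  have d1 : Disjoint (U ∩ T.rev F) (U \ T.rev F) := by
    rw [Finset.disjoint_left]; intro e h1 h2; simp at h1 h2; tauto
  rw [chi_prod, chi_prod, chi_prod]
  conv_lhs => rw [hU, Finset.prod_union d1]
  congr 1
  · refine Finset.prod_congr rfl fun e he => ?_
    have h1 := (Finset.mem_inter.1 he).2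
    unfold sg hyb
    simp [h1]
  · refine Finset.prod_congr rfl fun e he => ?_
    have h1 := (Finset.mem_sdiff.1 he).2
    unfold sg hyb
    simp [h1]

theorem Ex_cs (S : Finset Edg) (f h : Finset Edg → ℝ) :
    (Ex hf S (fun F => f F * h F)) ^ 2 ≤ Ex hf S (fun F => (f F) ^ 2) * Ex hf S (fun F => (h F) ^ 2) := by
  unfold Ex
  have hw : ∀ F : Finset Edg, 0 ≤ (∏ e ∈ F, hf e) * (∏ e ∈ S \ F, (1 - hf e)) := by
    intro F
    apply mul_nonneg
    · exact Finset.prod_nonneg fun e _ => (ok e).1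
    · exact Finset.prod_nonneg fun e _ => by linarith [(ok e).2]
  apply Finset.sum_sq_le_sum_mul_sum_of_sq_le_mul
  · intro F _; exact mul_nonneg (hw F) (sq_nonneg _)
  · intro F _; exact mul_nonneg (hw F) (sq_nonneg _)
  · intro F _; exact le_of_eq (by ring)

/-- union bound -/
theorem Pr_bdd {S : Finset Edg} (T : DT Edg) (r0 : ℝ) (U : Finset Edg)
    (h : ∀ e ∈ U, Pr hf S (fun F => e ∈ T.rev F) ≤ r0) :
    Pr hf S (fun F => ¬ Disjoint U (T.rev F)) ≤ U.card * r0 := by
  have h1 : Pr hf S (fun F => ¬ Disjoint U (T.rev F)) ≤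
      Ex hf S (fun F => ∑ e ∈ U, ind (e ∈ T.rev F)) := by
    unfold Pr
    refine Ex_mono ok fun F _ => ?_
    by_cases hd : ¬ Disjoint U (T.rev F)
    · rw [ind_of hd]
      rw [Finset.not_disjoint_iff] at hd
      obtain ⟨e, he, her⟩ := hd
      calc (1 : ℝ) = ind (e ∈ T.rev F) := (ind_of her).symm
        _ ≤ _ := Finset.single_le_sum (f := fun e => ind (e ∈ T.rev F))
          (fun _ _ => ind_nonneg _) he
    · rw [ind_not_of hd]
      exact Finset.sum_nonneg fun _ _ => ind_nonneg _
  refine h1.trans ?_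
  rw [Ex_sum]
  calc ∑ e ∈ U, Ex hf S (fun F => ind (e ∈ T.rev F)) ≤ ∑ e ∈ U, r0 := Finset.sum_le_sum h
    _ = _ := by rw [Finset.sum_const, nsmul_eq_mul]

end SsL

open SsL

theorem ss : S_PAR → S_SS := by
  classical
  intro par S T hT f hdet L hL r0 hr0 hrev k hk
  set 𝒰 := S.powerset.filter (fun U => U.card = k) with h𝒰
  have hsub : ∀ U ∈ 𝒰, U ⊆ S := fun U hU => Finset.mem_powerset.1 (Finset.mem_filter.1 hU).1
  have hcard : ∀ U ∈ 𝒰, U.card = k := fun U hU => (Finset.mem_filter.1 hU).2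
  set g := gk S f k with hg
  set h : Finset Edg → ℝ := fun F => Ex hf S (fun F' => g (hyb T F F')) with hh
  -- `lev = Ex f g`
  have e1 : Ex hf S (fun F => f F * g F) = lev S f k := by
    have : ∀ F, f F * g F = ∑ U ∈ 𝒰, wal S f U * (chi U F * f F) := by
      intro F
      rw [hg]
      unfold gk
      rw [Finset.mul_sum]
      exact Finset.sum_congr rfl fun U _ => by ring
    simp only [this]
    rw [Ex_sum]
    unfold lev
    refine Finset.sum_congr rfl fun U _ => ?_
    rw [Ex_mul_left, sq]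
    rfl
  -- `= Ex f h`
  have e2 : Ex hf S (fun F => f F * h F) = lev S f k := by
    rw [← e1, ← hyb_law (p := hf) T S hT (fun F => f F * g F)]
    refine Ex_congr fun F hF => ?_
    rw [hh]
    simp only
    rw [← Ex_mul_left]
    refine Ex_congr fun F' hF' => ?_
    rw [hdet F F' hF hF']
  -- coefficients of `F' ↦ g (hyb T F F')`
  have e3 : ∀ F : Finset Edg, ∀ U ∈ 𝒰, Disjoint U (T.rev F) →
      wal S (fun F' => g (hyb T F F')) U = wal S f U := by
    intro F U hU hd
    have h1 : ∀ F', chi U F' * g (hyb T F F') = ∑ V ∈ 𝒰, (wal S f V * chi (V ∩ T.rev F) F) *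
        (chi U F' * chi (V \ T.rev F) F') := by
      intro F'
      rw [hg]
      unfold gk
      rw [Finset.mul_sum]
      refine Finset.sum_congr rfl fun V _ => ?_
      rw [chi_hyb]
      ring
    unfold wal
    simp only [h1]
    rw [Ex_sum]
    rw [Finset.sum_eq_single U]
    · have h2 : U ∩ T.rev F = ∅ := Finset.disjoint_iff_inter_eq_empty.1 hd
      have h3 : U \ T.rev F = U := Finset.sdiff_eq_self_of_disjoint hd
      rw [Ex_mul_left, h2, h3, orth (hsub U hU) (hsub U hU), if_pos rfl, mul_one]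
      simp [chi, wal]
    · intro V hV hne
      rw [Ex_mul_left, orth (hsub U hU) (Finset.sdiff_subset.trans (hsub V hV)), if_neg, mul_zero]
      intro hUV
      apply hne
      refine (Finset.eq_of_subset_of_card_le ?_ ?_).symm
      · rw [hUV]; exact Finset.sdiff_subset
      · rw [hcard U hU, hcard V hV]
    · intro h; exact absurd hU h
  -- Parseval for it
  have e4 : ∀ F : Finset Edg, (h F) ^ 2 + ∑ U ∈ 𝒰, ind (Disjoint U (T.rev F)) * (wal S f U) ^ 2 ≤
      Ex hf S (fun F' => (g (hyb T F F')) ^ 2) := by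
    intro F
    rw [← par S (fun F' => g (hyb T F F'))]
    have h1 : wal S (fun F' => g (hyb T F F')) ∅ = h F := by
      unfold wal
      rw [hh]
      refine Ex_congr fun F' _ => ?_
      simp [chi]
    have hne : ∅ ∉ 𝒰 := by
      intro h2
      have := hcard _ h2
      simp at this
      omega
    calc (h F) ^ 2 + ∑ U ∈ 𝒰, ind (Disjoint U (T.rev F)) * (wal S f U) ^ 2
        ≤ (wal S (fun F' => g (hyb T F F')) ∅) ^ 2 +
          ∑ U ∈ 𝒰, (wal S (fun F' => g (hyb T F F')) U) ^ 2 := by
          rw [h1]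
          refine add_le_add le_rfl (Finset.sum_le_sum fun U hU => ?_)
          by_cases hd : Disjoint U (T.rev F)
          · rw [e3 F U hU hd, ind_of hd, one_mul]
          · rw [ind_not_of hd, zero_mul]; positivity
      _ = ∑ U ∈ insert ∅ 𝒰, (wal S (fun F' => g (hyb T F F')) U) ^ 2 := by
          rw [Finset.sum_insert hne]
      _ ≤ _ := by
          refine Finset.sum_le_sum_of_subset_of_nonneg ?_ fun _ _ _ => sq_nonneg _
          intro U hU
          rcases Finset.mem_insert.1 hU with rfl | hU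
          · exact Finset.mem_powerset.2 (Finset.empty_subset _)
          · exact (Finset.mem_filter.1 hU).1
  -- `Ex g² = lev`
  have e5 : Ex hf S (fun F => (g F) ^ 2) = lev S f k := by
    have : ∀ F, (g F) ^ 2 = ∑ U ∈ 𝒰, ∑ V ∈ 𝒰, (wal S f U * wal S f V) * (chi U F * chi V F) := by
      intro F
      rw [hg]
      unfold gk
      rw [sq, Finset.sum_mul_sum]
      exact Finset.sum_congr rfl fun U _ => Finset.sum_congr rfl fun V _ => by ring
    simp only [this]
    rw [Ex_sum]
    unfold lev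
    refine Finset.sum_congr rfl fun U hU => ?_
    rw [Ex_sum, Finset.sum_eq_single U]
    · rw [Ex_mul_left, orth (hsub U hU) (hsub U hU), if_pos rfl, mul_one, sq]
    · intro V hV hne
      rw [Ex_mul_left, orth (hsub U hU) (hsub V hV), if_neg (Ne.symm hne), mul_zero]
    · intro h; exact absurd hU h
  -- the bound for `Ex h²`
  have e6 : Ex hf S (fun F => (h F) ^ 2) +
      ∑ U ∈ 𝒰, Pr hf S (fun F => Disjoint U (T.rev F)) * (wal S f U) ^ 2 ≤ lev S f k := by
    rw [← e5, ← hyb_law (p := hf) T S hT (fun F => (g F) ^ 2)]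
    have h1 : ∑ U ∈ 𝒰, Pr hf S (fun F => Disjoint U (T.rev F)) * (wal S f U) ^ 2 =
        Ex hf S (fun F => ∑ U ∈ 𝒰, ind (Disjoint U (T.rev F)) * (wal S f U) ^ 2) := by
      rw [Ex_sum]
      refine Finset.sum_congr rfl fun U _ => ?_
      rw [Ex_mul_right]
      rfl
    rw [h1, ← Ex_add]
    exact Ex_mono ok fun F _ => e4 F
  have e7 : Ex hf S (fun F => (h F) ^ 2) ≤ k * r0 * lev S f k + mL S L f := by
    have h1 : lev S f k = ∑ U ∈ 𝒰, (wal S f U) ^ 2 := rfl
    have h2 : Ex hf S (fun F => (h F) ^ 2) ≤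
        ∑ U ∈ 𝒰, Pr hf S (fun F => ¬ Disjoint U (T.rev F)) * (wal S f U) ^ 2 := by
      have h3 : ∑ U ∈ 𝒰, Pr hf S (fun F => ¬ Disjoint U (T.rev F)) * (wal S f U) ^ 2 =
          lev S f k - ∑ U ∈ 𝒰, Pr hf S (fun F => Disjoint U (T.rev F)) * (wal S f U) ^ 2 := by
        rw [h1, ← Finset.sum_sub_distrib]
        refine Finset.sum_congr rfl fun U _ => ?_
        rw [Pr_not]
        ring
      rw [h3]
      linarith
    refine h2.trans ?_
    have h4 : ∑ U ∈ 𝒰, Pr hf S (fun F => ¬ Disjoint U (T.rev F)) * (wal S f U) ^ 2 ≤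
        ∑ U ∈ 𝒰, ((k * r0) * (wal S f U) ^ 2 +
          (if ¬ Disjoint U L then (wal S f U) ^ 2 else 0)) := by
      refine Finset.sum_le_sum fun U hU => ?_
      by_cases hd : Disjoint U L
      · rw [if_neg (not_not.2 hd), add_zero]
        apply mul_le_mul_of_nonneg_right _ (sq_nonneg _)
        have := Pr_bdd (S := S) T r0 U (fun e he => hrev e (Finset.mem_sdiff.2 ⟨hsub U hU he,
          fun heL => (Finset.disjoint_left.1 hd) he heL⟩))
        rwa [hcard U hU] at this
      · rw [if_pos hd]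
        have h5 := Pr_le_one ok S (fun F => ¬ Disjoint U (T.rev F))
        have h6 := mul_le_mul_of_nonneg_right h5 (sq_nonneg (wal S f U))
        have h7 : 0 ≤ (k * r0) * (wal S f U) ^ 2 := by positivity
        linarith
    refine h4.trans ?_
    rw [Finset.sum_add_distrib, ← Finset.mul_sum, ← h1]
    refine add_le_add le_rfl ?_
    rw [← Finset.sum_filter]
    unfold mL
    refine Finset.sum_le_sum_of_subset_of_nonneg ?_ fun _ _ _ => sq_nonneg _
    intro U hU
    rw [Finset.mem_filter] at hU ⊢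
    exact ⟨(Finset.mem_filter.1 hU.1).1, hU.2⟩
  calc (lev S f k) ^ 2 = (Ex hf S (fun F => f F * h F)) ^ 2 := by rw [e2]
    _ ≤ Ex hf S (fun F => (f F) ^ 2) * Ex hf S (fun F => (h F) ^ 2) := Ex_cs S f h
    _ ≤ _ := by
        apply mul_le_mul_of_nonneg_left e7
        exact Ex_nonneg ok fun F _ => sq_nonneg _

end QI75
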