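import Pool.Agent.Helper38K9.NI.Stm

/-!
Exploration paths in a random environment, and noise sensitivity: definitions and statements.
The model is `Pool.Agent.H934R2.Expl.Model` (`H934E.Rect`, `clu`, `dclu`, `corners`, `trace`).
-/

set_option maxHeartbeats 400000

namespace QI75

open H974 H973 H934E NI38 Finset MeasureTheory TopologicalSpace Filter Topology

/-! ### Abstract part: Walsh coefficients and decision trees -/

/-- The fair parameters. -/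
noncomputable def hf (_ : Edg) : ℝ := 1 / 2

/-- Walsh character. -/
def chi (U F : Finset Edg) : ℝ := (-1 : ℝ) ^ (F ∩ U).card

/-- Walsh coefficient of `f` at `U`, for the fair measure on the subsets of `S`. -/
noncomputable def wal (S : Finset Edg) (f : Finset Edg → ℝ) (U : Finset Edg) : ℝ :=
  Ex hf S (fun F => chi U F * f F)

/-- Spectral weight at level `k`. -/
noncomputable def lev (S : Finset Edg) (f : Finset Edg → ℝ) (k : ℕ) : ℝ :=
  ∑ U ∈ S.powerset.filter (fun U => U.card = k), (wal S f U) ^ 2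

/-- Spectral weight of the sets which meet `L`. -/
noncomputable def mL (S L : Finset Edg) (f : Finset Edg → ℝ) : ℝ :=
  ∑ U ∈ S.powerset.filter (fun U => ¬ Disjoint U L), (wal S f U) ^ 2

/-- The noise functional. -/
noncomputable def NS (τ : ℝ) (S : Finset Edg) (f : Finset Edg → ℝ) : ℝ :=
  ∑ U ∈ S.powerset.filter (fun U => U ≠ ∅), (1 - τ) ^ U.card * (wal S f U) ^ 2

/-- [PAR] Parseval (proved in `H389R2/NS/SumSp.lean`: `parseval`, and `chi`, `wal` lemmas there). -/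
def S_PAR : Prop := ∀ (S : Finset Edg) (f : Finset Edg → ℝ),
  ∑ U ∈ S.powerset, (wal S f U) ^ 2 = Ex hf S (fun F => (f F) ^ 2)

/-- [ENV] Variance of the quenched expectation in an independent environment with mean `1/2`.
`Ex P S f = Σ_U wal U Π_{e ∈ U} (1 - 2 P e)`, independence. -/
def S_ENV : Prop := ∀ (S : Finset Edg) (f : Finset Edg → ℝ) (τ : ℝ), 0 ≤ τ → τ ≤ 1 →
  ∀ (ν : Edg → Measure unitInterval) [∀ e, IsProbabilityMeasure (ν e)],
    (∀ e, ∫ u, (u : ℝ) ∂ν e = 1 / 2) → (∀ e, ∫ u, (2 * (u : ℝ) - 1) ^ 2 ∂ν e ≤ 1 - τ) →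
    ∫⁻ P, ENNReal.ofReal ((Ex (fun e => (P e : ℝ)) S f - Ex hf S f) ^ 2) ∂(Measure.infinitePi ν) ≤
      ENNReal.ofReal (NS τ S f)

/-- [NSE] The same for resampling: given the whole configuration `F`, the resampled configuration
has the parameters `1 - τ / 2` on `F` and `τ / 2` off `F`. -/
def S_NSE : Prop := ∀ (S : Finset Edg) (f : Finset Edg → ℝ) (τ : ℝ), 0 ≤ τ → τ ≤ 1 →
  Ex hf S (fun F => (Ex (fun e => (1 - τ) * ind (e ∈ F) + τ / 2) S f - Ex hf S f) ^ 2) ≤ NS τ S f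

/-- [SS] The inequality of Schramm and Steif, with an exceptional set `L` of edges.
With `g = Σ_{|U|=k} wal f U chi U`, `h F = Ex hf S (fun F' => g (hyb T F F'))`: `lev = Ex f g =
Ex f h`, `Ex h² ≤ lev - Σ_{|U|=k} wal² P(U ∩ rev = ∅)` (Parseval for `F' ↦ g (hyb T F F')`,
whose coefficient at `U` disjoint from `rev F`, `|U| = k`, is `wal f U`), `hyb_law`. -/
def S_SS : Prop := ∀ (S : Finset Edg) (T : DT Edg), T.Valid S → ∀ f : Finset Edg → ℝ,
  (∀ F F', F ⊆ S → F' ⊆ S → f (hyb T F F') = f F) → ∀ L : Finset Edg, L ⊆ S →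
  ∀ r0 : ℝ, 0 ≤ r0 → (∀ e ∈ S \ L, Pr hf S (fun F => e ∈ T.rev F) ≤ r0) → ∀ k : ℕ, 1 ≤ k →
    (lev S f k) ^ 2 ≤ Ex hf S (fun F => (f F) ^ 2) * (k * r0 * lev S f k + mL S L f)

/-- [SUM] Summation over the levels: `lev k ≤ M k (M √r0 + √mL)`, `Σ k (1-τ)^k ≤ 1/τ²`. -/
def S_SUM : Prop := ∀ (S : Finset Edg) (T : DT Edg), T.Valid S → ∀ f : Finset Edg → ℝ,
  (∀ F F', F ⊆ S → F' ⊆ S → f (hyb T F F') = f F) → ∀ L : Finset Edg, L ⊆ S →
  ∀ r0 : ℝ, 0 ≤ r0 → (∀ e ∈ S \ L, Pr hf S (fun F => e ∈ T.rev F) ≤ r0) →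
  ∀ M : ℝ, 0 ≤ M → (∀ F, F ⊆ S → |f F| ≤ M) → ∀ τ : ℝ, 0 < τ → τ ≤ 1 →
    NS τ S f ≤ M / τ ^ 2 * (M * Real.sqrt r0 + Real.sqrt (mL S L f))

/-- [MLE] `mL = Ex (f - Ex_L f)²`. -/
def S_MLE : Prop := ∀ (S L : Finset Edg), L ⊆ S → ∀ (f : Finset Edg → ℝ) (a b M : ℝ), 0 ≤ a →
  (∀ F, F ⊆ S → |f F| ≤ M) →
  Pr hf S (fun F => ∃ F', F' ⊆ S ∧ F' \ L = F \ L ∧ a < |f F - f F'|) ≤ b →
    mL S L f ≤ a ^ 2 + 4 * M ^ 2 * b

/-! ### The exploration -/

/-- The dual cluster of the free arc through the dual edges crossing `Cl`. -/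
def dcl (R : Rect) (δ : ℝ) (Cl : Finset Edg) : Set Vtx :=
  {f | ∃ g ∈ R.outer δ, DReach (↑Cl \ R.wired δ) g f}

/-- The edge touches the cluster of the wired arc in `O` and the dual cluster of the free arc
in `Cl`. -/
def TchOC (R : Rect) (δ : ℝ) (e : Edg) (O Cl : Finset Edg) : Prop :=
  (src e ∈ R.clu δ O ∨ tgt e ∈ R.clu δ O) ∧ (dsrc e ∈ dcl R δ Cl ∨ dtgt e ∈ dcl R δ Cl)

/-- The same in the full configuration. -/
def Tch (R : Rect) (δ : ℝ) (e : Edg) (F : Finset Edg) : Prop :=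
  (src e ∈ R.clu δ F ∨ tgt e ∈ R.clu δ F) ∧ (dsrc e ∈ R.dclu δ F ∨ dtgt e ∈ R.dclu δ F)

/-- [EXP] The exploration tree (as `explore`, `explore_valid`, `explore_stop`, `explore_rev` in
`H974R2/Explore.lean`, with `TchOC` in the place of `touch`). -/
def S_EXP : Prop := ∀ (R : Rect) (δ : ℝ), ∃ T : DT Edg, T.Valid (R.edges δ) ∧
  ∀ F : Finset Edg, F ⊆ R.edges δ →
    (∀ e ∈ R.edges δ, e ∉ T.rev F → ¬ TchOC R δ e (F ∩ T.rev F) (T.rev F \ F)) ∧
    (∀ e ∈ T.rev F, Tch R δ e F)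

/-- [COR] When the exploration has stopped the corners are known. Potential with values in
`ZMod 2` as in `NI/Pot.lean`, with the clusters of `O` and `Cl` in the place of the full ones:
`D e = ([src e ∈ C] + [tgt e ∈ C]) [dsrc e ∈ D]` is the same with `dtgt`, as either `C` does not
separate the ends of `e`, or `D` does not separate the dual ends, or `e` is not touched by one of
them. The potential is constant along the open edges of `F` and (for faces) along the dual edges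
which cross closed edges of `F`, hence it is constant on the full clusters. -/
def S_COR : Prop := ∀ (R : Rect) (δ : ℝ), Sm R δ → ∀ O Cl F : Finset Edg, O ⊆ F →
  F ⊆ R.edges δ → Cl ⊆ R.edges δ → Disjoint Cl F →
  (∀ e ∈ R.edges δ, e ∉ O → e ∉ Cl → ¬ TchOC R δ e O Cl) →
    R.corners δ F = {k | k.1 ∈ R.clu δ O ∧ cface k.1 k.2 ∈ dcl R δ Cl}

/-- [TREE] from [EXP] and [COR]: apply [COR] to `F` and to `hyb T F F'`. -/
def S_TREE : Prop := ∀ (R : Rect) (δ : ℝ), Sm R δ → ∃ T : DT Edg, T.Valid (R.edges δ) ∧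
  (∀ F, F ⊆ R.edges δ → ∀ e ∈ T.rev F, Tch R δ e F) ∧
  ∀ F F', F ⊆ R.edges δ → F' ⊆ R.edges δ → R.corners δ (hyb T F F') = R.corners δ F

/-! ### Revealment -/

/-- [ARM] Polynomial upper bound for the one-arm probability at `1/2` (Harris and `rsw` for the
four rectangles around a square, `hh_dual`, independence of dyadic or triadic annuli). -/
def S_ARM : Prop := ∃ c C : ℝ, 0 < c ∧ 0 < C ∧ ∀ n : ℕ, 1 ≤ n →
  arm (1 / 2) n ≤ C * (n : ℝ) ^ (-c)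

/-- The edges of the domain in the boxes of radius `r` around `b = (0, 0)` and `a = (tc, y1)`. -/
noncomputable def LL (R : Rect) (δ : ℝ) (r : ℤ) : Finset Edg :=
  (R.edges δ).filter (fun e => e ∈ RE (-r) r 0 r ∨
    e ∈ RE (R.tc δ - r) (R.tc δ + r) (R.y1 δ - r) (R.y1 δ))

/-- `w` is at distance at least `ρ` of the edge `e`. -/
def FarE (e : Edg) (w : Vtx) (ρ : ℤ) : Prop := ρ ≤ |e.1 - w.1| ∨ ρ ≤ |e.2.1 - w.2|

/-- [GEO] An edge away from `a` and `b` is far from one of the two arcs. -/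
def S_GEO : Prop := ∀ R : Rect, ∃ η0 δ0 : ℝ, 0 < η0 ∧ 0 < δ0 ∧ δ0 ≤ 1 ∧
  ∀ δ : ℝ, 0 < δ → δ < δ0 → Sm R δ ∧ ∀ r ρ : ℤ, 1 ≤ ρ → 8 * ρ + 8 ≤ r → δ * r ≤ η0 →
    ∀ e ∈ R.edges δ, e ∉ LL R δ r →
      (∀ w ∈ wv R δ, FarE e w ρ) ∨ (∀ g ∈ R.outer δ, FarE e g ρ)

/-- [REV] Probability that an edge is touched (`arm_bound` for the path until the first wired
vertex, resp. `reach_dl`, `pr_dmp`, `Pr_compl` for the dual path until the first outer face). -/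
def S_REV : Prop := ∃ c : ℝ, 0 < c ∧ ∀ R : Rect, ∃ C η0 δ0 : ℝ, 0 < C ∧ 0 < η0 ∧ 0 < δ0 ∧
  δ0 ≤ 1 ∧ ∀ δ : ℝ, 0 < δ → δ < δ0 → ∀ r : ℤ, 100 ≤ r → δ * r ≤ η0 →
    ∀ e ∈ R.edges δ, e ∉ LL R δ r → Pr hf (R.edges δ) (Tch R δ e) ≤ C * (r : ℝ) ^ (-c)

/-! ### The edges near the endpoints -/

/-- The four arm events from radius `r` to radius `r'`: open and dual closed, at `b` and `a`. -/
def Arm4 (R : Rect) (δ : ℝ) (r r' : ℤ) (F : Finset Edg) : Prop :=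
  (BAr 0 r r' F ∨ BAr (R.tc δ) r r' ((rfy (R.y1 δ)).mp F)) ∨
    (BAr 0 r r' ((trl 0 1).mp (dmp (R.edges δ \ F))) ∨
      BAr (R.tc δ) r r' ((rfy (R.y1 δ)).mp (dmp (R.edges δ \ F))))

/-- [AR4] (`BAr_le`, `Pr_mono_set`, `LSym.pr`, `pr_dmp`, `Pr_compl`). -/
def S_AR4 : Prop := ∃ C : ℝ, 0 < C ∧ ∀ (R : Rect) (δ : ℝ) (r r' : ℤ), 1 ≤ r → r ≤ r' →
  Pr hf (R.edges δ) (Arm4 R δ r r') ≤ C * (th r / th r')

/-- The point is outside of the boxes of radius `r` around `b` and `a`. -/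
def Out (R : Rect) (δ : ℝ) (r : ℤ) (v : Vtx) : Prop :=
  (r ≤ |v.1| ∨ r ≤ v.2) ∧ (r ≤ |v.1 - R.tc δ| ∨ r ≤ R.y1 δ - v.2)

/-- [LOC] Without the arms the clusters away from `a` and `b` do not depend on the edges near `a`
and `b`. Induction along the path from `(0,0)` in `F ∪ wired`: its points are in `clu F'` or
connected in `F \ L = F' \ L` to a point of the box of radius `r` around `b` or `a`; wired vertices
are in both clusters (`WarL.bot`, `lef`, `tp` of `NI/War.lean`); `exitG`. The same for faces (dual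
ends of the edges of `L` are in the box of radius `r + 2` after `trl 0 1`, resp. `rfy y1`). -/
def S_LOC : Prop := ∀ (R : Rect) (δ : ℝ), Sm R δ → ∀ r r' : ℤ, 1 ≤ r → r + 2 ≤ r' →
  ∀ F F' : Finset Edg, F ⊆ R.edges δ → F' ⊆ R.edges δ → F \ LL R δ r = F' \ LL R δ r →
    ¬ Arm4 R δ (r + 2) r' F → ∀ v : Vtx, Out R δ (r' + 2) v →
      (v ∈ R.clu δ F ↔ v ∈ R.clu δ F') ∧ (v ∈ R.dclu δ F ↔ v ∈ R.dclu δ F')

/-- [DET] Then the traces are close: a corner away from `a` and `b` is a corner for `F'`, and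
both paths have a corner at `a` and at `b`. -/
def S_DET : Prop := ∀ (R : Rect) (δ : ℝ) (hδ : 0 < δ), Sm R δ → ∀ r r' : ℤ, 1 ≤ r → r + 2 ≤ r' →
  ∀ F F' : Finset Edg, F ⊆ R.edges δ → F' ⊆ R.edges δ → F \ LL R δ r = F' \ LL R δ r →
    ¬ Arm4 R δ (r + 2) r' F → dist (R.trace hδ F) (R.trace hδ F') ≤ 20 * (δ * r')

/-! ### The result -/

/-- [MAIN] The noise functional of Lipschitz functionals of the trace: [SUM], [MLE], [TREE], [REV],
[AR4], [DET] with `r ~ δ^(-1/2)`, `r' ~ δ^(-3/4)`. -/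
def S_MAIN : Prop := ∃ c : ℝ, 0 < c ∧ ∀ R : Rect, ∀ M K : ℝ, 0 ≤ M → 0 ≤ K →
  ∃ C δ0 : ℝ, 0 < C ∧ 0 < δ0 ∧ δ0 ≤ 1 ∧ ∀ δ : ℝ, ∀ hδ : 0 < δ, δ < δ0 →
    ∀ Φ : NonemptyCompacts ℂ → ℝ, (∀ x, |Φ x| ≤ M) → (∀ x y, |Φ x - Φ y| ≤ K * dist x y) →
    ∀ τ : ℝ, 0 < τ → τ ≤ 1 →
      NS τ (R.edges δ) (fun F => Φ (R.trace hδ F)) ≤ C * δ ^ c / τ ^ 2

end QI75
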