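import Pool.Agent.Helper75K9.QI.Stm

/-!
[TREE] The exploration tree decides the corners.
-/

set_option maxHeartbeats 400000

namespace QI75

open H974 H973 H934E NI38 Finset MeasureTheory TopologicalSpace Filter Topology

theorem tree : S_EXP → S_COR → S_TREE := by
  intro hE hC R δ hS
  obtain ⟨T, hT, h⟩ := hE R δ
  refine ⟨T, hT, fun F hF => (h F hF).2, ?_⟩
  intro F F' hF hF'
  have hrev : T.rev F ⊆ R.edges δ := DT.rev_subset _ _ hT F
  have hst : ∀ e ∈ R.edges δ, e ∉ F ∩ T.rev F → e ∉ T.rev F \ F →
      ¬ TchOC R δ e (F ∩ T.rev F) (T.rev F \ F) := by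
    intro e he h1 h2
    apply (h F hF).1 e he
    intro h3
    rw [Finset.mem_inter] at h1
    rw [Finset.mem_sdiff] at h2
    tauto
  have e1 := hC R δ hS (F ∩ T.rev F) (T.rev F \ F) F Finset.inter_subset_left hF
    (Finset.sdiff_subset.trans hrev) Finset.sdiff_disjoint hst
  have e2 := hC R δ hS (F ∩ T.rev F) (T.rev F \ F) (hyb T F F') (by
      intro x hx
      unfold hyb
      rw [Finset.mem_inter] at hx
      simp only [Finset.mem_union, Finset.mem_inter, Finset.mem_sdiff]
      tauto) (by
      intro x hx
      unfold hyb at hx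
      simp only [Finset.mem_union, Finset.mem_inter, Finset.mem_sdiff] at hx
      rcases hx with hx | hx
      · exact hF hx.1
      · exact hF' hx.1)
    (Finset.sdiff_subset.trans hrev) (by
      rw [Finset.disjoint_left]
      intro x hx hx2
      unfold hyb at hx2
      simp only [Finset.mem_union, Finset.mem_inter, Finset.mem_sdiff] at hx hx2
      tauto) hst
  rw [e1, e2]

end QI75
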